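import Pool.Agent.AME.Repair3
import Pool.Agent.AMF.Defs

/-!
# From a complete labelling with leaf gadgets to an antimagic labelling (inner form)

`lam`, `g` are labels of the leaf edges and of the edges of `H`, `Rg` the regular vertices, `SEH` the
exchangeable edges of `H` (labels at most `a + s0`, `a` = number of leaves), `Gd` the gadget leaves.
-/

set_option autoImplicit false
set_option linter.unusedSectionVars false
set_option linter.unusedVariables false

namespace Pool.Agent.AML

open Finset Pool.Agent.AMF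
open Pool.Agent.AMX (vsum)
open Pool.Agent.AME (RepHyp3 repair3)

variable {W X : Type} [Fintype W] [DecidableEq W] [Fintype X] [DecidableEq X] {p : ℕ}

/-- the sum at `w` modulo `p` -/
def wz (p : ℕ) (own : X → W) (E : Finset (Sym2 W)) (lam : X → ℕ) (g : Sym2 W → ℕ) (w : W) : ZMod p :=
  ((wsum own E lam g w : ℕ) : ZMod p)

/-- A complete labelling before the repair. -/
structure Lay (E : Finset (Sym2 W)) (own : X → W) (lam : X → ℕ) (g : Sym2 W → ℕ) (Rg : Finset W)
    (SEH : Finset (Sym2 W)) (l0 l1 : W → X) (Gd : Finset X) (T : Finset (ZMod p)) (s0 bb B : ℕ) :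
    Prop where
  deg2 : ∀ w, 2 ≤ (leavesAt own w).card + (edgesAt E w).card
  lam_mem : ∀ x, 1 ≤ lam x ∧ lam x ≤ Fintype.card X
  lam_inj : Function.Injective lam
  g_mem : ∀ e ∈ E, Fintype.card X < g e ∧ g e ≤ Fintype.card X + E.card
  g_inj : Set.InjOn g E
  s0a : s0 ≤ Fintype.card X
  s0E : s0 ≤ E.card
  -- regular vertices
  rbig : ∀ w ∈ Rg, (edgesAt E w).Nonempty → ∃ e ∈ edgesAt E w, e ∉ SEH ∧ Fintype.card X + s0 < g e
  rstar : ∀ w ∈ Rg, edgesAt E w = ∅ → Fintype.card X + s0 < wsum own E lam g w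
  rD : ∀ w ∈ Rg, leavesAt own w = ∅ → bb < wsum own E lam g w
  -- exchangeable edges
  seE : SEH ⊆ E
  seS : ∀ e ∈ SEH, g e ≤ Fintype.card X + s0
  cov : ∀ w, w ∉ Rg → leavesAt own w = ∅ → ∃ e ∈ SEH, w ∈ e ∧
    ((∃ e' ∈ SEH, e' ≠ e ∧ ∃ v, v ∈ e ∧ v ∈ e') ∨ ∃ v ∈ e, v ∉ Rg ∧ (leavesAt own v).Nonempty)
  l0m : ∀ w, w ∉ Rg → (leavesAt own w).Nonempty → own (l0 w) = w
  l1m : ∀ w, w ∉ Rg → edgesAt E w = ∅ → own (l1 w) = w ∧ l1 w ≠ l0 w
  -- gadgets
  gR : ∀ x ∈ Gd, own x ∈ Rg
  g1 : ∀ x ∈ Gd, ∀ y ∈ Gd, own x = own y → x = y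
  gL : ∀ x ∈ Gd, Fintype.card X + s0 < 2 * lam x
  gst : ∀ x ∈ Gd, edgesAt E (own x) = ∅ →
    Fintype.card X + s0 + lam x < wsum own E lam g (own x)
  gp : ∀ x ∈ Gd, ∀ y ∈ Gd, (lam x : ZMod p) = (lam y : ZMod p) → x = y
  -- sums
  nT : ∀ w ∈ Rg, wz p own E lam g w ∉ T
  sinj : ∀ w ∈ Rg, ∀ w' ∈ Rg, (((leavesAt own w).Nonempty ∧ wsum own E lam g w ≤ bb) ↔
    ((leavesAt own w').Nonempty ∧ wsum own E lam g w' ≤ bb)) →
    wz p own E lam g w = wz p own E lam g w' → w = w'
  key : ∀ y : ZMod p, (Gd.filter fun x => wz p own E lam g (own x) - (lam x : ZMod p) = y).card ≤ B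
  test : ∀ C1 C2 l : ZMod p, 14 * (B + 3) * (univ \ Rg).card + 2 * (B + 3) <
    (Gd.filter fun x => C1 + (lam x : ZMod p) ∈ T ∧ C2 + (lam x : ZMod p) ∈ T ∧
      wz p own E lam g (own x) - (lam x : ZMod p) + l ∈ T ∧
      wz p own E lam g (own x) - (lam x : ZMod p) + l ≠ C1 + (lam x : ZMod p) ∧
      wz p own E lam g (own x) - (lam x : ZMod p) + l ≠ C2 + (lam x : ZMod p)).card

/-- the ends of the edges (leaf edges and edges of `H`) in `W` -/
def enL (own : X → W) (E : Finset (Sym2 W)) : X ⊕ {e // e ∈ E} → Finset W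
  | Sum.inl x => {own x}
  | Sum.inr e => univ.filter fun w => w ∈ e.1

/-- the labels -/
def fL (E : Finset (Sym2 W)) (lam : X → ℕ) (g : Sym2 W → ℕ) (e : X ⊕ {e // e ∈ E}) : ℕ :=
  Sum.elim lam (fun e => g e.1) e

variable {E : Finset (Sym2 W)} {own : X → W} {lam : X → ℕ} {g : Sym2 W → ℕ} {Rg : Finset W}
    {SEH : Finset (Sym2 W)} {l0 l1 : W → X} {Gd : Finset X} {T : Finset (ZMod p)} {s0 bb B : ℕ}

theorem mem_enL_inl {x : X} {w : W} : w ∈ enL own E (Sum.inl x) ↔ own x = w := by
  simp [enL, eq_comm]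

theorem mem_enL_inr {e : {e // e ∈ E}} {w : W} : w ∈ enL own E (Sum.inr e) ↔ w ∈ e.1 := by
  simp [enL]

theorem enL_inl {x : X} : enL own E (Sum.inl x) = {own x} := by
  ext w
  rw [mem_enL_inl, mem_singleton, eq_comm]

/-- the sum at a vertex -/
theorem isum_eq (h : X ⊕ {e // e ∈ E} → ℕ) (lam' : X → ℕ) (g' : Sym2 W → ℕ)
    (h1 : ∀ x, lam' x = h (Sum.inl x)) (h2 : ∀ e, g' e.1 = h (Sum.inr e)) (w : W) :
    ∑ e ∈ univ.filter (fun e => w ∈ enL own E e), h e = wsum own E lam' g' w := by
  rw [sum_filter, Fintype.sum_sum_type]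
  unfold wsum leavesAt edgesAt
  congr 1
  · rw [sum_filter]
    refine sum_congr rfl fun x _ => ?_
    rw [h1]
    by_cases hx : own x = w
    · rw [if_pos (mem_enL_inl.2 hx), if_pos hx]
    · rw [if_neg (fun hc => hx (mem_enL_inl.1 hc)), if_neg hx]
  · rw [sum_filter, ← sum_coe_sort E (fun e => if w ∈ e then g' e else 0)]
    refine sum_congr rfl fun e _ => ?_
    by_cases hx : w ∈ e.1
    · rw [if_pos (mem_enL_inr.2 hx), if_pos hx, ← h2]
    · rw [if_neg (fun hc => hx (mem_enL_inr.1 hc)), if_neg hx]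

theorem vsum_eqL (h : X ⊕ {e // e ∈ E} → ℕ) (lam' : X → ℕ) (g' : Sym2 W → ℕ)
    (h1 : ∀ x, lam' x = h (Sum.inl x)) (h2 : ∀ e, g' e.1 = h (Sum.inr e)) (w : W) :
    vsum (enL own E) (0 : W → ZMod p) h w = wz p own E lam' g' w := by
  unfold vsum wz
  rw [← isum_eq h lam' g' h1 h2 w]
  push_cast
  simp

/-- the exchangeable leaves -/
def FXl (E : Finset (Sym2 W)) (own : X → W) (Rg : Finset W) (l0 l1 : W → X) : Finset X :=
  ((univ.filter fun w => w ∉ Rg ∧ (leavesAt own w).Nonempty).image l0) ∪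
    ((univ.filter fun w => w ∉ Rg ∧ edgesAt E w = ∅).image l1)

theorem Lay.leaf_ne (h : Lay E own lam g Rg SEH l0 l1 Gd T s0 bb B) {w : W}
    (hw : edgesAt E w = ∅) : (leavesAt own w).Nonempty := by
  have := h.deg2 w
  rw [hw, card_empty] at this
  rw [← card_pos]
  omega

theorem Lay.FXl_own (h : Lay E own lam g Rg SEH l0 l1 Gd T s0 bb B) {x : X}
    (hx : x ∈ FXl E own Rg l0 l1) : own x ∉ Rg := by
  unfold FXl at hx
  rw [mem_union, mem_image, mem_image] at hx
  rcases hx with ⟨w, hw, rfl⟩ | ⟨w, hw, rfl⟩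
  · rw [mem_filter] at hw
    rw [h.l0m w hw.2.1 hw.2.2]
    exact hw.2.1
  · rw [mem_filter] at hw
    rw [(h.l1m w hw.2.1 hw.2.2).1]
    exact hw.2.1

theorem Lay.rep (h : Lay E own lam g Rg SEH l0 l1 Gd T s0 bb B) :
    RepHyp3 (enL own E) (0 : W → ZMod p) (fL E lam g) T Rg
      (fun j => if j then ∅ else Gd.image Sum.inl) (fun _ => false)
      ((univ.filter fun e => e.1 ∈ SEH).image Sum.inr ∪ (FXl E own Rg l0 l1).image Sum.inl)
      ((FXl E own Rg l0 l1).image Sum.inl) B := by
  classical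
  have hvs : ∀ w, vsum (enL own E) (0 : W → ZMod p) (fL E lam g) w = wz p own E lam g w :=
    vsum_eqL _ _ _ (fun _ => rfl) (fun _ => rfl)
  have hc1 : ∀ x, (enL own E (Sum.inl x)).card = 1 := fun x => by rw [enL_inl, card_singleton]
  have hen2 : ∀ e : {e // e ∈ E}, ∃ u v, enL own E (Sum.inr e) = {u, v} := by
    rintro ⟨e, he⟩
    induction e using Sym2.ind with
    | _ u v =>
      refine ⟨u, v, ?_⟩
      ext w
      rw [mem_enL_inr, Sym2.mem_iff, mem_insert, mem_singleton]
  have hGd : ∀ j, ∀ e ∈ (fun j : Bool => if j then (∅ : Finset (X ⊕ {e // e ∈ E})) else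
      Gd.image Sum.inl) j, j = false ∧ ∃ x ∈ Gd, e = Sum.inl x := by
    intro j e he
    cases j
    · simp only [Bool.false_eq_true, if_false, mem_image] at he
      obtain ⟨x, hx, rfl⟩ := he
      exact ⟨rfl, x, hx, rfl⟩
    · simp at he
  have hSE : ∀ e, e ∈ ((univ.filter fun e : {e // e ∈ E} => e.1 ∈ SEH).image Sum.inr ∪
      (FXl E own Rg l0 l1).image Sum.inl : Finset (X ⊕ {e // e ∈ E})) →
      (∃ e' : {e // e ∈ E}, e'.1 ∈ SEH ∧ e = Sum.inr e') ∨
        ∃ x ∈ FXl E own Rg l0 l1, e = Sum.inl x := by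
    intro e he
    rw [mem_union, mem_image, mem_image] at he
    rcases he with ⟨e', he', rfl⟩ | ⟨x, hx, rfl⟩
    · exact Or.inl ⟨e', (mem_filter.1 he').2, rfl⟩
    · exact Or.inr ⟨x, hx, rfl⟩
  have hcard2 : ∀ e, (enL own E e).Nonempty ∧ (enL own E e).card ≤ 2 := by
    rintro (x | e)
    · rw [← card_pos, hc1]; omega
    · obtain ⟨u, v, huv⟩ := hen2 e
      rw [huv]
      exact ⟨insert_nonempty _ _, card_le_two⟩
  constructor
  · intro e _; exact hcard2 e
  · intro j e _; exact hcard2 e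
  · intro j
    rw [disjoint_left]
    intro e he he'
    obtain ⟨-, x, hx, rfl⟩ := hGd j e he'
    rcases hSE _ he with ⟨e', -, h1⟩ | ⟨y, hy, h1⟩
    · exact absurd h1 (by simp)
    · have h2 : x = y := Sum.inl_injective h1
      subst h2
      exact h.FXl_own hy (h.gR x hx)
  · simp
  · intro e he
    refine ⟨mem_union_right _ he, ?_⟩
    obtain ⟨x, -, rfl⟩ := mem_image.1 he
    exact hc1 x
  · refine card_image_le.trans ?_
    unfold FXl
    refine (card_union_le _ _).trans ?_
    rw [two_mul]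
    refine Nat.add_le_add (card_image_le.trans (card_le_card ?_))
      (card_image_le.trans (card_le_card ?_))
    · intro w hw
      rw [mem_filter] at hw
      rw [mem_sdiff]
      exact ⟨mem_univ _, hw.2.1⟩
    · intro w hw
      rw [mem_filter] at hw
      rw [mem_sdiff]
      exact ⟨mem_univ _, hw.2.1⟩
  · intro e he e' he' hne
    rcases hSE e he with ⟨e1, h1, rfl⟩ | ⟨x, hx, rfl⟩
    · rcases hSE e' he' with ⟨e2, h2, rfl⟩ | ⟨x, hx, rfl⟩
      · rw [card_le_one]
        intro u hu v hv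
        rw [mem_inter, mem_enL_inr, mem_enL_inr] at hu hv
        by_contra huv
        have h3 := (Sym2.mem_and_mem_iff huv).1 ⟨hu.1, hv.1⟩
        have h4 := (Sym2.mem_and_mem_iff huv).1 ⟨hu.2, hv.2⟩
        exact hne (congrArg Sum.inr (Subtype.ext (h3.trans h4.symm)))
      · exact (card_le_card inter_subset_right).trans (hc1 x).le
    · exact (card_le_card inter_subset_left).trans (hc1 x).le
  · intro w hw
    by_cases hl : (leavesAt own w).Nonempty
    · refine ⟨Sum.inl (l0 w), ?_, ?_, ?_⟩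
      · refine mem_union_right _ (mem_image_of_mem _ (mem_union_left _ (mem_image_of_mem _ ?_)))
        rw [mem_filter]
        exact ⟨mem_univ _, hw, hl⟩
      · rw [mem_enL_inl]
        exact h.l0m w hw hl
      · intro h2
        rw [hc1] at h2
        omega
    · rw [not_nonempty_iff_eq_empty] at hl
      obtain ⟨e, he, hwe, hor⟩ := h.cov w hw hl
      refine ⟨Sum.inr ⟨e, h.seE he⟩, mem_union_left _ (mem_image_of_mem _ (mem_filter.2
        ⟨mem_univ _, he⟩)), mem_enL_inr.2 hwe, fun _ => ?_⟩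
      rcases hor with ⟨e', he', hne, v, hv, hv'⟩ | ⟨v, hv, hvR, hvl⟩
      · refine ⟨Sum.inr ⟨e', h.seE he'⟩, mem_union_left _ (mem_image_of_mem _ (mem_filter.2
          ⟨mem_univ _, he'⟩)), ?_, v, ?_⟩
        · intro hc
          exact hne (congrArg Subtype.val (Sum.inr_injective hc))
        · rw [mem_inter, mem_enL_inr, mem_enL_inr]
          exact ⟨hv, hv'⟩
      · refine ⟨Sum.inl (l0 v), ?_, by simp, v, ?_⟩
        · refine mem_union_right _ (mem_image_of_mem _ (mem_union_left _ (mem_image_of_mem _ ?_)))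
          rw [mem_filter]
          exact ⟨mem_univ _, hvR, hvl⟩
        · rw [mem_inter, mem_enL_inr, mem_enL_inl]
          exact ⟨hv, h.l0m v hvR hvl⟩
  · intro j e he u hu u' hu' _
    obtain ⟨-, x, -, rfl⟩ := hGd j e he
    rw [mem_enL_inl] at hu hu'
    exact hu.symm.trans hu'
  · intro w hw
    rw [hvs]
    exact h.nT w hw
  · intro j e he u hu
    obtain ⟨-, x, hx, rfl⟩ := hGd j e he
    rw [mem_enL_inl] at hu
    exact hu ▸ h.gR x hx
  · intro j e he e' he' hne
    obtain ⟨-, x, hx, rfl⟩ := hGd j e he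
    obtain ⟨-, y, hy, rfl⟩ := hGd j e' he'
    rw [enL_inl, enL_inl, disjoint_singleton]
    intro hc
    exact hne (congrArg Sum.inl (h.g1 x hx y hy hc))
  · intro j e he e' he' hne
    obtain ⟨-, x, hx, rfl⟩ := hGd j e he
    obtain ⟨-, y, hy, rfl⟩ := hGd j e' he'
    exact congrArg Sum.inl (h.gp x hx y hy hne)
  · intro j y
    cases j
    · simp only [Bool.false_eq_true, if_false]
      refine le_trans ?_ (h.key y)
      rw [filter_image]
      refine card_image_le.trans (card_le_card fun x hx => ?_)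
      rw [mem_filter] at hx ⊢
      refine ⟨hx.1, ?_⟩
      obtain ⟨u, hu, hu2⟩ := hx.2
      rw [mem_enL_inl] at hu
      subst hu
      rw [hvs] at hu2
      exact hu2
    · simp
  · intro e0 _ C1 C2 l
    simp only [Bool.false_eq_true, if_false]
    refine lt_of_lt_of_le (h.test C1 C2 l) ?_
    rw [← card_image_of_injective _ (Sum.inl_injective (α := X) (β := {e // e ∈ E}))]
    refine card_le_card fun e he => ?_
    obtain ⟨x, hx, rfl⟩ := mem_image.1 he
    rw [mem_filter] at hx ⊢
    refine ⟨mem_image_of_mem _ hx.1, hx.2.1, hx.2.2.1, ?_⟩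
    intro u hu
    rw [mem_enL_inl] at hu
    subst hu
    rw [hvs]
    exact hx.2.2.2

/-- **End of the proof.** Repair, then all sums are distinct and greater than the leaf labels. -/
theorem Lay.iam (h : Lay E own lam g Rg SEH l0 l1 Gd T s0 bb B) :
    ∃ (lam' : X → ℕ) (g' : Sym2 W → ℕ), IsIAM own E lam' g' := by
  classical
  obtain ⟨σ, hinj, hout, hse, hgd, hfx⟩ := repair3 h.rep
  set f := fL E lam g with hf
  have hGdm : ∀ e, e ∈ (fun j : Bool => if j then (∅ : Finset (X ⊕ {e // e ∈ E})) else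
      Gd.image Sum.inl) false ↔ ∃ x ∈ Gd, e = Sum.inl x := by
    intro e
    simp only [Bool.false_eq_true, if_false, mem_image]
    constructor
    · rintro ⟨x, hx, rfl⟩
      exact ⟨x, hx, rfl⟩
    · rintro ⟨x, hx, rfl⟩
      exact ⟨x, hx, rfl⟩
  have hGdt : ∀ j, ∀ e, e ∈ (fun j : Bool => if j then (∅ : Finset (X ⊕ {e // e ∈ E})) else
      Gd.image Sum.inl) j → ∃ x ∈ Gd, e = Sum.inl x := by
    intro j e he
    cases j
    · exact (hGdm e).1 he
    · simp at he
  have hSEm : ∀ e, e ∈ ((univ.filter fun e : {e // e ∈ E} => e.1 ∈ SEH).image Sum.inr ∪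
      (FXl E own Rg l0 l1).image Sum.inl : Finset (X ⊕ {e // e ∈ E})) ↔
      (∃ e' : {e // e ∈ E}, e'.1 ∈ SEH ∧ e = Sum.inr e') ∨
        ∃ x ∈ FXl E own Rg l0 l1, e = Sum.inl x := by
    intro e
    rw [mem_union, mem_image, mem_image]
    constructor
    · rintro (⟨e', he', rfl⟩ | ⟨x, hx, rfl⟩)
      · exact Or.inl ⟨e', (mem_filter.1 he').2, rfl⟩
      · exact Or.inr ⟨x, hx, rfl⟩
    · rintro (⟨e', he', rfl⟩ | ⟨x, hx, rfl⟩)
      · exact Or.inl ⟨e', mem_filter.2 ⟨mem_univ _, he'⟩, rfl⟩
      · exact Or.inr ⟨x, hx, rfl⟩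
  -- injectivity of the labels
  have hfinj : Function.Injective f := by
    rintro (x | e) (y | e') hxy
    · exact congrArg Sum.inl (h.lam_inj hxy)
    · exfalso
      have h1 := (h.lam_mem x).2
      have h2 := (h.g_mem e'.1 e'.2).1
      change lam x = g e'.1 at hxy
      omega
    · exfalso
      have h1 := (h.lam_mem y).2
      have h2 := (h.g_mem e.1 e.2).1
      change g e.1 = lam y at hxy
      omega
    · exact congrArg Sum.inr (Subtype.ext (h.g_inj e.2 e'.2 hxy))
  set F : X ⊕ {e // e ∈ E} → ℕ := f ∘ σ with hF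
  have hFinj : Function.Injective F := hfinj.comp σ.injective
  have hfm : ∀ e, 1 ≤ f e ∧ f e ≤ Fintype.card X + E.card := by
    rintro (x | e)
    · have := h.lam_mem x
      exact ⟨this.1, this.2.trans (Nat.le_add_right _ _)⟩
    · have := h.g_mem e.1 e.2
      exact ⟨by change 1 ≤ g e.1; omega, this.2⟩
  set lam' : X → ℕ := fun x => F (Sum.inl x) with hlam'
  set g' : Sym2 W → ℕ := fun e => if he : e ∈ E then F (Sum.inr ⟨e, he⟩) else 0 with hg'
  have hg'e : ∀ e : {e // e ∈ E}, g' e.1 = F (Sum.inr e) := by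
    intro e
    rw [hg']
    simp only
    rw [dif_pos e.2]
  have hws : ∀ w, wsum own E lam' g' w = ∑ e ∈ univ.filter (fun e => w ∈ enL own E e), F e :=
    fun w => (isum_eq F lam' g' (fun _ => rfl) hg'e w).symm
  have hws0 : ∀ w, wsum own E lam g w = ∑ e ∈ univ.filter (fun e => w ∈ enL own E e), f e :=
    fun w => (isum_eq f lam g (fun _ => rfl) (fun _ => rfl) w).symm
  -- labels of leaves
  have hSEle : ∀ e, e ∈ ((univ.filter fun e : {e // e ∈ E} => e.1 ∈ SEH).image Sum.inr ∪
      (FXl E own Rg l0 l1).image Sum.inl : Finset (X ⊕ {e // e ∈ E})) →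
      f e ≤ Fintype.card X + s0 := by
    intro e he
    rcases (hSEm e).1 he with ⟨e', he', rfl⟩ | ⟨x, hx, rfl⟩
    · exact h.seS _ he'
    · exact (h.lam_mem x).2.trans (Nat.le_add_right _ _)
  have hleaf : ∀ x, lam' x ≤ Fintype.card X + s0 := by
    intro x
    change f (σ (Sum.inl x)) ≤ _
    have hG : ∀ e, (∃ y ∈ Gd, e = Sum.inl y) → f e ≤ Fintype.card X + s0 := by
      rintro e ⟨y, -, rfl⟩
      exact (h.lam_mem y).2.trans (Nat.le_add_right _ _)
    have hx0 : f (Sum.inl x) ≤ Fintype.card X + s0 :=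
      (h.lam_mem x).2.trans (Nat.le_add_right _ _)
    by_cases h1 : x ∈ Gd
    · have h2 := hgd false (Sum.inl x) ((hGdm _).2 ⟨x, h1, rfl⟩)
      rcases h2 with h2 | ⟨h2, -⟩ | h2
      · rw [h2]; exact hx0
      · exact hSEle _ h2
      · exact hG _ ((hGdm _).1 h2)
    · by_cases h2 : x ∈ FXl E own Rg l0 l1
      · exact hG _ ((hGdm _).1 (hfx (Sum.inl x) (mem_image_of_mem _ h2)))
      · rw [hout (Sum.inl x) (fun hc => ?_) (fun j hc => ?_)]
        · exact hx0
        · rcases (hSEm _).1 hc with ⟨e', -, h3⟩ | ⟨y, hy, h3⟩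
          · exact absurd h3 (by simp)
          · exact h2 (Sum.inl_injective h3 ▸ hy)
        · obtain ⟨y, hy, h3⟩ := hGdt j _ hc
          exact h1 (Sum.inl_injective h3 ▸ hy)
  -- labels of edges
  have hedge : ∀ e : {e // e ∈ E}, Fintype.card X + s0 < 2 * F (Sum.inr e) := by
    intro e
    change _ < 2 * f (σ (Sum.inr e))
    have h0 : Fintype.card X + s0 < 2 * f (Sum.inr e) := by
      have h1 := (h.g_mem e.1 e.2).1
      have h2 := h.s0a
      change _ < 2 * g e.1
      omega
    by_cases h1 : e.1 ∈ SEH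
    · rcases hse (Sum.inr e) ((hSEm _).2 (Or.inl ⟨e, h1, rfl⟩)) with h2 | h2
      · rw [h2]; exact h0
      · obtain ⟨y, hy, h3⟩ := (hGdm _).1 h2
        rw [h3]
        exact h.gL y hy
    · rw [hout (Sum.inr e) (fun hc => ?_) (fun j hc => ?_)]
      · exact h0
      · rcases (hSEm _).1 hc with ⟨e', he', h3⟩ | ⟨y, hy, h3⟩
        · exact h1 (Sum.inr_injective h3 ▸ he')
        · exact absurd h3 (by simp)
      · obtain ⟨y, hy, h3⟩ := hGdt j _ hc
        exact absurd h3 (by simp)
  have hforced : ∀ x ∈ FXl E own Rg l0 l1, Fintype.card X + s0 < 2 * F (Sum.inl x) := by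
    intro x hx
    obtain ⟨y, hy, h3⟩ := (hGdm _).1 (hfx (Sum.inl x) (mem_image_of_mem _ hx))
    change _ < 2 * f (σ (Sum.inl x))
    rw [h3]
    exact h.gL y hy
  -- two different edges at a vertex
  have htwo : ∀ w e1 e2, e1 ≠ e2 → w ∈ enL own E e1 → w ∈ enL own E e2 →
      F e1 + F e2 ≤ wsum own E lam' g' w := by
    intro w e1 e2 hne h1 h2
    rw [hws, ← sum_pair hne]
    refine sum_le_sum_of_subset fun e he => ?_
    rw [mem_filter]
    refine ⟨mem_univ _, ?_⟩
    rw [mem_insert, mem_singleton] at he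
    rcases he with rfl | rfl
    · exact h1
    · exact h2
  have hone : ∀ w e1, w ∈ enL own E e1 → F e1 ≤ wsum own E lam' g' w := by
    intro w e1 h1
    rw [hws]
    exact single_le_sum (f := F) (fun _ _ => Nat.zero_le _) (mem_filter.2 ⟨mem_univ _, h1⟩)
  -- the sums are big
  have hbig : ∀ w, Fintype.card X + s0 < wsum own E lam' g' w := by
    intro w
    by_cases hw : w ∈ Rg
    · by_cases hE : (edgesAt E w).Nonempty
      · obtain ⟨e, he, heS, heg⟩ := h.rbig w hw hE
        have he' : e ∈ E ∧ w ∈ e := mem_filter.1 he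
        have h1 : F (Sum.inr ⟨e, he'.1⟩) = g e := by
          change f (σ (Sum.inr ⟨e, he'.1⟩)) = g e
          rw [hout (Sum.inr ⟨e, he'.1⟩) (fun hc => ?_) (fun j hc => ?_)]
          · rfl
          · rcases (hSEm _).1 hc with ⟨e', he', h3⟩ | ⟨y, hy, h3⟩
            · exact heS (by rw [← Sum.inr_injective h3] at he'; exact he')
            · exact absurd h3 (by simp)
          · obtain ⟨y, hy, h3⟩ := hGdt j _ hc
            exact absurd h3 (by simp)
        have h2 := hone w (Sum.inr ⟨e, he'.1⟩) (mem_enL_inr.2 he'.2)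
        omega
      · rw [not_nonempty_iff_eq_empty] at hE
        have hnoE : ∀ e : {e // e ∈ E}, w ∉ e.1 := by
          intro e he
          have : e.1 ∈ edgesAt E w := mem_filter.2 ⟨e.2, he⟩
          rw [hE] at this
          exact absurd this (notMem_empty _)
        by_cases hG : ∃ x ∈ Gd, own x = w
        · obtain ⟨x, hx, hxw⟩ := hG
          have h1 := h.gst x hx (hxw ▸ hE)
          rw [hxw] at h1
          have h2 : ∀ e ∈ (univ.filter (fun e => w ∈ enL own E e)).erase (Sum.inl x),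
              F e = f e := by
            intro e he
            rw [mem_erase, mem_filter] at he
            rcases e with y | e
            · have hy : own y = w := mem_enL_inl.1 he.2.2
              have hyx : y ≠ x := fun hc => he.1 (congrArg Sum.inl hc)
              change f (σ (Sum.inl y)) = _
              rw [hout (Sum.inl y) (fun hc => ?_) (fun j hc => ?_)]
              · rcases (hSEm _).1 hc with ⟨e', -, h3⟩ | ⟨z, hz, h3⟩
                · exact absurd h3 (by simp)
                · have h4 := h.FXl_own hz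
                  rw [← Sum.inl_injective h3, hy] at h4
                  exact h4 hw
              · obtain ⟨z, hz, h3⟩ := hGdt j _ hc
                have h4 : y = z := Sum.inl_injective h3
                subst h4
                exact hyx (h.g1 y hz x hx (hy.trans hxw.symm))
            · exact absurd (mem_enL_inr.1 he.2.2) (hnoE e)
          have hxm : (Sum.inl x : X ⊕ {e // e ∈ E}) ∈ univ.filter (fun e => w ∈ enL own E e) :=
            mem_filter.2 ⟨mem_univ _, mem_enL_inl.2 hxw⟩
          have h3 : f (Sum.inl x) = lam x := rfl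
          have h4 := add_sum_erase _ f hxm
          have h5 := add_sum_erase _ F hxm
          have h6 : ∑ e ∈ (univ.filter (fun e => w ∈ enL own E e)).erase (Sum.inl x), F e =
              ∑ e ∈ (univ.filter (fun e => w ∈ enL own E e)).erase (Sum.inl x), f e :=
            sum_congr rfl h2
          rw [← hws0] at h4
          rw [← hws] at h5
          omega
        · have h2 : ∀ e ∈ univ.filter (fun e => w ∈ enL own E e), F e = f e := by
            intro e he
            rw [mem_filter] at he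
            rcases e with y | e
            · have hy : own y = w := mem_enL_inl.1 he.2
              change f (σ (Sum.inl y)) = _
              rw [hout (Sum.inl y) (fun hc => ?_) (fun j hc => ?_)]
              · rcases (hSEm _).1 hc with ⟨e', -, h3⟩ | ⟨z, hz, h3⟩
                · exact absurd h3 (by simp)
                · have h4 := h.FXl_own hz
                  rw [← Sum.inl_injective h3, hy] at h4
                  exact h4 hw
              · obtain ⟨z, hz, h3⟩ := hGdt j _ hc
                have h4 : y = z := Sum.inl_injective h3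
                subst h4
                exact hG ⟨y, hz, hy⟩
            · exact absurd (mem_enL_inr.1 he.2) (hnoE e)
          rw [hws, sum_congr rfl h2, ← hws0]
          exact h.rstar w hw hE
    · by_cases hl : (leavesAt own w).Nonempty
      · have hl0 : own (l0 w) = w := h.l0m w hw hl
        have hf0 : l0 w ∈ FXl E own Rg l0 l1 :=
          mem_union_left _ (mem_image_of_mem _ (mem_filter.2 ⟨mem_univ _, hw, hl⟩))
        have h1 := hforced _ hf0
        by_cases hE : (edgesAt E w).Nonempty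
        · obtain ⟨e, he⟩ := hE
          have he' : e ∈ E ∧ w ∈ e := mem_filter.1 he
          have h2 := hedge ⟨e, he'.1⟩
          have h3 := htwo w (Sum.inl (l0 w)) (Sum.inr ⟨e, he'.1⟩) (by simp)
            (mem_enL_inl.2 hl0) (mem_enL_inr.2 he'.2)
          omega
        · rw [not_nonempty_iff_eq_empty] at hE
          obtain ⟨hl1, hne⟩ := h.l1m w hw hE
          have hf1 : l1 w ∈ FXl E own Rg l0 l1 :=
            mem_union_right _ (mem_image_of_mem _ (mem_filter.2 ⟨mem_univ _, hw, hE⟩))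
          have h2 := hforced _ hf1
          have h3 := htwo w (Sum.inl (l0 w)) (Sum.inl (l1 w))
            (fun hc => hne (Sum.inl_injective hc).symm)
            (mem_enL_inl.2 hl0) (mem_enL_inl.2 hl1)
          omega
      · rw [not_nonempty_iff_eq_empty] at hl
        have h1 : 1 < (edgesAt E w).card := by
          have := h.deg2 w
          rw [hl, card_empty] at this
          omega
        obtain ⟨e1, he1, e2, he2, hne⟩ := one_lt_card.1 h1
        have he1' : e1 ∈ E ∧ w ∈ e1 := mem_filter.1 he1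
        have he2' : e2 ∈ E ∧ w ∈ e2 := mem_filter.1 he2
        have h2 := hedge ⟨e1, he1'.1⟩
        have h3 := hedge ⟨e2, he2'.1⟩
        have h4 := htwo w (Sum.inr ⟨e1, he1'.1⟩) (Sum.inr ⟨e2, he2'.1⟩)
          (fun hc => hne (congrArg Subtype.val (Sum.inr_injective hc)))
          (mem_enL_inr.2 he1'.2) (mem_enL_inr.2 he2'.2)
        omega
  refine ⟨lam', g', ?_, ?_, ?_, ?_, ?_, ?_, ?_⟩
  · intro x
    exact hfm _
  · intro e he
    rw [hg'e ⟨e, he⟩]
    exact hfm _
  · intro x y hxy
    exact Sum.inl_injective (hFinj hxy)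
  · intro e he e' he' hxy
    rw [mem_coe] at he he'
    rw [hg'e ⟨e, he⟩, hg'e ⟨e', he'⟩] at hxy
    exact congrArg Subtype.val (Sum.inr_injective (hFinj hxy))
  · intro x e he hxy
    rw [hg'e ⟨e, he⟩] at hxy
    exact absurd (hFinj hxy) (by simp)
  · intro v w hvw
    by_contra hne
    have h1 : vsum (enL own E) (0 : W → ZMod p) (f ∘ σ) v =
        vsum (enL own E) (0 : W → ZMod p) (f ∘ σ) w := by
      rw [vsum_eqL (f ∘ σ) lam' g' (fun _ => rfl) hg'e, vsum_eqL (f ∘ σ) lam' g' (fun _ => rfl) hg'e]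
      unfold wz
      rw [hvw]
    obtain ⟨hv, hw, hold, hfv, hfw⟩ := hinj v w hne h1
    have h2 : ∀ u, (∀ e, u ∈ enL own E e → σ e = e) →
        wsum own E lam' g' u = wsum own E lam g u := by
      intro u hu
      rw [hws, hws0]
      refine sum_congr rfl fun e he => ?_
      change f (σ e) = f e
      rw [hu e (mem_filter.1 he).2]
    rw [h2 v hfv, h2 w hfw] at hvw
    rw [vsum_eqL f lam g (fun _ => rfl) (fun _ => rfl),
      vsum_eqL f lam g (fun _ => rfl) (fun _ => rfl)] at hold
    refine hne (h.sinj v hv w hw ?_ hold)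
    rw [← hvw]
    constructor
    · rintro ⟨h3, h4⟩
      refine ⟨?_, h4⟩
      by_contra h5
      rw [not_nonempty_iff_eq_empty] at h5
      have := h.rD w hw h5
      omega
    · rintro ⟨h3, h4⟩
      refine ⟨?_, h4⟩
      by_contra h5
      rw [not_nonempty_iff_eq_empty] at h5
      have := h.rD v hv h5
      omega
  · intro x w
    exact lt_of_le_of_lt (hleaf x) (hbig w)

end Pool.Agent.AML
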