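import Pool.Agent.AML.Prep
import Pool.Agent.AML.FinL
import Pool.Agent.AMH.PTG

/-!
# Completion
-/

set_option autoImplicit false
set_option linter.unusedSectionVars false
set_option linter.unusedVariables false

namespace Pool.Agent.AML

open Finset Pool.Agent.AMF
open Pool.Agent.AMH (Kn PSG Pools OutG VdG PTG)

section

variable {W X : Type} [Fintype W] [DecidableEq W] [Fintype X] [DecidableEq X]

/-- the slots -/
abbrev Fin_F (D : PrepD W X) : Type := {e // e ∈ D.FK} ⊕ {x // D.kl x ≠ none}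

/-- the regular vertices -/
abbrev Fin_W (D : PrepD W X) : Type := {w // w ∈ D.Rg}

/-- kinds -/
def Fin_kd (D : PrepD W X) : Fin_F D → Kn
  | Sum.inl _ => 0
  | Sum.inr x => (D.kl x.1).getD 1

/-- regular ends -/
def Fin_en (own : X → W) (D : PrepD W X) : Fin_F D → Finset (Fin_W D)
  | Sum.inl e => univ.filter fun w => w.1 ∈ e.1
  | Sum.inr x => univ.filter fun w => own x.1 = w.1

/-- part of a vertex -/
def Fin_pw (E : Finset (Sym2 W)) (D : PrepD W X) (w : W) : ℕ ⊕ W :=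
  if edgesAt E w = ∅ then Sum.inr w else Sum.inl (D.vp w)

/-- part of a slot -/
def Fin_pf (E : Finset (Sym2 W)) (own : X → W) (D : PrepD W X) : Fin_F D → ℕ ⊕ W
  | Sum.inl e => Sum.inl (D.pt e.1)
  | Sum.inr x => Fin_pw E D (own x.1)

/-- parts -/
abbrev Fin_I (E : Finset (Sym2 W)) (own : X → W) (D : PrepD W X) : Type :=
  {i // i ∈ univ.image (Fin_pf E own D)}

/-- leaf slots at `w` -/
def Fin_LS (own : X → W) (D : PrepD W X) (w : W) : Finset X :=
  (leavesAt own w).filter fun x => D.kl x ≠ none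

variable {E : Finset (Sym2 W)} {own : X → W} {D : PrepD W X} {k B : ℕ} {d β C θ : ℝ}

theorem Fin_mem_leavesAt {w : W} {x : X} : x ∈ leavesAt own w ↔ own x = w := by
  simp [leavesAt]

theorem Fin_mem_edgesAt {w : W} {e : Sym2 W} : e ∈ edgesAt E w ↔ e ∈ E ∧ w ∈ e := by
  simp [edgesAt]

theorem Fin_mem_sl {w : W} {e : Sym2 W} : e ∈ D.sl w ↔ e ∈ D.FK ∧ w ∈ e := by
  simp [PrepD.sl]

theorem Fin_mem_LS {w : W} {x : X} : x ∈ Fin_LS own D w ↔ own x = w ∧ D.kl x ≠ none := by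
  simp [Fin_LS, leavesAt]

/-- hypotheses of the module -/
structure Fin_H (E : Finset (Sym2 W)) (own : X → W) (D : PrepD W X) (k B : ℕ) (d β C θ : ℝ) :
    Prop where
  ok : D.Ok E own k B d β C θ
  deg2 : ∀ w, 2 ≤ (leavesAt own w).card + (edgesAt E w).card
  st3 : ∀ w, edgesAt E w = ∅ → 3 ≤ (leavesAt own w).card
  nl : ∀ e ∈ E, ¬ e.IsDiag

theorem Fin_H.edge (h : Fin_H E own D k B d β C θ) {w : W} {e : Sym2 W} (he : e ∈ D.FK)
    (hw : w ∈ e) : (edgesAt E w).Nonempty :=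
  ⟨e, Fin_mem_edgesAt.2 ⟨h.ok.fkE he, hw⟩⟩

theorem Fin_H.own_Rg (h : Fin_H E own D k B d β C θ) {x : X} (hx : D.kl x ≠ none) :
    own x ∈ D.Rg := by
  by_contra hc
  exact hx (h.ok.kl_irr x hc)

/-- leaf slots at vertices with edges and leaves -/
theorem Fin_H.ls_edge (h : Fin_H E own D k B d β C θ) {w : W} (hw : w ∈ D.Rg)
    (he : (edgesAt E w).Nonempty) (hl : (leavesAt own w).Nonempty) :
    ∃ x, Fin_LS own D w = {x} ∧ D.kl x = some 1 := by
  obtain ⟨x, hx, hk⟩ := h.ok.kl_one w hw he hl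
  refine ⟨x, ?_, hk⟩
  rw [← hx, Fin_LS]

theorem Fin_H.ls_leafless {w : W} (hl : leavesAt own w = ∅) : Fin_LS own D w = ∅ := by
  rw [Fin_LS, hl, filter_empty]

theorem Fin_H.ls_s3 (h : Fin_H E own D k B d β C θ) {w : W}
    (he : edgesAt E w = ∅) (hl : (leavesAt own w).card = 3) :
    ∃ x y z, leavesAt own w = {x, y, z} ∧ Fin_LS own D w = {x, y, z} ∧ D.kl x = some 2 ∧
      D.kl y = some 3 ∧ D.kl z = some 4 := by
  obtain ⟨x, y, z, h1, hx, hy, hz⟩ := h.ok.kl_s3 w he hl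
  refine ⟨x, y, z, h1, ?_, hx, hy, hz⟩
  rw [Fin_LS, h1]
  refine filter_true_of_mem ?_
  intro t ht
  simp only [mem_insert, mem_singleton] at ht
  rcases ht with rfl | rfl | rfl
  · rw [hx]; simp
  · rw [hy]; simp
  · rw [hz]; simp

theorem Fin_H.ls_s4 (h : Fin_H E own D k B d β C θ) {w : W}
    (he : edgesAt E w = ∅) (hl : 4 ≤ (leavesAt own w).card) :
    ∃ x y z u, Fin_LS own D w = {x, y, z, u} ∧ (Fin_LS own D w).card = 4 ∧ D.kl x = some 1 ∧
      D.kl y = some 1 ∧ D.kl z = some 1 ∧ D.kl u = some 5 := by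
  obtain ⟨x, y, z, u, h1, h2, hx, hy, hz, hu⟩ := h.ok.kl_s4 w he hl
  refine ⟨x, y, z, u, ?_, ?_, hx, hy, hz, hu⟩
  · rw [← h1, Fin_LS]
  · rw [← h2, Fin_LS]

/-- every regular vertex with leaves has a leaf slot of kind `1` or `2` -/
theorem Fin_H.ls_ne (h : Fin_H E own D k B d β C θ) {w : W} (hw : w ∈ D.Rg)
    (hl : (leavesAt own w).Nonempty) :
    ∃ x ∈ Fin_LS own D w, D.kl x = some 1 ∨ D.kl x = some 2 := by
  rcases (edgesAt E w).eq_empty_or_nonempty with he | he
  · rcases (h.st3 w he).lt_or_eq with h4 | h3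
    · obtain ⟨x, y, z, u, h1, -, hx, -⟩ := h.ls_s4 he h4
      exact ⟨x, by rw [h1]; simp, Or.inl hx⟩
    · obtain ⟨x, y, z, -, h1, hx, -⟩ := h.ls_s3 he h3.symm
      exact ⟨x, by rw [h1]; simp, Or.inr hx⟩
  · obtain ⟨x, h1, hx⟩ := h.ls_edge hw he hl
    exact ⟨x, by rw [h1]; simp, Or.inl hx⟩

theorem Fin_H.ls_card (h : Fin_H E own D k B d β C θ) {w : W} (hw : w ∈ D.Rg) :
    (Fin_LS own D w).card ≤ 4 := by
  rcases (edgesAt E w).eq_empty_or_nonempty with he | he
  · rcases (h.st3 w he).lt_or_eq with h4 | h3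
    · obtain ⟨x, y, z, u, h1, h2, -⟩ := h.ls_s4 he h4
      exact h2.le
    · refine (card_filter_le _ _).trans ?_
      omega
  · rcases (leavesAt own w).eq_empty_or_nonempty with hl | hl
    · rw [Fin_H.ls_leafless hl]; simp
    · obtain ⟨x, h1, hx⟩ := h.ls_edge hw he hl
      rw [h1]; simp

/-- every regular vertex has a slot -/
theorem Fin_H.vp_mem (h : Fin_H E own D k B d β C θ) (w : Fin_W D) :
    Fin_pw E D w.1 ∈ univ.image (Fin_pf E own D) := by
  rcases (edgesAt E w.1).eq_empty_or_nonempty with he | he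
  · have hl : (leavesAt own w.1).Nonempty := by
      rw [← card_pos]
      have := h.st3 w.1 he
      omega
    obtain ⟨x, hx, -⟩ := h.ls_ne w.2 hl
    obtain ⟨h1, h2⟩ := Fin_mem_LS.1 hx
    exact mem_image.2 ⟨Sum.inr ⟨x, h2⟩, mem_univ _, by simp only [Fin_pf, h1]⟩
  · obtain ⟨e, hs⟩ := h.ok.has_slot w.1 w.2 he
    obtain ⟨h1, h2⟩ := Fin_mem_sl.1 hs
    refine mem_image.2 ⟨Sum.inl ⟨e, h1⟩, mem_univ _, ?_⟩
    simp only [Fin_pf, Fin_pw]
    rw [if_neg he.ne_empty, h.ok.vp_eq e h1 w.1 h2 w.2]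

/-- the offset as a natural number -/
def Fin_cr (E : Finset (Sym2 W)) (own : X → W) (D : PrepD W X) (w : W) : ℕ :=
  ∑ x ∈ (leavesAt own w).filter (fun x => D.kl x = none), D.lam0 x +
    ∑ e ∈ (edgesAt E w).filter (fun e => e ∉ D.FK), D.g0 e

/-- the part system -/
def Fin_H.S (h : Fin_H E own D k B d β C θ) :
    PSG (Fin_F D) (Fin_W D) (Fin_I E own D) D.p where
  kd := Fin_kd D
  en := Fin_en own D
  pt f := ⟨Fin_pf E own D f, mem_image_of_mem _ (mem_univ _)⟩
  vp w := ⟨Fin_pw E D w.1, h.vp_mem w⟩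
  c w := D.c own E w.1
  zt := univ.filter fun w => (D.sl w.1).card = 1 ∧ (leavesAt own w.1).card = 1 ∧
    edgesAt E w.1 ⊆ D.FK
  lowv := univ.filter fun w => (leavesAt own w.1).Nonempty ∧ (edgesAt E w.1).card ≤ 1
  cr w := Fin_cr E own D w.1

theorem Fin_H.mem_slots_inl (h : Fin_H E own D k B d β C θ) {w : Fin_W D} {e : {e // e ∈ D.FK}} :
    Sum.inl e ∈ h.S.slots w ↔ w.1 ∈ e.1 := by
  simp [PSG.slots, Fin_H.S, Fin_en]

theorem Fin_H.mem_slots_inr (h : Fin_H E own D k B d β C θ) {w : Fin_W D}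
    {x : {x // D.kl x ≠ none}} : Sum.inr x ∈ h.S.slots w ↔ own x.1 = w.1 := by
  simp [PSG.slots, Fin_H.S, Fin_en]

theorem Fin_H.mem_en_inl (h : Fin_H E own D k B d β C θ) {w : Fin_W D} {e : {e // e ∈ D.FK}} :
    w ∈ h.S.en (Sum.inl e) ↔ w.1 ∈ e.1 := by
  simp [Fin_H.S, Fin_en]

theorem Fin_H.mem_en_inr (h : Fin_H E own D k B d β C θ) {w : Fin_W D}
    {x : {x // D.kl x ≠ none}} : w ∈ h.S.en (Sum.inr x) ↔ own x.1 = w.1 := by
  simp [Fin_H.S, Fin_en]

theorem Fin_H.slots_sum (h : Fin_H E own D k B d β C θ) {M : Type} [AddCommMonoid M]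
    (w : Fin_W D) (φ : Fin_F D → M) (u : X → M) (v : Sym2 W → M)
    (hu : ∀ x : {x // D.kl x ≠ none}, own x.1 = w.1 → φ (Sum.inr x) = u x.1)
    (hv : ∀ e : {e // e ∈ D.FK}, w.1 ∈ e.1 → φ (Sum.inl e) = v e.1) :
    ∑ f ∈ h.S.slots w, φ f = ∑ x ∈ Fin_LS own D w.1, u x + ∑ e ∈ D.sl w.1, v e := by
  have h1 : ∑ f ∈ h.S.slots w, φ f = ∑ f : Fin_F D, if f ∈ h.S.slots w then φ f else 0 := by
    rw [← sum_filter]
    congr 1
    ext f
    simp
  rw [h1, Fintype.sum_sum_type, add_comm]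
  congr 1
  · have h2 : ∀ x : {x // D.kl x ≠ none}, (if Sum.inr x ∈ h.S.slots w then φ (Sum.inr x) else 0) =
        (fun y : X => if own y = w.1 then u y else 0) x.1 := by
      intro x
      by_cases hx : own x.1 = w.1
      · rw [if_pos (h.mem_slots_inr.2 hx)]
        simp only [hx, if_true]
        exact hu x hx
      · rw [if_neg (fun hc => hx (h.mem_slots_inr.1 hc))]
        simp only [hx, if_false]
    rw [sum_congr rfl fun x _ => h2 x, ← sum_subtype (univ.filter fun x => D.kl x ≠ none)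
      (fun x => by simp) (fun y : X => if own y = w.1 then u y else 0), ← sum_filter]
    refine sum_congr ?_ fun _ _ => rfl
    ext x
    simp only [mem_filter, mem_univ, true_and, Fin_mem_LS]
    tauto
  · have h2 : ∀ e : {e // e ∈ D.FK}, (if Sum.inl e ∈ h.S.slots w then φ (Sum.inl e) else 0) =
        (fun y : Sym2 W => if w.1 ∈ y then v y else 0) e.1 := by
      intro e
      by_cases hx : w.1 ∈ e.1
      · rw [if_pos (h.mem_slots_inl.2 hx)]
        simp only [hx, if_true]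
        exact hv e hx
      · rw [if_neg (fun hc => hx (h.mem_slots_inl.1 hc))]
        simp only [hx, if_false]
    rw [sum_congr rfl fun x _ => h2 x, sum_coe_sort D.FK (fun y : Sym2 W => if w.1 ∈ y then v y else 0),
      ← sum_filter]
    rfl

theorem Fin_H.slots_card (h : Fin_H E own D k B d β C θ) (w : Fin_W D) :
    (h.S.slots w).card = (Fin_LS own D w.1).card + (D.sl w.1).card := by
  have := h.slots_sum w (fun _ => 1) (fun _ => 1) (fun _ => 1) (fun _ _ => rfl) (fun _ _ => rfl)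
  simpa using this

theorem Fin_H.kl_val (h : Fin_H E own D k B d β C θ) {w : W} {x : X} (hx : x ∈ Fin_LS own D w) :
    ((edgesAt E w).Nonempty ∧ D.kl x = some 1) ∨
    (edgesAt E w = ∅ ∧ (leavesAt own w).card = 3 ∧
      (D.kl x = some 2 ∨ D.kl x = some 3 ∨ D.kl x = some 4)) ∨
    (edgesAt E w = ∅ ∧ 4 ≤ (leavesAt own w).card ∧ (D.kl x = some 1 ∨ D.kl x = some 5)) := by
  obtain ⟨h1, h2⟩ := Fin_mem_LS.1 hx
  have hR : w ∈ D.Rg := h1 ▸ h.own_Rg h2
  have hl : (leavesAt own w).Nonempty := ⟨x, Fin_mem_leavesAt.2 h1⟩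
  rcases (edgesAt E w).eq_empty_or_nonempty with he | he
  · rcases (h.st3 w he).lt_or_eq with h4 | h3
    · obtain ⟨a, b, c, u, h5, -, ha, hb, hc, hu⟩ := h.ls_s4 he h4
      rw [h5] at hx
      simp only [mem_insert, mem_singleton] at hx
      right; right
      refine ⟨he, h4, ?_⟩
      rcases hx with rfl | rfl | rfl | rfl
      · exact Or.inl ha
      · exact Or.inl hb
      · exact Or.inl hc
      · exact Or.inr hu
    · obtain ⟨a, b, c, -, h5, ha, hb, hc⟩ := h.ls_s3 he h3.symm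
      rw [h5] at hx
      simp only [mem_insert, mem_singleton] at hx
      right; left
      refine ⟨he, h3.symm, ?_⟩
      rcases hx with rfl | rfl | rfl
      · exact Or.inl ha
      · exact Or.inr (Or.inl hb)
      · exact Or.inr (Or.inr hc)
  · obtain ⟨a, h5, ha⟩ := h.ls_edge hR he hl
    rw [h5, mem_singleton] at hx
    exact Or.inl ⟨he, hx ▸ ha⟩

theorem Fin_kd_inr {x : {x // D.kl x ≠ none}} {j : Kn} (hx : D.kl x.1 = some j) :
    Fin_kd D (Sum.inr x) = j := by
  simp [Fin_kd, hx]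

theorem Fin_H.kd_inl (h : Fin_H E own D k B d β C θ) (e : {e // e ∈ D.FK}) :
    h.S.kd (Sum.inl e) = 0 := rfl

theorem Fin_H.kd_inr (h : Fin_H E own D k B d β C θ) {x : {x // D.kl x ≠ none}} {j : Kn}
    (hx : D.kl x.1 = some j) : h.S.kd (Sum.inr x) = j := Fin_kd_inr hx

/-- kinds of the leaf slots -/
theorem Fin_H.kd_val (h : Fin_H E own D k B d β C θ) (x : {x // D.kl x ≠ none}) :
    ((edgesAt E (own x.1)).Nonempty ∧ h.S.kd (Sum.inr x) = 1) ∨
    (edgesAt E (own x.1) = ∅ ∧ (leavesAt own (own x.1)).card = 3 ∧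
      (h.S.kd (Sum.inr x) = 2 ∨ h.S.kd (Sum.inr x) = 3 ∨ h.S.kd (Sum.inr x) = 4)) ∨
    (edgesAt E (own x.1) = ∅ ∧ 4 ≤ (leavesAt own (own x.1)).card ∧
      (h.S.kd (Sum.inr x) = 1 ∨ h.S.kd (Sum.inr x) = 5)) := by
  rcases h.kl_val (Fin_mem_LS.2 ⟨rfl, x.2⟩) with ⟨h1, h2⟩ | ⟨h1, h2, h3⟩ | ⟨h1, h2, h3⟩
  · exact Or.inl ⟨h1, h.kd_inr h2⟩
  · right; left
    exact ⟨h1, h2, h3.imp (fun t => h.kd_inr t)
      (fun t => t.imp (fun t => h.kd_inr t) (fun t => h.kd_inr t))⟩
  · right; right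
    exact ⟨h1, h2, h3.imp (fun t => h.kd_inr t) (fun t => h.kd_inr t)⟩

theorem Fin_H.kd_ne (h : Fin_H E own D k B d β C θ) (x : {x // D.kl x ≠ none}) :
    h.S.kd (Sum.inr x) ≠ 0 := by
  rcases h.kd_val x with ⟨h1, h2⟩ | ⟨h1, h2, h3 | h3 | h3⟩ | ⟨h1, h2, h3 | h3⟩
  · rw [h2]; decide
  · rw [h3]; decide
  · rw [h3]; decide
  · rw [h3]; decide
  · rw [h3]; decide
  · rw [h3]; decide

theorem Fin_H.high_card (h : Fin_H E own D k B d β C θ) (w : Fin_W D) :
    ((h.S.slots w).filter fun f => h.S.kd f = 0).card = (D.sl w.1).card := by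
  rw [card_filter]
  rw [h.slots_sum w (fun f => if h.S.kd f = 0 then 1 else 0) (fun _ => 0) (fun _ => 1)
    (fun x _ => if_neg (h.kd_ne x)) (fun e _ => if_pos rfl)]
  simp

/-- stars have no slots in `FK` -/
theorem Fin_H.sl_star (h : Fin_H E own D k B d β C θ) {w : W} (he : edgesAt E w = ∅) :
    D.sl w = ∅ := by
  rw [eq_empty_iff_forall_notMem]
  intro e hs
  obtain ⟨h1, h2⟩ := Fin_mem_sl.1 hs
  exact (h.edge h1 h2).ne_empty he

theorem Fin_H.edge_of_sl (h : Fin_H E own D k B d β C θ) {w : W} (hs : (D.sl w).Nonempty) :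
    (edgesAt E w).Nonempty := by
  obtain ⟨e, he⟩ := hs
  obtain ⟨h1, h2⟩ := Fin_mem_sl.1 he
  exact h.edge h1 h2

theorem Fin_H.isR_iff (h : Fin_H E own D k B d β C θ) (w : Fin_W D) :
    h.S.isR w ↔ leavesAt own w.1 = ∅ ∧ (D.sl w.1).card = 1 := by
  have hc := h.slots_card w
  have hh := h.high_card w
  constructor
  · rintro ⟨f, hf, hk⟩
    have h1 : ((h.S.slots w).filter fun f => h.S.kd f = 0).card = 1 := by
      rw [hf, filter_singleton, if_pos hk, card_singleton]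
    rw [hf, card_singleton] at hc
    have h2 : (D.sl w.1).card = 1 := by omega
    refine ⟨?_, h2⟩
    by_contra hl
    have he : (edgesAt E w.1).Nonempty := h.edge_of_sl (card_pos.1 (by omega))
    obtain ⟨x, hx, -⟩ := h.ls_edge w.2 he (nonempty_iff_ne_empty.2 hl)
    rw [hx, card_singleton] at hc
    omega
  · rintro ⟨hl, hs⟩
    rw [Fin_H.ls_leafless hl, card_empty, hs] at hc
    rw [zero_add] at hc
    obtain ⟨f, hf⟩ := card_eq_one.1 hc
    refine ⟨f, hf, ?_⟩
    rw [hs, card_eq_one] at hh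
    obtain ⟨g, hg⟩ := hh
    have h1 : g ∈ (h.S.slots w).filter fun f => h.S.kd f = 0 := by rw [hg]; simp
    obtain ⟨h2, h3⟩ := mem_filter.1 h1
    rw [hf, mem_singleton] at h2
    rw [← h2]
    exact h3

theorem Fin_H.isD_iff (h : Fin_H E own D k B d β C θ) (w : Fin_W D) :
    h.S.isD w ↔ 2 ≤ (D.sl w.1).card := by
  unfold PSG.isD
  rw [h.high_card w]
  constructor
  · exact fun t => t.1
  · intro hs
    refine ⟨hs, fun f hf => ?_⟩
    have he : (edgesAt E w.1).Nonempty := h.edge_of_sl (card_pos.1 (by omega))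
    cases f with
    | inl e => exact Or.inl rfl
    | inr x =>
      right
      have h1 := h.mem_slots_inr.1 hf
      rcases h.kd_val x with ⟨h2, h3⟩ | ⟨h2, -⟩ | ⟨h2, -⟩
      · exact h3
      · rw [h1] at h2; exact absurd h2 he.ne_empty
      · rw [h1] at h2; exact absurd h2 he.ne_empty

theorem Fin_H.isP_iff (h : Fin_H E own D k B d β C θ) (w : Fin_W D) :
    h.S.isP w ↔ (leavesAt own w.1).Nonempty ∧ (D.sl w.1).card = 1 := by
  have hc := h.slots_card w
  have hh := h.high_card w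
  constructor
  · rintro ⟨f, g, hf, hkf, hkg⟩
    have hfg : f ≠ g := by
      rintro rfl
      rw [hkf] at hkg
      exact absurd hkg (by decide)
    have h1 : ((h.S.slots w).filter fun f => h.S.kd f = 0).card = 1 := by
      rw [card_eq_one]
      refine ⟨f, ?_⟩
      ext t
      rw [hf, mem_filter, mem_insert, mem_singleton, mem_singleton]
      constructor
      · rintro ⟨rfl | rfl, h2⟩
        · rfl
        · rw [h2] at hkg
          exact absurd hkg (by decide)
      · rintro rfl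
        exact ⟨Or.inl rfl, hkf⟩
    rw [hf, card_pair hfg] at hc
    refine ⟨?_, by omega⟩
    by_contra hl
    rw [Fin_H.ls_leafless (not_nonempty_iff_eq_empty.1 hl), card_empty] at hc
    omega
  · rintro ⟨hl, hs⟩
    obtain ⟨e, he⟩ := card_eq_one.1 hs
    have he' : e ∈ D.sl w.1 := by rw [he]; simp
    obtain ⟨he1, he2⟩ := Fin_mem_sl.1 he'
    have hen : (edgesAt E w.1).Nonempty := h.edge he1 he2
    obtain ⟨x, hx, hkx⟩ := h.ls_edge w.2 hen hl
    have hx' : x ∈ Fin_LS own D w.1 := by rw [hx]; simp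
    obtain ⟨hx1, hx2⟩ := Fin_mem_LS.1 hx'
    refine ⟨Sum.inl ⟨e, he1⟩, Sum.inr ⟨x, hx2⟩, ?_, rfl, h.kd_inr hkx⟩
    ext t
    rw [mem_insert, mem_singleton]
    cases t with
    | inl e' =>
      rw [h.mem_slots_inl]
      constructor
      · intro h1
        left
        have h2 : e'.1 ∈ D.sl w.1 := Fin_mem_sl.2 ⟨e'.2, h1⟩
        rw [he, mem_singleton] at h2
        congr 1
        exact Subtype.ext h2
      · rintro (h1 | h1)
        · rw [Sum.inl.inj h1]; exact he2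
        · cases h1
    | inr x' =>
      rw [h.mem_slots_inr]
      constructor
      · intro h1
        right
        have h2 : x'.1 ∈ Fin_LS own D w.1 := Fin_mem_LS.2 ⟨h1, x'.2⟩
        rw [hx, mem_singleton] at h2
        congr 1
        exact Subtype.ext h2
      · rintro (h1 | h1)
        · cases h1
        · rw [Sum.inr.inj h1]; exact hx1

theorem Fin_H.isS3_iff (h : Fin_H E own D k B d β C θ) (w : Fin_W D) :
    h.S.isS3 w ↔ edgesAt E w.1 = ∅ ∧ (leavesAt own w.1).card = 3 := by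
  constructor
  · rintro ⟨f, g, e, hf, hkf, hkg, hke⟩
    have h1 : f ∈ h.S.slots w := by rw [hf]; simp
    cases f with
    | inl e' =>
      rw [h.kd_inl] at hkf
      exact absurd hkf (by decide)
    | inr x =>
      have h2 := h.mem_slots_inr.1 h1
      rcases h.kd_val x with ⟨h3, h4⟩ | ⟨h3, h4, -⟩ | ⟨h3, h4, h5 | h5⟩
      · rw [hkf] at h4; exact absurd h4 (by decide)
      · rw [h2] at h3 h4; exact ⟨h3, h4⟩
      · rw [hkf] at h5; exact absurd h5 (by decide)
      · rw [hkf] at h5; exact absurd h5 (by decide)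
  · rintro ⟨he, hl⟩
    obtain ⟨x, y, z, -, hs, hx, hy, hz⟩ := h.ls_s3 he hl
    have hx' : x ∈ Fin_LS own D w.1 := by rw [hs]; simp
    have hy' : y ∈ Fin_LS own D w.1 := by rw [hs]; simp
    have hz' : z ∈ Fin_LS own D w.1 := by rw [hs]; simp
    obtain ⟨hx1, hx2⟩ := Fin_mem_LS.1 hx'
    obtain ⟨hy1, hy2⟩ := Fin_mem_LS.1 hy'
    obtain ⟨hz1, hz2⟩ := Fin_mem_LS.1 hz'
    refine ⟨Sum.inr ⟨x, hx2⟩, Sum.inr ⟨y, hy2⟩, Sum.inr ⟨z, hz2⟩, ?_, h.kd_inr hx, h.kd_inr hy,
      h.kd_inr hz⟩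
    ext t
    rw [mem_insert, mem_insert, mem_singleton]
    cases t with
    | inl e' =>
      rw [h.mem_slots_inl]
      constructor
      · intro h1
        exact absurd he (h.edge e'.2 h1).ne_empty
      · rintro (h1 | h1 | h1) <;> cases h1
    | inr x' =>
      rw [h.mem_slots_inr]
      constructor
      · intro h1
        have h2 : x'.1 ∈ Fin_LS own D w.1 := Fin_mem_LS.2 ⟨h1, x'.2⟩
        rw [hs, mem_insert, mem_insert, mem_singleton] at h2
        rcases h2 with h2 | h2 | h2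
        · exact Or.inl (congrArg Sum.inr (Subtype.ext h2))
        · exact Or.inr (Or.inl (congrArg Sum.inr (Subtype.ext h2)))
        · exact Or.inr (Or.inr (congrArg Sum.inr (Subtype.ext h2)))
      · rintro (h1 | h1 | h1)
        · rw [Sum.inr.inj h1]; exact hx1
        · rw [Sum.inr.inj h1]; exact hy1
        · rw [Sum.inr.inj h1]; exact hz1

theorem Fin_H.isS4_iff (h : Fin_H E own D k B d β C θ) (w : Fin_W D) :
    h.S.isS4 w ↔ edgesAt E w.1 = ∅ ∧ 4 ≤ (leavesAt own w.1).card := by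
  constructor
  · rintro ⟨f, g, e, u, hf, -, hkf, hkg, hke, hku⟩
    have h1 : u ∈ h.S.slots w := by rw [hf]; simp
    cases u with
    | inl e' =>
      rw [h.kd_inl] at hku
      exact absurd hku (by decide)
    | inr x =>
      have h2 := h.mem_slots_inr.1 h1
      rcases h.kd_val x with ⟨h3, h4⟩ | ⟨h3, h4, h5 | h5 | h5⟩ | ⟨h3, h4, -⟩
      · rw [hku] at h4; exact absurd h4 (by decide)
      · rw [hku] at h5; exact absurd h5 (by decide)
      · rw [hku] at h5; exact absurd h5 (by decide)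
      · rw [hku] at h5; exact absurd h5 (by decide)
      · rw [h2] at h3 h4; exact ⟨h3, h4⟩
  · rintro ⟨he, hl⟩
    obtain ⟨x, y, z, u, hs, hs4, hx, hy, hz, hu⟩ := h.ls_s4 he hl
    have hx' : x ∈ Fin_LS own D w.1 := by rw [hs]; simp
    have hy' : y ∈ Fin_LS own D w.1 := by rw [hs]; simp
    have hz' : z ∈ Fin_LS own D w.1 := by rw [hs]; simp
    have hu' : u ∈ Fin_LS own D w.1 := by rw [hs]; simp
    obtain ⟨hx1, hx2⟩ := Fin_mem_LS.1 hx'
    obtain ⟨hy1, hy2⟩ := Fin_mem_LS.1 hy'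
    obtain ⟨hz1, hz2⟩ := Fin_mem_LS.1 hz'
    obtain ⟨hu1, hu2⟩ := Fin_mem_LS.1 hu'
    refine ⟨Sum.inr ⟨x, hx2⟩, Sum.inr ⟨y, hy2⟩, Sum.inr ⟨z, hz2⟩, Sum.inr ⟨u, hu2⟩, ?_, ?_,
      h.kd_inr hx, h.kd_inr hy, h.kd_inr hz, h.kd_inr hu⟩
    · ext t
      rw [mem_insert, mem_insert, mem_insert, mem_singleton]
      cases t with
      | inl e' =>
        rw [h.mem_slots_inl]
        constructor
        · intro h1
          exact absurd he (h.edge e'.2 h1).ne_empty
        · rintro (h1 | h1 | h1 | h1) <;> cases h1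
      | inr x' =>
        rw [h.mem_slots_inr]
        constructor
        · intro h1
          have h2 : x'.1 ∈ Fin_LS own D w.1 := Fin_mem_LS.2 ⟨h1, x'.2⟩
          rw [hs, mem_insert, mem_insert, mem_insert, mem_singleton] at h2
          rcases h2 with h2 | h2 | h2 | h2
          · exact Or.inl (congrArg Sum.inr (Subtype.ext h2))
          · exact Or.inr (Or.inl (congrArg Sum.inr (Subtype.ext h2)))
          · exact Or.inr (Or.inr (Or.inl (congrArg Sum.inr (Subtype.ext h2))))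
          · exact Or.inr (Or.inr (Or.inr (congrArg Sum.inr (Subtype.ext h2))))
        · rintro (h1 | h1 | h1 | h1)
          · rw [Sum.inr.inj h1]; exact hx1
          · rw [Sum.inr.inj h1]; exact hy1
          · rw [Sum.inr.inj h1]; exact hz1
          · rw [Sum.inr.inj h1]; exact hu1
    · rw [h.slots_card w, h.sl_star he, card_empty, hs4]

theorem Fin_H.types (h : Fin_H E own D k B d β C θ) (w : Fin_W D) :
    h.S.isR w ∨ h.S.isD w ∨ h.S.isP w ∨ h.S.isS3 w ∨ h.S.isS4 w := by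
  rw [h.isR_iff, h.isD_iff, h.isP_iff, h.isS3_iff, h.isS4_iff]
  rcases (edgesAt E w.1).eq_empty_or_nonempty with he | he
  · have := h.st3 w.1 he
    rcases this.lt_or_eq with h1 | h1
    · exact Or.inr (Or.inr (Or.inr (Or.inr ⟨he, h1⟩)))
    · exact Or.inr (Or.inr (Or.inr (Or.inl ⟨he, h1.symm⟩)))
  · have hs := card_pos.2 (h.ok.has_slot w.1 w.2 he)
    by_cases h2 : 2 ≤ (D.sl w.1).card
    · exact Or.inr (Or.inl h2)
    · have h1 : (D.sl w.1).card = 1 := by omega
      rcases (leavesAt own w.1).eq_empty_or_nonempty with hl | hl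
      · exact Or.inl ⟨hl, h1⟩
      · exact Or.inr (Or.inr (Or.inl ⟨hl, h1⟩))

end


section

variable {W X : Type} [Fintype W] [DecidableEq W] [Fintype X] [DecidableEq X]
variable {E : Finset (Sym2 W)} {own : X → W} {D : PrepD W X} {k B : ℕ} {d β C θ : ℝ}

theorem Fin_H.sl_of_slots (h : Fin_H E own D k B d β C θ) {w w' : Fin_W D}
    (hs : ∀ e : {e // e ∈ D.FK}, (Sum.inl e ∈ h.S.slots w ↔ Sum.inl e ∈ h.S.slots w')) :
    D.sl w.1 = D.sl w'.1 := by
  ext e
  rw [Fin_mem_sl, Fin_mem_sl]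
  constructor
  · rintro ⟨h1, h2⟩
    exact ⟨h1, h.mem_slots_inl.1 ((hs ⟨e, h1⟩).1 (h.mem_slots_inl.2 h2))⟩
  · rintro ⟨h1, h2⟩
    exact ⟨h1, h.mem_slots_inl.1 ((hs ⟨e, h1⟩).2 (h.mem_slots_inl.2 h2))⟩

/-- a vertex without leaf slots has no leaves -/
theorem Fin_H.leafless (h : Fin_H E own D k B d β C θ) {w : Fin_W D}
    (hs : ∀ x : {x // D.kl x ≠ none}, Sum.inr x ∉ h.S.slots w) :
    leavesAt own w.1 = ∅ ∧ (edgesAt E w.1).Nonempty ∧ (D.sl w.1).Nonempty := by
  have h1 : leavesAt own w.1 = ∅ := by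
    by_contra hl
    obtain ⟨x, hx, -⟩ := h.ls_ne w.2 (nonempty_iff_ne_empty.2 hl)
    obtain ⟨h1, h2⟩ := Fin_mem_LS.1 hx
    exact hs ⟨x, h2⟩ (h.mem_slots_inr.2 h1)
  have h2 : (edgesAt E w.1).Nonempty := by
    by_contra he
    have := h.st3 w.1 (not_nonempty_iff_eq_empty.1 he)
    rw [h1, card_empty] at this
    omega
  exact ⟨h1, h2, h.ok.has_slot w.1 w.2 h2⟩

theorem Fin_H.slots_ne (h : Fin_H E own D k B d β C θ) (w w' : Fin_W D) (hw : w ≠ w') :
    h.S.slots w ≠ h.S.slots w' := by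
  intro hs
  by_cases hx : ∃ x : {x // D.kl x ≠ none}, Sum.inr x ∈ h.S.slots w
  · obtain ⟨x, hx⟩ := hx
    have h1 := h.mem_slots_inr.1 hx
    rw [hs] at hx
    have h2 := h.mem_slots_inr.1 hx
    exact hw (Subtype.ext (h1.symm.trans h2))
  · push Not at hx
    obtain ⟨h1, h2, h3⟩ := h.leafless hx
    have h4 : D.sl w.1 = D.sl w'.1 := h.sl_of_slots fun e => by rw [hs]
    have h5 := (h.ok.slots_ne w.1 w.2 w'.1 w'.2 (fun hc => hw (Subtype.ext hc)) h3 h4).1
    rw [h1] at h5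
    exact absurd h5 (by simp)

/-- the gadgets: leaves of kind `1` or `2` with different owners, different slot sets -/
structure Fin_G (own : X → W) (D : PrepD W X) (Gx : Finset X) : Prop where
  kind : ∀ x ∈ Gx, D.kl x = some 1 ∨ D.kl x = some 2
  inj : ∀ x ∈ Gx, ∀ y ∈ Gx, own x = own y → x = y
  sl : ∀ x ∈ Gx, ∀ y ∈ Gx, (D.sl (own x)).Nonempty → D.sl (own x) = D.sl (own y) → x = y

/-- the set of gadget slots -/
def Fin_Sp (D : PrepD W X) (Gx : Finset X) : Finset (Fin_F D) :=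
  univ.filter fun f => ∃ x, f = Sum.inr x ∧ x.1 ∈ Gx

theorem Fin_mem_Sp {Gx : Finset X} {f : Fin_F D} :
    f ∈ Fin_Sp D Gx ↔ ∃ x : {x // D.kl x ≠ none}, f = Sum.inr x ∧ x.1 ∈ Gx := by
  simp only [Fin_Sp, mem_filter, mem_univ, true_and]

theorem Fin_G.Sp_card {Gx : Finset X} (hG : Fin_G own D Gx) : (Fin_Sp D Gx).card = Gx.card := by
  symm
  refine card_bij (fun x hx => Sum.inr ⟨x, ?_⟩) ?_ ?_ ?_
  · rcases hG.kind x hx with h | h <;> rw [h] <;> simp
  · intro x hx
    exact Fin_mem_Sp.2 ⟨_, rfl, hx⟩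
  · intro x hx y hy hxy
    exact congrArg Subtype.val (Sum.inr.inj hxy)
  · intro f hf
    obtain ⟨x, rfl, hx⟩ := Fin_mem_Sp.1 hf
    exact ⟨x.1, hx, rfl⟩

theorem Fin_H.star (h : Fin_H E own D k B d β C θ) (x : {x // D.kl x ≠ none}) (u : Fin_W D)
    (hu : u ∈ h.S.en (Sum.inr x)) (w : Fin_W D) : h.S.slots w ≠ (h.S.slots u).erase (Sum.inr x) := by
  have hxu := h.mem_en_inr.1 hu
  have hxs : Sum.inr x ∈ h.S.slots u := h.mem_slots_inr.2 hxu
  intro hs
  by_cases hy : ∃ y : {x // D.kl x ≠ none}, Sum.inr y ∈ h.S.slots w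
  · obtain ⟨y, hy⟩ := hy
    have h1 := h.mem_slots_inr.1 hy
    rw [hs] at hy
    have h2 := h.mem_slots_inr.1 (mem_of_mem_erase hy)
    have h3 : w = u := Subtype.ext (h1.symm.trans h2)
    rw [h3] at hs
    rw [hs] at hxs
    exact (notMem_erase _ _) hxs
  · push Not at hy
    obtain ⟨h1, h2, h3⟩ := h.leafless hy
    have hne : w ≠ u := by
      rintro rfl
      exact hy x hxs
    have h4 : D.sl w.1 = D.sl u.1 := h.sl_of_slots fun e => by
      rw [hs, mem_erase]
      simp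
    have h5 := (h.ok.slots_ne w.1 w.2 u.1 u.2 (fun hc => hne (Subtype.ext hc)) h3 h4).1
    rw [h1] at h5
    exact absurd h5 (by simp)

theorem Fin_H.keys (h : Fin_H E own D k B d β C θ) {Gx : Finset X} (hG : Fin_G own D Gx)
    (x y : {x // D.kl x ≠ none}) (hx : x.1 ∈ Gx) (hy : y.1 ∈ Gx) (u v : Fin_W D)
    (hu : u ∈ h.S.en (Sum.inr x)) (hv : v ∈ h.S.en (Sum.inr y)) (huv : u ≠ v)
    (hs : (h.S.slots u).erase (Sum.inr x) = (h.S.slots v).erase (Sum.inr y)) :
    (h.S.slots u).erase (Sum.inr x) = ∅ := by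
  have hxu := h.mem_en_inr.1 hu
  have hyv := h.mem_en_inr.1 hv
  rw [eq_empty_iff_forall_notMem]
  intro f hf
  cases f with
  | inr z =>
    have h1 := h.mem_slots_inr.1 (mem_of_mem_erase hf)
    rw [hs] at hf
    have h2 := h.mem_slots_inr.1 (mem_of_mem_erase hf)
    exact huv (Subtype.ext (h1.symm.trans h2))
  | inl e =>
    have h1 : D.sl u.1 = D.sl v.1 := h.sl_of_slots fun e => by
      have : Sum.inl e ∈ (h.S.slots u).erase (Sum.inr x) ↔
          Sum.inl e ∈ (h.S.slots v).erase (Sum.inr y) := by rw [hs]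
      rw [mem_erase, mem_erase] at this
      simpa using this
    have h2 : e.1 ∈ D.sl u.1 := Fin_mem_sl.2 ⟨e.2, h.mem_slots_inl.1 (mem_of_mem_erase hf)⟩
    have h3 := hG.sl x.1 hx y.1 hy (by rw [hxu]; exact ⟨_, h2⟩) (by rw [hxu, hyv]; exact h1)
    apply huv
    apply Subtype.ext
    rw [← hxu, ← hyv, h3]

/-- number of ends -/
theorem Fin_sym2_card (e : Sym2 W) (s : Finset W) : (s.filter fun w => w ∈ e).card ≤ 2 := by
  induction e using Sym2.ind with
  | _ a b =>
    refine (card_le_card (t := {a, b}) ?_).trans card_le_two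
    intro w hw
    have := (mem_filter.1 hw).2
    rw [Sym2.mem_iff] at this
    rw [mem_insert, mem_singleton]
    exact this

/-- regular vertices with edges in the part `i` -/
theorem Fin_H.vp_card (h : Fin_H E own D k B d β C θ) (i : ℕ) :
    (D.Rg.filter fun w => (edgesAt E w).Nonempty ∧ D.vp w = i).card ≤
      2 * (D.FK.filter fun e => D.pt e = i).card := by
  classical
  have h1 : (D.Rg.filter fun w => (edgesAt E w).Nonempty ∧ D.vp w = i) ⊆
      (D.FK.filter fun e => D.pt e = i).biUnion (fun e => D.Rg.filter fun w => w ∈ e) := by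
    intro w hw
    obtain ⟨h1, h2, h3⟩ := mem_filter.1 hw
    obtain ⟨e, he⟩ := h.ok.has_slot w h1 h2
    obtain ⟨h4, h5⟩ := Fin_mem_sl.1 he
    exact mem_biUnion.2 ⟨e, mem_filter.2 ⟨h4, (h.ok.vp_eq e h4 w h5 h1).trans h3⟩,
      mem_filter.2 ⟨h1, h5⟩⟩
  refine (card_le_card h1).trans (card_biUnion_le.trans ?_)
  rw [mul_comm]
  exact sum_le_card_nsmul _ _ _ fun e _ => Fin_sym2_card e _

theorem Fin_H.k4 (h : Fin_H E own D k B d β C θ) : 4 ≤ k := by
  have := h.ok.part_le 0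
  omega

/-- part sizes -/
theorem Fin_H.part_le (h : Fin_H E own D k B d β C θ) (i : Fin_I E own D) :
    (univ.filter fun f => h.S.pt f = i).card ≤ k := by
  classical
  -- split into slots in `FK` and leaf slots
  have hsplit : (univ.filter fun f => h.S.pt f = i).card ≤
      (univ.filter fun e : {e // e ∈ D.FK} => Sum.inl (D.pt e.1) = i.1).card +
      (univ.filter fun x : {x // D.kl x ≠ none} => Fin_pw E D (own x.1) = i.1).card := by
    rw [← card_image_of_injective _ (Sum.inl_injective (α := {e // e ∈ D.FK})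
      (β := {x // D.kl x ≠ none})), ← card_image_of_injective (univ.filter fun x :
      {x // D.kl x ≠ none} => Fin_pw E D (own x.1) = i.1) (Sum.inr_injective
      (α := {e // e ∈ D.FK}) (β := {x // D.kl x ≠ none}))]
    refine (card_le_card ?_).trans (card_union_le _ _)
    intro f hf
    have h1 : Fin_pf E own D f = i.1 := congrArg Subtype.val (mem_filter.1 hf).2
    cases f with
    | inl e => exact mem_union_left _ (mem_image.2 ⟨e, mem_filter.2 ⟨mem_univ _, h1⟩, rfl⟩)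
    | inr x => exact mem_union_right _ (mem_image.2 ⟨x, mem_filter.2 ⟨mem_univ _, h1⟩, rfl⟩)
  refine hsplit.trans ?_
  obtain ⟨i, hi⟩ := i
  simp only
  cases i with
  | inl j =>
    have h1 : (univ.filter fun e : {e // e ∈ D.FK} => (Sum.inl (D.pt e.1) : ℕ ⊕ W) = Sum.inl j).card ≤
        (D.FK.filter fun e => D.pt e = j).card := by
      refine card_le_card_of_injOn (fun e => e.1) ?_ ?_
      · intro e he
        have := (mem_filter.1 (mem_coe.1 he)).2
        exact mem_coe.2 (mem_filter.2 ⟨e.2, Sum.inl.inj this⟩)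
      · intro e _ e' _ hee
        exact Subtype.ext hee
    have h2 : (univ.filter fun x : {x // D.kl x ≠ none} =>
        Fin_pw E D (own x.1) = (Sum.inl j : ℕ ⊕ W)).card ≤
        (D.Rg.filter fun w => (edgesAt E w).Nonempty ∧ D.vp w = j).card := by
      have hval : ∀ x : {x // D.kl x ≠ none}, Fin_pw E D (own x.1) = (Sum.inl j : ℕ ⊕ W) →
          (edgesAt E (own x.1)).Nonempty ∧ D.vp (own x.1) = j := by
        intro x hx
        unfold Fin_pw at hx
        split_ifs at hx with he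
        exact ⟨nonempty_iff_ne_empty.2 he, Sum.inl.inj hx⟩
      refine card_le_card_of_injOn (fun x => own x.1) ?_ ?_
      · intro x hx
        exact mem_coe.2 (mem_filter.2 ⟨h.own_Rg x.2, hval x (mem_filter.1 (mem_coe.1 hx)).2⟩)
      · intro x hx y hy hxy
        have h3 := (hval x (mem_filter.1 (mem_coe.1 hx)).2).1
        obtain ⟨z, hz, -⟩ := h.ls_edge (h.own_Rg x.2) h3 ⟨x.1, Fin_mem_leavesAt.2 rfl⟩
        have h4 : x.1 ∈ Fin_LS own D (own x.1) := Fin_mem_LS.2 ⟨rfl, x.2⟩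
        have h5 : y.1 ∈ Fin_LS own D (own x.1) := Fin_mem_LS.2 ⟨hxy.symm, y.2⟩
        rw [hz, mem_singleton] at h4 h5
        exact Subtype.ext (h4.trans h5.symm)
    have h3 := h.vp_card j
    have h4 := h.ok.part_le j
    omega
  | inr w0 =>
    have h1 : (univ.filter fun e : {e // e ∈ D.FK} =>
        (Sum.inl (D.pt e.1) : ℕ ⊕ W) = Sum.inr w0).card = 0 := by
      rw [card_eq_zero, filter_eq_empty_iff]
      intro e _ hc
      cases hc
    have h2 : (univ.filter fun x : {x // D.kl x ≠ none} =>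
        Fin_pw E D (own x.1) = (Sum.inr w0 : ℕ ⊕ W)).card ≤ 4 := by
      have hval : ∀ x : {x // D.kl x ≠ none}, Fin_pw E D (own x.1) = (Sum.inr w0 : ℕ ⊕ W) →
          own x.1 = w0 := by
        intro x hx
        unfold Fin_pw at hx
        split_ifs at hx with he
        exact Sum.inr.inj hx
      rcases (univ.filter fun x : {x // D.kl x ≠ none} =>
        Fin_pw E D (own x.1) = (Sum.inr w0 : ℕ ⊕ W)).eq_empty_or_nonempty with h0 | ⟨x0, hx0⟩
      · rw [h0]; simp
      · have h3 : w0 ∈ D.Rg := by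
          rw [← hval x0 (mem_filter.1 hx0).2]
          exact h.own_Rg x0.2
        refine le_trans ?_ (h.ls_card h3)
        refine card_le_card_of_injOn (fun x => x.1) ?_ ?_
        · intro x hx
          exact mem_coe.2 (Fin_mem_LS.2 ⟨hval x (mem_filter.1 (mem_coe.1 hx)).2, x.2⟩)
        · intro x _ y _ hxy
          exact Subtype.ext hxy
    have h3 := h.k4
    omega

/-- the vertices of the part system and subsets of `D.Rg` -/
theorem Fin_cardW (D : PrepD W X) (P : Fin_W D → Prop) [DecidablePred P] (Q : W → Prop)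
    [DecidablePred Q] (hPQ : ∀ w, P w ↔ Q w.1) :
    (univ.filter P).card = (D.Rg.filter Q).card := by
  refine card_bij (fun w _ => w.1) ?_ ?_ ?_
  · intro w hw
    exact mem_filter.2 ⟨w.2, (hPQ w).1 (mem_filter.1 hw).2⟩
  · intro w _ w' _ hww
    exact Subtype.ext hww
  · intro w hw
    obtain ⟨h1, h2⟩ := mem_filter.1 hw
    exact ⟨⟨w, h1⟩, mem_filter.2 ⟨mem_univ _, (hPQ ⟨w, h1⟩).2 h2⟩, rfl⟩

theorem Fin_cardW_le (D : PrepD W X) (P : Fin_W D → Prop) [DecidablePred P] (Q : W → Prop)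
    [DecidablePred Q] (hPQ : ∀ w, P w → Q w.1) :
    (univ.filter P).card ≤ (D.Rg.filter Q).card := by
  refine card_le_card_of_injOn (fun w => w.1) ?_ ?_
  · intro w hw
    exact mem_coe.2 (mem_filter.2 ⟨w.2, hPQ w (mem_filter.1 (mem_coe.1 hw)).2⟩)
  · intro w _ w' _ hww
    exact Subtype.ext hww

open Classical in
theorem Fin_H.mult (h : Fin_H E own D k B d β C θ) {Gx : Finset X} (hG : Fin_G own D Gx)
    (y : ZMod D.p) : (univ.filter fun w => (h.S.isR w ∨ ∃ g ∈ Fin_Sp D Gx, w ∈ h.S.en g) ∧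
      w ∉ h.S.zt ∧ (h.S.slots w).card ≤ 2 ∧ h.S.c w = y).card ≤ B := by
  refine (Fin_cardW_le D _ _ ?_).trans (h.ok.mult y)
  rintro w ⟨h1, h2, h3, h4⟩
  rcases h1 with h1 | ⟨g, hg, h1⟩
  · obtain ⟨h5, h6⟩ := (h.isR_iff w).1 h1
    refine ⟨h6, Or.inr ?_, h4⟩
    by_contra hc
    push Not at hc
    have h7 : edgesAt E w.1 ⊆ D.sl w.1 := fun e he =>
      Fin_mem_sl.2 ⟨hc e he, (Fin_mem_edgesAt.1 he).2⟩
    have h8 := card_le_card h7
    have h9 := h.deg2 w.1
    rw [h5, card_empty] at h9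
    omega
  · obtain ⟨x, rfl, hx⟩ := Fin_mem_Sp.1 hg
    have h5 := h.mem_en_inr.1 h1
    have hl : (leavesAt own w.1).Nonempty := ⟨x.1, Fin_mem_leavesAt.2 h5⟩
    have h6 := h.slots_card w
    have he : (edgesAt E w.1).Nonempty := by
      by_contra he
      rw [not_nonempty_iff_eq_empty] at he
      rcases (h.st3 w.1 he).lt_or_eq with h7 | h7
      · obtain ⟨_, _, _, _, _, h8, _⟩ := h.ls_s4 he h7
        omega
      · obtain ⟨a, b, c, h8, h9, _⟩ := h.ls_s3 he h7.symm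
        rw [h9, ← h8] at h6
        omega
    obtain ⟨z, hz, hkz⟩ := h.ls_edge w.2 he hl
    have h7 := card_pos.2 (h.ok.has_slot w.1 w.2 he)
    rw [hz, card_singleton] at h6
    have h8 : (D.sl w.1).card = 1 := by omega
    refine ⟨h8, ?_, h4⟩
    by_contra hc
    push Not at hc
    obtain ⟨hc1, hc2⟩ := hc
    apply h2
    show w ∈ univ.filter _
    rw [mem_filter]
    refine ⟨mem_univ _, h8, ?_, fun e he => hc2 e he⟩
    have h9 : leavesAt own w.1 = Fin_LS own D w.1 := by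
      rw [Fin_LS, filter_true_of_mem]
      exact fun x hx => hc1 x hx
    rw [h9, hz, card_singleton]

open Classical in
theorem Fin_H.load (h : Fin_H E own D k B d β C θ) (i : Fin_I E own D) :
    1000 * (2 * (univ.filter fun w => h.S.vp w = i ∧ h.S.isR w).card +
      (univ.filter fun w => h.S.vp w = i ∧ h.S.isP w).card +
      2 * (univ.filter fun w => h.S.vp w = i ∧ h.S.isD w).card) ≤
    1001 * (2 * (univ.filter fun f => h.S.pt f = i ∧ h.S.kd f = 0).card) := by
  obtain ⟨i, hi⟩ := i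
  have hedge : ∀ w : Fin_W D, (h.S.isR w ∨ h.S.isP w ∨ h.S.isD w) → (edgesAt E w.1).Nonempty := by
    intro w hw
    rw [h.isR_iff, h.isP_iff, h.isD_iff] at hw
    refine h.edge_of_sl (card_pos.1 ?_)
    rcases hw with hw | hw | hw
    · have := hw.2; omega
    · have := hw.2; omega
    · omega
  have hvp : ∀ w : Fin_W D, h.S.vp w = ⟨i, hi⟩ → Fin_pw E D w.1 = i := fun w hw =>
    congrArg Subtype.val hw
  cases i with
  | inl j =>
    have hj : ∀ w : Fin_W D, h.S.vp w = ⟨Sum.inl j, hi⟩ → D.vp w.1 = j := by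
      intro w hw
      have := hvp w hw
      unfold Fin_pw at this
      split_ifs at this with he
      exact Sum.inl.inj this
    have h1 : (univ.filter fun w => h.S.vp w = ⟨Sum.inl j, hi⟩ ∧ h.S.isR w).card ≤
        (D.Rg.filter fun w => D.vp w = j ∧ leavesAt own w = ∅ ∧ (D.sl w).card = 1).card :=
      Fin_cardW_le D _ _ fun w hw => ⟨hj w hw.1, (h.isR_iff w).1 hw.2⟩
    have h2 : (univ.filter fun w => h.S.vp w = ⟨Sum.inl j, hi⟩ ∧ h.S.isP w).card ≤
        (D.Rg.filter fun w => D.vp w = j ∧ (leavesAt own w).Nonempty ∧ (D.sl w).card = 1).card :=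
      Fin_cardW_le D _ _ fun w hw => ⟨hj w hw.1, (h.isP_iff w).1 hw.2⟩
    have h3 : (univ.filter fun w => h.S.vp w = ⟨Sum.inl j, hi⟩ ∧ h.S.isD w).card ≤
        (D.Rg.filter fun w => D.vp w = j ∧ 2 ≤ (D.sl w).card).card :=
      Fin_cardW_le D _ _ fun w hw => ⟨hj w hw.1, (h.isD_iff w).1 hw.2⟩
    have h4 : (D.FK.filter fun e => D.pt e = j).card ≤
        (univ.filter fun f => h.S.pt f = ⟨Sum.inl j, hi⟩ ∧ h.S.kd f = 0).card := by
      have h5 : (D.FK.filter fun e => D.pt e = j).card =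
          (univ.filter fun e : {e // e ∈ D.FK} => D.pt e.1 = j).card := by
        symm
        refine card_bij (fun e _ => e.1) ?_ ?_ ?_
        · intro e he
          exact mem_filter.2 ⟨e.2, (mem_filter.1 he).2⟩
        · intro e _ e' _ hee
          exact Subtype.ext hee
        · intro e he
          obtain ⟨h6, h7⟩ := mem_filter.1 he
          exact ⟨⟨e, h6⟩, mem_filter.2 ⟨mem_univ _, h7⟩, rfl⟩
      rw [h5]
      refine card_le_card_of_injOn Sum.inl ?_ ?_
      · intro e he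
        have := (mem_filter.1 (mem_coe.1 he)).2
        refine mem_coe.2 (mem_filter.2 ⟨mem_univ _, Subtype.ext ?_, rfl⟩)
        show Sum.inl (D.pt e.1) = Sum.inl j
        rw [this]
      · intro e _ e' _ hee
        exact Sum.inl.inj hee
    have h5 := h.ok.count j
    have h6 : 1000 * (2 * (univ.filter fun w => h.S.vp w = ⟨Sum.inl j, hi⟩ ∧ h.S.isR w).card +
      (univ.filter fun w => h.S.vp w = ⟨Sum.inl j, hi⟩ ∧ h.S.isP w).card +
      2 * (univ.filter fun w => h.S.vp w = ⟨Sum.inl j, hi⟩ ∧ h.S.isD w).card) ≤ 1000 *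
      (2 * (D.Rg.filter fun w => D.vp w = j ∧ leavesAt own w = ∅ ∧ (D.sl w).card = 1).card +
        (D.Rg.filter fun w => D.vp w = j ∧ (leavesAt own w).Nonempty ∧ (D.sl w).card = 1).card +
        2 * (D.Rg.filter fun w => D.vp w = j ∧ 2 ≤ (D.sl w).card).card) := by
      gcongr
    refine h6.trans ((le_trans (le_of_eq ?_) h5).trans ?_)
    · congr!
    · gcongr
  | inr w0 =>
    have h0 : ∀ w : Fin_W D, h.S.vp w = ⟨Sum.inr w0, hi⟩ → edgesAt E w.1 = ∅ := by
      intro w hw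
      have := hvp w hw
      unfold Fin_pw at this
      split_ifs at this with he
      exact he
    have h1 : (univ.filter fun w => h.S.vp w = ⟨Sum.inr w0, hi⟩ ∧ h.S.isR w) = ∅ :=
      filter_eq_empty_iff.2 fun w _ hw => (hedge w (Or.inl hw.2)).ne_empty (h0 w hw.1)
    have h2 : (univ.filter fun w => h.S.vp w = ⟨Sum.inr w0, hi⟩ ∧ h.S.isP w) = ∅ :=
      filter_eq_empty_iff.2 fun w _ hw => (hedge w (Or.inr (Or.inl hw.2))).ne_empty (h0 w hw.1)
    have h3 : (univ.filter fun w => h.S.vp w = ⟨Sum.inr w0, hi⟩ ∧ h.S.isD w) = ∅ :=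
      filter_eq_empty_iff.2 fun w _ hw => (hedge w (Or.inr (Or.inr hw.2))).ne_empty (h0 w hw.1)
    rw [h1, h2, h3]
    simp

theorem Fin_H.sOk (h : Fin_H E own D k B d β C θ) {Gx : Finset X} (hG : Fin_G own D Gx) :
    h.S.Ok k B (Fin_Sp D Gx) where
  part_le := h.part_le
  part_pos := by
    rintro ⟨i, hi⟩
    obtain ⟨f, -, hf⟩ := mem_image.1 hi
    exact ⟨f, Subtype.ext hf⟩
  en_pos := by
    intro f
    cases f with
    | inl e =>
      obtain ⟨w, hw, hR⟩ := h.ok.fk_ne e.1 e.2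
      exact ⟨⟨w, hR⟩, h.mem_en_inl.2 hw⟩
    | inr x => exact ⟨⟨own x.1, h.own_Rg x.2⟩, h.mem_en_inr.2 rfl⟩
  en_le := by
    intro f
    cases f with
    | inl e =>
      refine le_trans ?_ (Fin_sym2_card e.1 univ)
      refine card_le_card_of_injOn (fun w => w.1) ?_ ?_
      · intro w hw
        exact mem_coe.2 (mem_filter.2 ⟨mem_univ _, h.mem_en_inl.1 (mem_coe.1 hw)⟩)
      · intro w _ w' _ hww
        exact Subtype.ext hww
    | inr x =>
      have : h.S.en (Sum.inr x) = {⟨own x.1, h.own_Rg x.2⟩} := by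
        ext w
        rw [h.mem_en_inr, mem_singleton, Subtype.ext_iff, eq_comm]
      rw [this, card_singleton]
      norm_num
  en_one := by
    intro f hf
    cases f with
    | inl e => exact absurd rfl hf
    | inr x =>
      have : h.S.en (Sum.inr x) = {⟨own x.1, h.own_Rg x.2⟩} := by
        ext w
        rw [h.mem_en_inr, mem_singleton, Subtype.ext_iff, eq_comm]
      rw [this, card_singleton]
  vp_eq := by
    intro f w hw
    cases f with
    | inl e =>
      have hw' := h.mem_en_inl.1 hw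
      refine Subtype.ext ?_
      show Sum.inl (D.pt e.1) = Fin_pw E D w.1
      unfold Fin_pw
      rw [if_neg (h.edge e.2 hw').ne_empty, h.ok.vp_eq e.1 e.2 w.1 hw' w.2]
    | inr x =>
      have hw' := h.mem_en_inr.1 hw
      refine Subtype.ext ?_
      show Fin_pw E D (own x.1) = Fin_pw E D w.1
      rw [hw']
  types := h.types
  slots_ne := h.slots_ne
  zt_zero := by
    intro w hw
    have hw' := (mem_filter.1 hw).2
    obtain ⟨h1, h2, h3⟩ := hw'
    have he : (edgesAt E w.1).Nonempty := h.edge_of_sl (card_pos.1 (by omega))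
    have hl : (leavesAt own w.1).Nonempty := card_pos.1 (by omega)
    obtain ⟨x, hx, hkx⟩ := h.ls_edge w.2 he hl
    constructor
    · show D.c own E w.1 = 0
      unfold PrepD.c
      have h4 : (leavesAt own w.1).filter (fun x => D.kl x = none) = ∅ := by
        rw [filter_eq_empty_iff]
        intro y hy hc
        obtain ⟨z, hz⟩ := card_eq_one.1 h2
        have h5 : x ∈ leavesAt own w.1 := by
          have : x ∈ Fin_LS own D w.1 := by rw [hx]; simp
          exact Fin_mem_leavesAt.2 (Fin_mem_LS.1 this).1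
        rw [hz, mem_singleton] at hy h5
        rw [hy, ← h5, hkx] at hc
        cases hc
      have h5 : (edgesAt E w.1).filter (fun e => e ∉ D.FK) = ∅ := by
        rw [filter_eq_empty_iff]
        intro e he hc
        exact hc (h3 he)
      rw [h4, h5]
      simp
    · rw [h.slots_card w, hx, card_singleton, h1]
  mult := h.mult hG
  low_c := by
    intro w hw
    show D.c own E w.1 = ((Fin_cr E own D w.1 : ℕ) : ZMod D.p)
    unfold PrepD.c Fin_cr
    push_cast
    rfl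
  low_R := by
    intro w hw
    obtain ⟨h1, h2⟩ := (mem_filter.1 hw).2
    rw [h.isR_iff, h.isD_iff]
    refine ⟨fun hc => h1.ne_empty hc.1, fun hc => ?_⟩
    have h3 : (D.sl w.1).card ≤ (edgesAt E w.1).card := card_le_card fun e he => by
      obtain ⟨h4, h5⟩ := Fin_mem_sl.1 he
      exact Fin_mem_edgesAt.2 ⟨h.ok.fkE h4, h5⟩
    omega
  S3_low := by
    intro w hw
    obtain ⟨h1, h2⟩ := (h.isS3_iff w).1 hw
    refine ⟨mem_filter.2 ⟨mem_univ _, card_pos.1 (by omega), by rw [h1]; simp⟩, ?_⟩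
    show Fin_cr E own D w.1 = 0
    unfold Fin_cr
    obtain ⟨x, y, z, h3, h4, -⟩ := h.ls_s3 h1 h2
    have h5 : (leavesAt own w.1).filter (fun x => D.kl x = none) = ∅ := by
      rw [filter_eq_empty_iff]
      intro t ht
      rw [h3, ← h4] at ht
      exact (Fin_mem_LS.1 ht).2
    rw [h5, h1]
    simp
  S4_low := by
    intro w hw
    obtain ⟨h1, h2⟩ := (h.isS4_iff w).1 hw
    exact mem_filter.2 ⟨mem_univ _, card_pos.1 (by omega), by rw [h1]; simp⟩
  gk := by
    intro g hg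
    obtain ⟨x, rfl, hx⟩ := Fin_mem_Sp.1 hg
    rcases hG.kind x.1 hx with h1 | h1
    · exact Or.inr (Or.inl (h.kd_inr h1))
    · exact Or.inr (Or.inr (h.kd_inr h1))
  disj := by
    intro f hf g hg hfg
    obtain ⟨x, rfl, hx⟩ := Fin_mem_Sp.1 hf
    obtain ⟨y, rfl, hy⟩ := Fin_mem_Sp.1 hg
    rw [disjoint_left]
    intro w h1 h2
    have h3 := h.mem_en_inr.1 h1
    have h4 := h.mem_en_inr.1 h2
    exact hfg (congrArg Sum.inr (Subtype.ext (hG.inj x.1 hx y.1 hy (h3.trans h4.symm))))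
  star := by
    intro f hf u hu w
    obtain ⟨x, rfl, hx⟩ := Fin_mem_Sp.1 hf
    exact h.star x u hu w
  keys := by
    intro f hf g hg u hu v hv huv hs
    obtain ⟨x, rfl, hx⟩ := Fin_mem_Sp.1 hf
    obtain ⟨y, rfl, hy⟩ := Fin_mem_Sp.1 hg
    exact h.keys hG x y hx hy u v hu hv huv hs
  load := h.load

end


section

variable {W X : Type} [Fintype W] [DecidableEq W] [Fintype X] [DecidableEq X]
variable {E : Finset (Sym2 W)} {own : X → W} {D : PrepD W X} {k B : ℕ} {d β C θ : ℝ}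

theorem Fin_G_of {V' : Finset W} {gl : W → X}
    (hgl : ∀ w ∈ V', gl w ∈ Fin_LS own D w ∧ (D.kl (gl w) = some 1 ∨ D.kl (gl w) = some 2))
    (hsl : ∀ w ∈ V', ∀ w' ∈ V', (D.sl w).Nonempty → D.sl w = D.sl w' → w = w') :
    Fin_G own D (V'.image gl) ∧ (V'.image gl).card = V'.card := by
  have hown : ∀ w ∈ V', own (gl w) = w := fun w hw => (Fin_mem_LS.1 (hgl w hw).1).1
  refine ⟨⟨?_, ?_, ?_⟩, ?_⟩
  · intro x hx
    obtain ⟨w, hw, rfl⟩ := mem_image.1 hx
    exact (hgl w hw).2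
  · intro x hx y hy hxy
    obtain ⟨w, hw, rfl⟩ := mem_image.1 hx
    obtain ⟨w', hw', rfl⟩ := mem_image.1 hy
    rw [hown w hw, hown w' hw'] at hxy
    rw [hxy]
  · intro x hx y hy h1 h2
    obtain ⟨w, hw, rfl⟩ := mem_image.1 hx
    obtain ⟨w', hw', rfl⟩ := mem_image.1 hy
    rw [hown w hw] at h1
    rw [hown w hw, hown w' hw'] at h2
    rw [hsl w hw w' hw' h1 h2]
  · refine card_image_of_injOn ?_
    intro w hw w' hw' hww
    rw [← hown w hw, ← hown w' hw', hww]

theorem Fin_G.mono {Gx Gx' : Finset X} (hG : Fin_G own D Gx) (hs : Gx' ⊆ Gx) : Fin_G own D Gx' :=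
  ⟨fun x hx => hG.kind x (hs hx), fun x hx y hy => hG.inj x (hs hx) y (hs hy),
    fun x hx y hy => hG.sl x (hs hx) y (hs hy)⟩

/-- choice of the gadgets -/
theorem Fin_H.gadgets (h : Fin_H E own D k B d β C θ) {ε1 : ℝ} (h1 : 0 < ε1) (hθ : θ ≤ ε1 / 10)
    (hcov : ε1 * Fintype.card W ≤ ((univ.filter fun w => (leavesAt own w).Nonempty).card : ℝ))
    (hn : 400 ≤ ε1 * Fintype.card W) :
    ∃ Gx : Finset X, Fin_G own D Gx ∧ ε1 * Fintype.card W / 50 ≤ Gx.card ∧
      10 * Gx.card ≤ D.NL ∧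
      10 * (Gx.filter fun x => (edgesAt E (own x)).Nonempty).card ≤ D.NH := by
  classical
  set n : ℝ := (Fintype.card W : ℝ) with hnn
  set N1 : ℕ := ⌈ε1 * n / 50⌉₊ with hN1
  have hN1a : ε1 * n / 50 ≤ N1 := Nat.le_ceil _
  have hN1b : (N1 : ℝ) < ε1 * n / 50 + 1 := Nat.ceil_lt_add_one (by positivity)
  set R1 : Finset W := D.Rg.filter fun w => (leavesAt own w).Nonempty with hR1
  set Rs : Finset W := R1.filter fun w => edgesAt E w = ∅ with hRs
  set Re : Finset W := R1.filter fun w => ¬ edgesAt E w = ∅ with hRe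
  have hR1c : 9 / 10 * (ε1 * n) ≤ R1.card := by
    have h2 : (univ.filter fun w => (leavesAt own w).Nonempty) ⊆ R1 ∪ (univ \ D.Rg) := by
      intro w hw
      by_cases hr : w ∈ D.Rg
      · exact mem_union_left _ (mem_filter.2 ⟨hr, (mem_filter.1 hw).2⟩)
      · exact mem_union_right _ (mem_sdiff.2 ⟨mem_univ _, hr⟩)
    have h3 := (card_le_card h2).trans (card_union_le _ _)
    have h3' : ((univ.filter fun w => (leavesAt own w).Nonempty).card : ℝ) ≤
        (R1.card : ℝ) + ((univ \ D.Rg).card : ℝ) := by exact_mod_cast h3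
    have h4 := h.ok.irr
    have h5 : θ * n ≤ ε1 / 10 * n := mul_le_mul_of_nonneg_right hθ (by positivity)
    rw [← hnn] at h4
    linarith
  have hch : ∀ w, ∃ x, w ∈ R1 → x ∈ Fin_LS own D w ∧ (D.kl x = some 1 ∨ D.kl x = some 2) := by
    intro w
    by_cases hw : w ∈ R1
    · obtain ⟨h2, h3⟩ := mem_filter.1 hw
      obtain ⟨x, hx, hk⟩ := h.ls_ne h2 h3
      exact ⟨x, fun _ => ⟨hx, hk⟩⟩
    · -- `X` is not empty since `R1` is not empty
      have hne : R1.Nonempty := by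
        rw [← card_pos]
        have h2 : (0 : ℝ) < R1.card := by nlinarith
        exact_mod_cast h2
      obtain ⟨w', hw'⟩ := hne
      obtain ⟨x, hx⟩ := (mem_filter.1 hw').2
      exact ⟨x, fun hc => absurd hc hw⟩
  choose gl hgl using hch
  have hown : ∀ w ∈ R1, own (gl w) = w := fun w hw => (Fin_mem_LS.1 (hgl w hw).1).1
  -- `NL`
  have hNL : R1.card ≤ D.NL := by
    refine card_le_card_of_injOn gl ?_ ?_
    · intro w hw
      exact mem_coe.2 (mem_filter.2 ⟨mem_univ _, (Fin_mem_LS.1 (hgl w hw).1).2⟩)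
    · intro w hw w' hw' hww
      rw [← hown w hw, ← hown w' hw', hww]
  have hNL' : 10 * N1 ≤ D.NL := by
    have h2 : (10 * N1 : ℝ) ≤ R1.card := by nlinarith
    exact (by exact_mod_cast h2 : 10 * N1 ≤ R1.card).trans hNL
  have hsum : Rs.card + Re.card = R1.card := by
    rw [hRs, hRe]
    exact card_filter_add_card_filter_not _
  by_cases hcase : R1.card ≤ 2 * Rs.card
  · -- stars
    have h2 : N1 ≤ Rs.card := by
      have h3 : (R1.card : ℝ) ≤ 2 * Rs.card := by exact_mod_cast hcase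
      have h4 : (N1 : ℝ) ≤ Rs.card := by nlinarith
      exact_mod_cast h4
    obtain ⟨V', hV', hc'⟩ := exists_subset_card_eq h2
    have hV1 : ∀ w ∈ V', w ∈ R1 := fun w hw => (mem_filter.1 (hV' hw)).1
    have hVe : ∀ w ∈ V', edgesAt E w = ∅ := fun w hw => (mem_filter.1 (hV' hw)).2
    obtain ⟨hG, hGc⟩ := Fin_G_of (own := own) (D := D) (V' := V') (gl := gl)
      (fun w hw => hgl w (hV1 w hw)) (fun w hw w' hw' hs _ => by
        rw [h.sl_star (hVe w hw)] at hs
        exact absurd hs (by simp))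
    refine ⟨V'.image gl, hG, ?_, ?_, ?_⟩
    · rw [hGc, hc']
      exact hN1a
    · rw [hGc, hc']
      exact hNL'
    · have h5 : ((V'.image gl).filter fun x => (edgesAt E (own x)).Nonempty) = ∅ := by
        rw [filter_eq_empty_iff]
        intro x hx hc
        obtain ⟨w, hw, rfl⟩ := mem_image.1 hx
        rw [hown w (hV1 w hw), hVe w hw] at hc
        exact absurd hc (by simp)
      rw [h5]
      simp
  · -- vertices with edges
    have hRe2 : R1.card ≤ 2 * Re.card := by omega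
    have hReR : ∀ w ∈ Re, w ∈ D.Rg ∧ (edgesAt E w).Nonempty := fun w hw =>
      ⟨(mem_filter.1 (mem_filter.1 hw).1).1, nonempty_iff_ne_empty.2 (mem_filter.1 hw).2⟩
    have hsne : ∀ w ∈ Re, (D.sl w).Nonempty := fun w hw =>
      h.ok.has_slot w (hReR w hw).1 (hReR w hw).2
    have hfib : Re.card ≤ 2 * (Re.image D.sl).card := by
      refine card_le_mul_card_image _ _ ?_
      intro s hs
      obtain ⟨w0, hw0, rfl⟩ := mem_image.1 hs
      obtain ⟨e, he⟩ := hsne w0 hw0
      refine le_trans (card_le_card ?_) (Fin_sym2_card e univ)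
      intro w hw
      obtain ⟨-, h2⟩ := mem_filter.1 hw
      rw [← h2] at he
      exact mem_filter.2 ⟨mem_univ _, (Fin_mem_sl.1 he).2⟩
    have hFK : Re.card ≤ 2 * D.FK.card := by
      have h2 : Re ⊆ D.FK.biUnion (fun e => Re.filter fun w => w ∈ e) := by
        intro w hw
        obtain ⟨e, he⟩ := hsne w hw
        obtain ⟨h3, h4⟩ := Fin_mem_sl.1 he
        exact mem_biUnion.2 ⟨e, h3, mem_filter.2 ⟨hw, h4⟩⟩
      refine (card_le_card h2).trans (card_biUnion_le.trans ?_)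
      rw [mul_comm]
      exact sum_le_card_nsmul _ _ _ fun e _ => Fin_sym2_card e _
    have h2 : N1 ≤ (Re.image D.sl).card := by
      have h3 : (R1.card : ℝ) ≤ 4 * (Re.image D.sl).card := by
        exact_mod_cast (by omega : R1.card ≤ 4 * (Re.image D.sl).card)
      have h4 : (N1 : ℝ) ≤ (Re.image D.sl).card := by nlinarith
      exact_mod_cast h4
    have hNH : 10 * N1 ≤ D.NH := by
      have h3 : (R1.card : ℝ) ≤ 4 * D.FK.card := by
        exact_mod_cast (by omega : R1.card ≤ 4 * D.FK.card)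
      have h4 : (10 * N1 : ℝ) ≤ D.FK.card := by nlinarith
      exact (by exact_mod_cast h4 : 10 * N1 ≤ D.FK.card).trans h.ok.NH_ge
    obtain ⟨U, hU, hUc⟩ := exists_subset_card_eq h2
    have hr : ∀ s, ∃ w, s ∈ U → w ∈ Re ∧ D.sl w = s := by
      intro s
      by_cases hs : s ∈ U
      · obtain ⟨w, hw, hws⟩ := mem_image.1 (hU hs)
        exact ⟨w, fun _ => ⟨hw, hws⟩⟩
      · have hne : R1.Nonempty := by
          rw [← card_pos]
          have h2 : (0 : ℝ) < R1.card := by nlinarith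
          exact_mod_cast h2
        obtain ⟨w', hw'⟩ := hne
        exact ⟨w', fun hc => absurd hc hs⟩
    choose r hr using hr
    have hV1 : ∀ w ∈ U.image r, w ∈ R1 := by
      intro w hw
      obtain ⟨s, hs, rfl⟩ := mem_image.1 hw
      exact (mem_filter.1 (hr s hs).1).1
    have hUi : (U.image r).card = U.card := by
      refine card_image_of_injOn ?_
      intro s hs s' hs' hss
      rw [← (hr s hs).2, ← (hr s' hs').2, hss]
    obtain ⟨hG, hGc⟩ := Fin_G_of (own := own) (D := D) (V' := U.image r) (gl := gl)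
      (fun w hw => hgl w (hV1 w hw)) (fun w hw w' hw' _ hww => by
        obtain ⟨s, hs, rfl⟩ := mem_image.1 hw
        obtain ⟨s', hs', rfl⟩ := mem_image.1 hw'
        rw [(hr s hs).2, (hr s' hs').2] at hww
        rw [hww])
    refine ⟨(U.image r).image gl, hG, ?_, ?_, ?_⟩
    · rw [hGc, hUi, hUc]
      exact hN1a
    · rw [hGc, hUi, hUc]
      exact hNL'
    · have h5 := card_filter_le ((U.image r).image gl) (fun x => (edgesAt E (own x)).Nonempty)
      rw [hGc, hUi, hUc] at h5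
      omega

/-- the label intervals -/
def Fin_L (D : PrepD W X) : Pools where
  loH := D.loH
  NH := D.NH
  loL := D.loL
  NL := D.NL
  aa := Fintype.card X
  bb := 2 * Fintype.card X + 2 * D.s0 + 1

theorem Fin_NL_le (D : PrepD W X) : D.NL ≤ Fintype.card X := card_le_univ _

open Classical in
theorem Fin_H.lOk (h : Fin_H E own D k B d β C θ) {Gx : Finset X} (hG : Fin_G own D Gx) {κ : ℝ}
    (hβ : 0 < β) (hκ : 0 < κ) (hn1 : 3000 ≤ β * Fintype.card W) (hn2 : 3 ≤ κ * Fintype.card W)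
    (hGL : 10 * Gx.card ≤ D.NL)
    (hGH : 10 * (Gx.filter fun x => (edgesAt E (own x)).Nonempty).card ≤ D.NH) :
    (Fin_L D).Ok h.S (Fin_Sp D Gx) k (Fintype.card W) β C κ := by
  have hNL := Fin_NL_le D
  have hfk : (univ.filter fun f => h.S.kd f = 0).card = D.FK.card := by
    have h1 : (univ.filter fun f => h.S.kd f = 0) =
        (univ : Finset {e // e ∈ D.FK}).image Sum.inl := by
      ext f
      rw [mem_filter, mem_image]
      cases f with
      | inl e => exact ⟨fun _ => ⟨e, mem_univ _, rfl⟩, fun _ => ⟨mem_univ _, rfl⟩⟩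
      | inr x =>
        constructor
        · exact fun hc => absurd hc.2 (h.kd_ne x)
        · rintro ⟨e, -, he⟩
          cases he
    rw [h1, card_image_of_injective _ Sum.inl_injective, card_univ, Fintype.card_coe]
  have hlk : (univ.filter fun f => h.S.kd f ≠ 0).card = D.NL := by
    have h1 : (univ.filter fun f => h.S.kd f ≠ 0) =
        (univ : Finset {x // D.kl x ≠ none}).image Sum.inr := by
      ext f
      rw [mem_filter, mem_image]
      cases f with
      | inl e =>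
        constructor
        · exact fun hc => absurd rfl hc.2
        · rintro ⟨x, -, hx⟩
          cases hx
      | inr x => exact ⟨fun _ => ⟨x, mem_univ _, rfl⟩, fun _ => ⟨mem_univ _, h.kd_ne x⟩⟩
    rw [h1, card_image_of_injective _ Sum.inr_injective, card_univ, Fintype.card_subtype]
    rfl
  have hF : Fintype.card (Fin_F D) = D.FK.card + D.NL := by
    rw [Fintype.card_sum, Fintype.card_coe, Fintype.card_subtype]
    rfl
  refine ⟨?_, ?_, h.ok.wrap, h.ok.pC, ?_, h.ok.bH, h.ok.bL, ?_, ?_, ?_, ?_, ?_, ?_, ?_⟩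
  · show 1 ≤ D.loL
    unfold PrepD.loL
    omega
  · show D.loL + D.NL ≤ D.loH
    have h1 := h.ok.loH1
    unfold PrepD.loL
    omega
  · have h1 : Fintype.card (Fin_F D) ≤ D.p := by
      rw [hF]
      have h2 := h.ok.wrap
      have h3 := h.ok.NH_ge
      nlinarith
    calc (Fintype.card (Fin_F D) : ℝ) ≤ D.p := by exact_mod_cast h1
      _ ≤ C * Fintype.card W := h.ok.pC
  · show (univ.filter fun f => h.S.kd f = 0).card ≤ D.NH
    rw [hfk]
    exact h.ok.NH_ge
  · show (univ.filter fun f => h.S.kd f ≠ 0).card ≤ D.NL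
    rw [hlk]
  · show 10 * _ ≤ D.NH
    refine le_trans (Nat.mul_le_mul_left 10 ?_) hGH
    have hG' : Fin_G own D (Gx.filter fun x => (edgesAt E (own x)).Nonempty) :=
      hG.mono (filter_subset _ _)
    rw [← hG'.Sp_card]
    refine card_le_card ?_
    intro g hg
    obtain ⟨h1, u, hu, f, hf, hfg, hk⟩ := mem_filter.1 hg
    obtain ⟨x, rfl, hx⟩ := Fin_mem_Sp.1 h1
    refine Fin_mem_Sp.2 ⟨x, rfl, mem_filter.2 ⟨hx, ?_⟩⟩
    have h2 := h.mem_en_inr.1 hu
    cases f with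
    | inl e =>
      rw [h2]
      exact h.edge e.2 (h.mem_slots_inl.1 hf)
    | inr y => exact absurd hk (h.kd_ne y)
  · show 10 * (Fin_Sp D Gx).card ≤ D.NL
    rw [hG.Sp_card]
    exact hGL
  · intro t
    show (((univ.filter fun w => h.S.isR w ∧
      ∃ l ∈ Ico D.loH (D.loH + D.NH), h.S.c w + (l : ZMod D.p) = t).card : ℕ) : ℝ) ≤
      5 / 6 * (univ.filter fun w => h.S.isR w).card + D.NH / 1000
    have h1 := h.ok.rst t
    have h2 : (univ.filter fun w => h.S.isR w ∧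
      ∃ l ∈ Ico D.loH (D.loH + D.NH), h.S.c w + (l : ZMod D.p) = t).card ≤
      (D.Rg.filter fun w => leavesAt own w = ∅ ∧ (D.sl w).card = 1 ∧
        ∃ l ∈ Ico D.loH (D.loH + D.NH), D.c own E w + (l : ZMod D.p) = t).card :=
      Fin_cardW_le D _ _ fun w hw => ⟨((h.isR_iff w).1 hw.1).1, ((h.isR_iff w).1 hw.1).2, hw.2⟩
    have h3 : (univ.filter fun w => h.S.isR w).card =
      (D.Rg.filter fun w => leavesAt own w = ∅ ∧ (D.sl w).card = 1).card :=
      Fin_cardW D _ _ fun w => h.isR_iff w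
    have h4 : (6 : ℝ) * (D.Rg.filter fun w => leavesAt own w = ∅ ∧ (D.sl w).card = 1 ∧
        ∃ l ∈ Ico D.loH (D.loH + D.NH), D.c own E w + (l : ZMod D.p) = t).card ≤
        5 * (D.Rg.filter fun w => leavesAt own w = ∅ ∧ (D.sl w).card = 1).card + 18 := by
      have h5 : 6 * (D.Rg.filter fun w => leavesAt own w = ∅ ∧ (D.sl w).card = 1 ∧
        ∃ l ∈ Ico D.loH (D.loH + D.NH), D.c own E w + (l : ZMod D.p) = t).card ≤
        5 * (D.Rg.filter fun w => leavesAt own w = ∅ ∧ (D.sl w).card = 1).card + 18 := by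
        refine (le_of_eq ?_).trans (h1.trans (le_of_eq ?_))
        · congr!
        · congr!
      exact_mod_cast h5
    rw [h3]
    have h6 : ((univ.filter fun w => h.S.isR w ∧
      ∃ l ∈ Ico D.loH (D.loH + D.NH), h.S.c w + (l : ZMod D.p) = t).card : ℝ) ≤
      (D.Rg.filter fun w => leavesAt own w = ∅ ∧ (D.sl w).card = 1 ∧
        ∃ l ∈ Ico D.loH (D.loH + D.NH), D.c own E w + (l : ZMod D.p) = t).card := by
      exact_mod_cast h2
    have h7 := h.ok.bH
    linarith
  · show ((Fintype.card X : ℕ) : ℝ) ≤ 2 * (D.loL : ℕ) + (D.NL : ℕ) + κ * Fintype.card W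
    have h1 : Fintype.card X ≤ 2 * D.loL + D.NL := by
      unfold PrepD.loL
      omega
    have h2 : ((Fintype.card X : ℕ) : ℝ) ≤ 2 * (D.loL : ℕ) + (D.NL : ℕ) := by exact_mod_cast h1
    linarith
  · show (3 * (D.loL : ℕ) + 2 * (D.NL : ℕ) : ℝ) ≤
      ((2 * Fintype.card X + 2 * D.s0 + 1 : ℕ) : ℝ) + κ * Fintype.card W
    have h1 : 3 * D.loL + 2 * D.NL ≤ 2 * Fintype.card X + 3 := by
      unfold PrepD.loL
      omega
    have h2 : (3 * (D.loL : ℕ) + 2 * (D.NL : ℕ) : ℝ) ≤ 2 * Fintype.card X + 3 := by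
      exact_mod_cast h1
    push_cast
    have h3 : (0 : ℝ) ≤ D.s0 := Nat.cast_nonneg _
    linarith

end


/-- extension of an injective labelling -/
theorem Fin_ext {α : Type} [DecidableEq α] (g : α → ℕ) (A0 A1 : Finset α) (hd : Disjoint A0 A1)
    (hi : Set.InjOn g A0) (Bs : Finset ℕ) (hc : A1.card ≤ (Bs \ A0.image g).card) :
    ∃ g' : α → ℕ, (∀ a ∉ A1, g' a = g a) ∧ Set.InjOn g' (A0 ∪ A1 : Finset α) ∧
      ∀ a ∈ A1, g' a ∈ Bs := by
  have h1 : Fintype.card {a // a ∈ A1} ≤ Fintype.card {b // b ∈ Bs \ A0.image g} := by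
    rw [Fintype.card_coe, Fintype.card_coe]
    exact hc
  obtain ⟨φ⟩ := Function.Embedding.nonempty_of_card_le h1
  refine ⟨fun a => if h : a ∈ A1 then (φ ⟨a, h⟩ : ℕ) else g a, ?_, ?_, ?_⟩
  · intro a ha
    simp only [dif_neg ha]
  · intro a ha b hb hab
    have key : ∀ a b, a ∈ A1 → b ∈ A0 ∪ A1 → b ∉ A1 →
        (if h : a ∈ A1 then (φ ⟨a, h⟩ : ℕ) else g a) =
          (if h : b ∈ A1 then (φ ⟨b, h⟩ : ℕ) else g b) → False := by
      intro a b ha hb hb1 hab
      rw [dif_pos ha, dif_neg hb1] at hab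
      have h2 := (mem_sdiff.1 (φ ⟨a, ha⟩).2).2
      rw [hab] at h2
      exact h2 (mem_image_of_mem _ ((mem_union.1 hb).resolve_right hb1))
    by_cases h1 : a ∈ A1
    · by_cases h2 : b ∈ A1
      · simp only [dif_pos h1, dif_pos h2] at hab
        have := φ.injective (Subtype.ext hab)
        exact congrArg Subtype.val this
      · exact absurd (key a b h1 (mem_coe.1 hb) h2 hab) (fun t => t)
    · by_cases h2 : b ∈ A1
      · exact absurd (key b a h2 (mem_coe.1 ha) h1 hab.symm) (fun t => t)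
      · simp only [dif_neg h1, dif_neg h2] at hab
        exact hi (mem_coe.2 ((mem_union.1 (mem_coe.1 ha)).resolve_right h1))
          (mem_coe.2 ((mem_union.1 (mem_coe.1 hb)).resolve_right h2)) hab
  · intro a ha
    simp only [dif_pos ha]
    exact (mem_sdiff.1 (φ ⟨a, ha⟩).2).1

section

variable {W X : Type} [Fintype W] [DecidableEq W] [Fintype X] [DecidableEq X]
variable {E : Finset (Sym2 W)} {own : X → W} {D : PrepD W X} {k B : ℕ} {d β C θ : ℝ}

theorem Fin_H.slots_nonempty (h : Fin_H E own D k B d β C θ) (w : Fin_W D) :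
    (h.S.slots w).Nonempty := by
  rcases h.types w with ⟨f, hf, -⟩ | h1 | ⟨f, g, hf, -⟩ | ⟨f, g, e, hf, -⟩ | ⟨f, g, e, u, hf, -⟩
  · exact ⟨f, by rw [hf]; simp⟩
  · have h2 := h1.1
    obtain ⟨f, hf⟩ := card_pos.1 (lt_of_lt_of_le (by norm_num) h2)
    exact ⟨f, (mem_filter.1 hf).1⟩
  · exact ⟨f, by rw [hf]; simp⟩
  · exact ⟨f, by rw [hf]; simp⟩
  · exact ⟨f, by rw [hf]; simp⟩

/-- dropped slots in `FK` -/
def Fin_dE (E : Finset (Sym2 W)) (own : X → W) (D : PrepD W X) (Im : Finset (Fin_I E own D)) :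
    Finset (Sym2 W) :=
  D.FK.filter fun e => ∀ i : Fin_I E own D, i.1 = Sum.inl (D.pt e) → i ∉ Im

/-- dropped leaf slots -/
def Fin_dX (E : Finset (Sym2 W)) (own : X → W) (D : PrepD W X) (Im : Finset (Fin_I E own D)) :
    Finset X :=
  univ.filter fun x => D.kl x ≠ none ∧
    ∀ i : Fin_I E own D, i.1 = Fin_pw E D (own x) → i ∉ Im

/-- dropped vertices -/
def Fin_dW (E : Finset (Sym2 W)) (own : X → W) (D : PrepD W X) (Im : Finset (Fin_I E own D)) :
    Finset W :=
  D.Rg.filter fun w => ∀ i : Fin_I E own D, i.1 = Fin_pw E D w → i ∉ Im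

variable {Im : Finset (Fin_I E own D)}

theorem Fin_H.mem_dE (h : Fin_H E own D k B d β C θ) {e : {e // e ∈ D.FK}} :
    e.1 ∈ Fin_dE E own D Im ↔ h.S.pt (Sum.inl e) ∉ Im := by
  unfold Fin_dE
  rw [mem_filter]
  constructor
  · rintro ⟨-, h1⟩
    exact h1 _ rfl
  · intro h1
    refine ⟨e.2, fun i hi hc => h1 ?_⟩
    have : i = h.S.pt (Sum.inl e) := Subtype.ext hi
    rw [← this]
    exact hc

theorem Fin_H.mem_dX (h : Fin_H E own D k B d β C θ) {x : {x // D.kl x ≠ none}} :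
    x.1 ∈ Fin_dX E own D Im ↔ h.S.pt (Sum.inr x) ∉ Im := by
  unfold Fin_dX
  rw [mem_filter]
  constructor
  · rintro ⟨-, -, h1⟩
    exact h1 _ rfl
  · intro h1
    refine ⟨mem_univ _, x.2, fun i hi hc => h1 ?_⟩
    have : i = h.S.pt (Sum.inr x) := Subtype.ext hi
    rw [← this]
    exact hc

theorem Fin_H.mem_dW (h : Fin_H E own D k B d β C θ) {w : Fin_W D} :
    w.1 ∈ Fin_dW E own D Im ↔ h.S.vp w ∉ Im := by
  unfold Fin_dW
  rw [mem_filter]
  constructor
  · rintro ⟨-, h1⟩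
    exact h1 _ rfl
  · intro h1
    refine ⟨w.2, fun i hi hc => h1 ?_⟩
    have : i = h.S.vp w := Subtype.ext hi
    rw [← this]
    exact hc

theorem Fin_dE_sub : Fin_dE E own D Im ⊆ D.FK := filter_subset _ _

theorem Fin_H.dF_card (h : Fin_H E own D k B d β C θ) :
    (univ.filter fun f => h.S.pt f ∉ Im).card ≤ k * (univ \ Im).card := by
  classical
  have h1 : (univ.filter fun f => h.S.pt f ∉ Im) ⊆
      (univ \ Im).biUnion fun i => univ.filter fun f => h.S.pt f = i := by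
    intro f hf
    exact mem_biUnion.2 ⟨h.S.pt f, mem_sdiff.2 ⟨mem_univ _, (mem_filter.1 hf).2⟩,
      mem_filter.2 ⟨mem_univ _, rfl⟩⟩
  refine (card_le_card h1).trans (card_biUnion_le.trans ?_)
  rw [mul_comm]
  exact sum_le_card_nsmul _ _ _ fun i _ => h.part_le i

theorem Fin_H.dE_card (h : Fin_H E own D k B d β C θ) :
    (Fin_dE E own D Im).card ≤ k * (univ \ Im).card := by
  refine le_trans ?_ h.dF_card
  have h1 : (Fin_dE E own D Im).card =
      (univ.filter fun e : {e // e ∈ D.FK} => e.1 ∈ Fin_dE E own D Im).card := by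
    symm
    refine card_bij (fun e _ => e.1) ?_ ?_ ?_
    · intro e he
      exact (mem_filter.1 he).2
    · intro e _ e' _ hee
      exact Subtype.ext hee
    · intro e he
      exact ⟨⟨e, Fin_dE_sub he⟩, mem_filter.2 ⟨mem_univ _, he⟩, rfl⟩
  rw [h1]
  refine card_le_card_of_injOn Sum.inl ?_ ?_
  · intro e he
    exact mem_coe.2 (mem_filter.2 ⟨mem_univ _, h.mem_dE.1 (mem_filter.1 (mem_coe.1 he)).2⟩)
  · intro e _ e' _ hee
    exact Sum.inl.inj hee

theorem Fin_H.dW_card (h : Fin_H E own D k B d β C θ) {Gx : Finset X} (hG : Fin_G own D Gx) :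
    (Fin_dW E own D Im).card ≤ 2 * (k * (univ \ Im).card) := by
  classical
  have hS := h.sOk hG
  have h1 : Fin_dW E own D Im ⊆ (univ.filter fun f => h.S.pt f ∉ Im).biUnion
      fun f => (h.S.en f).image Subtype.val := by
    intro w hw
    have hR : w ∈ D.Rg := (mem_filter.1 hw).1
    obtain ⟨f, hf⟩ := h.slots_nonempty ⟨w, hR⟩
    have hf' : (⟨w, hR⟩ : Fin_W D) ∈ h.S.en f := (mem_filter.1 hf).2
    refine mem_biUnion.2 ⟨f, mem_filter.2 ⟨mem_univ _, ?_⟩, mem_image.2 ⟨_, hf', rfl⟩⟩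
    rw [hS.vp_eq f _ hf']
    exact h.mem_dW.1 hw
  refine (card_le_card h1).trans (card_biUnion_le.trans ?_)
  have h2 : ∑ f ∈ univ.filter (fun f => h.S.pt f ∉ Im), ((h.S.en f).image Subtype.val).card ≤
      (univ.filter fun f => h.S.pt f ∉ Im).card • 2 :=
    sum_le_card_nsmul _ _ _ fun f _ => card_image_le.trans (hS.en_le f)
  rw [smul_eq_mul] at h2
  have h3 := h.dF_card (Im := Im)
  omega

/-- the labels of the edges before the extension -/
def Fin_g1 (D : PrepD W X) (lab : Fin_F D → ℕ) (e : Sym2 W) : ℕ :=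
  if h : e ∈ D.FK then lab (Sum.inl ⟨e, h⟩) else D.g0 e

/-- the labels of the leaves before the extension -/
def Fin_l1 (D : PrepD W X) (lab : Fin_F D → ℕ) (x : X) : ℕ :=
  if h : D.kl x ≠ none then lab (Sum.inr ⟨x, h⟩) else D.lam0 x

/-- output of the theorem on part systems -/
structure Fin_O (h : Fin_H E own D k B d β C θ) (Gx : Finset X) (T : Finset (ZMod D.p))
    (lab : Fin_F D → ℕ) (Im : Finset (Fin_I E own D)) (Gd : Bool → Finset (Fin_F D))
    (q : Bool → ℝ) : Prop where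
  hG : Fin_G own D Gx
  out : OutG h.S (Fin_L D) (Fin_Sp D Gx) T lab Im Gd q (B + 3)
  few : ((k * (univ \ Im).card : ℕ) : ℝ) ≤ k * d * Fintype.card W

variable {h : Fin_H E own D k B d β C θ} {Gx : Finset X} {T : Finset (ZMod D.p)}
    {lab : Fin_F D → ℕ} {Gd : Bool → Finset (Fin_F D)} {q : Bool → ℝ}

theorem Fin_O.lab_inl (O : Fin_O h Gx T lab Im Gd q) (e : {e // e ∈ D.FK})
    (he : e.1 ∉ Fin_dE E own D Im) : D.loH ≤ lab (Sum.inl e) ∧ lab (Sum.inl e) < D.loH + D.NH := by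
  rw [h.mem_dE, not_not] at he
  exact O.out.memH _ he rfl

theorem Fin_O.lab_inr (O : Fin_O h Gx T lab Im Gd q) (x : {x // D.kl x ≠ none})
    (hx : x.1 ∉ Fin_dX E own D Im) : D.loL ≤ lab (Sum.inr x) ∧ lab (Sum.inr x) < D.loL + D.NL := by
  rw [h.mem_dX, not_not] at hx
  exact O.out.memL _ hx (h.kd_ne x)

/-- the labels of the edges of `H` -/
theorem Fin_O.edges (O : Fin_O h Gx T lab Im Gd q) :
    ∃ g : Sym2 W → ℕ, (∀ e ∈ E, e ∉ D.Snk → e ∉ Fin_dE E own D Im → g e = Fin_g1 D lab e) ∧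
      Set.InjOn g E ∧
      (∀ e ∈ Fin_dE E own D Im, Fintype.card X < g e ∧ g e ≤ Fintype.card X + D.s0) ∧
      (∀ e ∈ E, Fintype.card X < g e ∧ g e ≤ Fintype.card X + E.card) := by
  classical
  set a := Fintype.card X with ha
  set dE := Fin_dE E own D Im with hdE
  have hok := h.ok
  have hdE1 : dE ⊆ D.FK := Fin_dE_sub
  have hdE2 : dE ⊆ E := hdE1.trans hok.fkE
  have hdEs : Disjoint dE D.Snk := disjoint_of_subset_left hdE1 hok.fk_snk
  set A0 : Finset (Sym2 W) := E \ (D.Snk ∪ dE) with hA0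
  have hA0m : ∀ e, e ∈ A0 ↔ e ∈ E ∧ e ∉ D.Snk ∧ e ∉ dE := by
    intro e
    rw [hA0, mem_sdiff, mem_union, not_or]
  -- values on `A0`
  have hfk : ∀ e, e ∈ D.FK → e ∉ dE → D.loH ≤ Fin_g1 D lab e ∧ Fin_g1 D lab e < D.loH + D.NH := by
    intro e he hd'
    unfold Fin_g1
    rw [dif_pos he]
    exact O.lab_inl ⟨e, he⟩ hd'
  have hnfk : ∀ e, e ∉ D.FK → Fin_g1 D lab e = D.g0 e := by
    intro e he
    unfold Fin_g1
    rw [dif_neg he]
  have hcross : ∀ e e', e ∈ A0 → e' ∈ A0 → e ∈ D.FK → e' ∉ D.FK →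
      Fin_g1 D lab e ≠ Fin_g1 D lab e' := by
    intro e e' he he' h1 h2 hc
    obtain ⟨he1, he2, he3⟩ := (hA0m e).1 he
    obtain ⟨he1', he2', he3'⟩ := (hA0m e').1 he'
    obtain ⟨h3, h4⟩ := hfk e h1 he3
    rw [hc, hnfk e' h2] at h3 h4
    by_cases h5 : e' ∈ D.SE0
    · have := (hok.g_se e' h5).2
      have := hok.loH1
      omega
    · have h6 := (hok.g_bg e' he1' h2 he2' h5).2.2 ⟨e, h1⟩
      omega
  have hinj : Set.InjOn (Fin_g1 D lab) A0 := by
    intro e he e' he' hee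
    have hm := mem_coe.1 he
    have hm' := mem_coe.1 he'
    obtain ⟨he1, he2, he3⟩ := (hA0m e).1 hm
    obtain ⟨he1', he2', he3'⟩ := (hA0m e').1 hm'
    by_cases h1 : e ∈ D.FK
    · by_cases h2 : e' ∈ D.FK
      · unfold Fin_g1 at hee
        rw [dif_pos h1, dif_pos h2] at hee
        have h3 : h.S.pt (Sum.inl ⟨e, h1⟩) ∈ Im := by
          by_contra hc
          exact he3 ((h.mem_dE (e := ⟨e, h1⟩)).2 hc)
        have h4 : h.S.pt (Sum.inl ⟨e', h2⟩) ∈ Im := by
          by_contra hc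
          exact he3' ((h.mem_dE (e := ⟨e', h2⟩)).2 hc)
        exact congrArg Subtype.val (Sum.inl.inj (O.out.inj _ _ h3 h4 hee))
      · exact absurd hee (hcross e e' hm hm' h1 h2)
    · by_cases h2 : e' ∈ D.FK
      · exact absurd hee.symm (hcross e' e hm' hm h2 h1)
      · rw [hnfk e h1, hnfk e' h2] at hee
        refine hok.g_inj ?_ ?_ hee
        · exact mem_coe.2 (mem_sdiff.2 ⟨he1, by rw [mem_union, not_or]; exact ⟨h1, he2⟩⟩)
        · exact mem_coe.2 (mem_sdiff.2 ⟨he1', by rw [mem_union, not_or]; exact ⟨h2, he2'⟩⟩)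
  -- ranges on `A0`
  have hrange : ∀ e ∈ A0, a < Fin_g1 D lab e ∧ Fin_g1 D lab e ≤ a + E.card := by
    intro e he
    obtain ⟨he1, he2, he3⟩ := (hA0m e).1 he
    by_cases h1 : e ∈ D.FK
    · obtain ⟨h3, h4⟩ := hfk e h1 he3
      have h5 := hok.loH2 ⟨e, h1⟩
      have h6 := hok.loH1
      omega
    · rw [hnfk e h1]
      by_cases h5 : e ∈ D.SE0
      · have h6 := hok.g_se e h5
        have h7 := hok.s0_E
        omega
      · have h6 := hok.g_bg e he1 h1 he2 h5
        omega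
  -- step 1
  have hstep1 : dE.card ≤ (Ioc a (a + D.s0) \ A0.image (Fin_g1 D lab)).card := by
    rcases dE.eq_empty_or_nonempty with h0 | ⟨e0, he0⟩
    · rw [h0]; simp
    have hne : D.FK.Nonempty := ⟨e0, hdE1 he0⟩
    have h1 : Ioc a (a + D.s0) \ D.SE0.image D.g0 ⊆
        Ioc a (a + D.s0) \ A0.image (Fin_g1 D lab) := by
      intro y hy
      obtain ⟨h2, h3⟩ := mem_sdiff.1 hy
      refine mem_sdiff.2 ⟨h2, fun hc => h3 ?_⟩
      obtain ⟨e, he, rfl⟩ := mem_image.1 hc
      obtain ⟨he1, he2, he3⟩ := (hA0m e).1 he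
      rw [mem_Ioc] at h2
      by_cases h4 : e ∈ D.FK
      · have h5 := (hfk e h4 he3).1
        have h6 := hok.loH1
        omega
      · rw [hnfk e h4] at h2 ⊢
        by_cases h5 : e ∈ D.SE0
        · exact mem_image_of_mem _ h5
        · have h6 := hok.g_bg e he1 h4 he2 h5
          omega
    refine le_trans ?_ (card_le_card h1)
    have h2 : (Ioc a (a + D.s0)).card - (D.SE0.image D.g0).card ≤
        (Ioc a (a + D.s0) \ D.SE0.image D.g0).card := le_card_sdiff _ _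
    have h3 : (D.SE0.image D.g0).card ≤ D.SE0.card := card_image_le
    rw [Nat.card_Ioc] at h2
    have h4 := hok.s0_eq
    have h5 : dE.card ≤ D.s1 := by
      have h6 : (dE.card : ℝ) ≤ D.s1 := by
        calc (dE.card : ℝ) ≤ ((k * (univ \ Im).card : ℕ) : ℝ) := by
              exact_mod_cast h.dE_card (Im := Im)
          _ ≤ k * d * Fintype.card W := O.few
          _ ≤ D.s1 := hok.spare hne
      exact_mod_cast h6
    omega
  have hdis1 : Disjoint A0 dE := by
    rw [disjoint_left]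
    intro e he hc
    exact ((hA0m e).1 he).2.2 hc
  obtain ⟨g2, hg2a, hg2b, hg2c⟩ := Fin_ext (Fin_g1 D lab) A0 dE hdis1 hinj _ hstep1
  -- step 2
  set A1 : Finset (Sym2 W) := A0 ∪ dE with hA1
  have hA1c : A1 = E \ D.Snk := by
    ext e
    rw [hA1, mem_union, hA0m, mem_sdiff]
    constructor
    · rintro (⟨h1, h2, h3⟩ | h1)
      · exact ⟨h1, h2⟩
      · exact ⟨hdE2 h1, fun hc => disjoint_left.1 hdEs h1 hc⟩
    · rintro ⟨h1, h2⟩
      by_cases h3 : e ∈ dE
      · exact Or.inr h3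
      · exact Or.inl ⟨h1, h2, h3⟩
  have hstep2 : D.Snk.card ≤ (Ioc a (a + E.card) \ A1.image g2).card := by
    have h1 : (Ioc a (a + E.card)).card - (A1.image g2).card ≤
        (Ioc a (a + E.card) \ A1.image g2).card := le_card_sdiff _ _
    have h2 : (A1.image g2).card ≤ A1.card := card_image_le
    have h3 : A1.card = E.card - D.Snk.card := by
      rw [hA1c, card_sdiff_of_subset hok.snkE]
    have h4 := card_le_card hok.snkE
    rw [Nat.card_Ioc] at h1
    omega
  have hdis2 : Disjoint A1 D.Snk := by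
    rw [hA1c]
    exact sdiff_disjoint
  obtain ⟨g3, hg3a, hg3b, hg3c⟩ := Fin_ext g2 A1 D.Snk hdis2 hg2b _ hstep2
  have hA2 : A1 ∪ D.Snk = E := by
    rw [hA1c]
    exact sdiff_union_of_subset hok.snkE
  rw [hA2] at hg3b
  have hval : ∀ e ∈ E, e ∉ D.Snk → e ∉ dE → g3 e = Fin_g1 D lab e := by
    intro e he h1 h2
    rw [hg3a e h1, hg2a e h2]
  have hvald : ∀ e ∈ dE, a < g3 e ∧ g3 e ≤ a + D.s0 := by
    intro e he
    rw [hg3a e (fun hc => disjoint_left.1 hdEs he hc)]
    exact mem_Ioc.1 (hg2c e he)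
  refine ⟨g3, hval, hg3b, hvald, ?_⟩
  intro e he
  by_cases h1 : e ∈ D.Snk
  · exact mem_Ioc.1 (hg3c e h1)
  · by_cases h2 : e ∈ dE
    · have h3 := hvald e h2
      have h4 := hok.s0_E
      omega
    · rw [hval e he h1 h2]
      exact hrange e ((hA0m e).2 ⟨he, h1, h2⟩)

/-- the labels of the leaves -/
theorem Fin_O.leaves (O : Fin_O h Gx T lab Im Gd q) :
    ∃ lam : X → ℕ, (∀ x, x ∉ Fin_dX E own D Im → lam x = Fin_l1 D lab x) ∧
      Function.Injective lam ∧ ∀ x, 1 ≤ lam x ∧ lam x ≤ Fintype.card X := by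
  classical
  set a := Fintype.card X with ha
  set dX := Fin_dX E own D Im with hdX
  have hok := h.ok
  have hNL := Fin_NL_le D
  have hloL : D.loL = 2 * (a - D.NL) / 3 + 1 := rfl
  have hsl : ∀ x, D.kl x ≠ none → x ∉ dX →
      D.loL ≤ Fin_l1 D lab x ∧ Fin_l1 D lab x < D.loL + D.NL := by
    intro x hx hd'
    unfold Fin_l1
    rw [dif_pos hx]
    exact O.lab_inr ⟨x, hx⟩ hd'
  have hns : ∀ x, D.kl x = none → Fin_l1 D lab x = D.lam0 x := by
    intro x hx
    unfold Fin_l1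
    rw [dif_neg (fun hc => hc hx)]
  have hcross : ∀ x y, x ∉ dX → D.kl x ≠ none → D.kl y = none →
      Fin_l1 D lab x ≠ Fin_l1 D lab y := by
    intro x y hx h1 h2 hc
    have h3 := hsl x h1 hx
    rw [hc, hns y h2] at h3
    have h4 := (hok.lam_mem y h2).2.2
    omega
  have hinj : Set.InjOn (Fin_l1 D lab) (univ \ dX : Finset X) := by
    intro x hx y hy hxy
    have hx' := (mem_sdiff.1 (mem_coe.1 hx)).2
    have hy' := (mem_sdiff.1 (mem_coe.1 hy)).2
    by_cases h1 : D.kl x = none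
    · by_cases h2 : D.kl y = none
      · rw [hns x h1, hns y h2] at hxy
        exact hok.lam_inj h1 h2 hxy
      · exact absurd hxy.symm (hcross y x hy' h2 h1)
    · by_cases h2 : D.kl y = none
      · exact absurd hxy (hcross x y hx' h1 h2)
      · unfold Fin_l1 at hxy
        rw [dif_pos h1, dif_pos h2] at hxy
        have h3 : h.S.pt (Sum.inr ⟨x, h1⟩) ∈ Im := by
          by_contra hc
          exact hx' ((h.mem_dX (x := ⟨x, h1⟩)).2 hc)
        have h4 : h.S.pt (Sum.inr ⟨y, h2⟩) ∈ Im := by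
          by_contra hc
          exact hy' ((h.mem_dX (x := ⟨y, h2⟩)).2 hc)
        exact congrArg Subtype.val (Sum.inr.inj (O.out.inj _ _ h3 h4 hxy))
  have hrange : ∀ x, x ∉ dX → 1 ≤ Fin_l1 D lab x ∧ Fin_l1 D lab x ≤ a := by
    intro x hx
    by_cases h1 : D.kl x = none
    · rw [hns x h1]
      have h2 := hok.lam_mem x h1
      exact ⟨h2.1, h2.2.1⟩
    · have h2 := hsl x h1 hx
      rw [hloL] at h2
      omega
  have hstep : dX.card ≤ (Icc 1 a \ (univ \ dX).image (Fin_l1 D lab)).card := by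
    have h1 : (Icc 1 a).card - ((univ \ dX).image (Fin_l1 D lab)).card ≤
        (Icc 1 a \ (univ \ dX).image (Fin_l1 D lab)).card := le_card_sdiff _ _
    have h2 : ((univ \ dX).image (Fin_l1 D lab)).card ≤ (univ \ dX).card := card_image_le
    have h3 : (univ \ dX).card = a - dX.card := by
      rw [card_sdiff_of_subset (subset_univ _), card_univ]
    have h4 : dX.card ≤ a := card_le_univ _
    rw [Nat.card_Icc] at h1
    omega
  obtain ⟨lam, hl1, hl2, hl3⟩ := Fin_ext (Fin_l1 D lab) (univ \ dX) dX sdiff_disjoint hinj _ hstep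
  rw [sdiff_union_of_subset (subset_univ _)] at hl2
  refine ⟨lam, hl1, ?_, ?_⟩
  · intro x y hxy
    exact hl2 (by simp) (by simp) hxy
  · intro x
    by_cases hx : x ∈ dX
    · exact mem_Icc.1 (hl3 x hx)
    · rw [hl1 x hx]
      exact hrange x hx

/-- the sum at kept vertices -/
theorem Fin_O.sum (O : Fin_O h Gx T lab Im Gd q) {g : Sym2 W → ℕ} {lam : X → ℕ}
    (hg : ∀ e ∈ E, e ∉ D.Snk → e ∉ Fin_dE E own D Im → g e = Fin_g1 D lab e)
    (hl : ∀ x, x ∉ Fin_dX E own D Im → lam x = Fin_l1 D lab x) (w : Fin_W D)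
    (hw : h.S.vp w ∈ Im) : wsum own E lam g w.1 = h.S.rsum lab w := by
  have hS := h.sOk O.hG
  have hsnk : ∀ e ∈ edgesAt E w.1, e ∉ D.Snk := fun e he hc =>
    h.ok.snk_irr e hc w.1 (Fin_mem_edgesAt.1 he).2 w.2
  have hfkk : ∀ e (he : e ∈ D.FK), w.1 ∈ e → e ∉ Fin_dE E own D Im := by
    intro e he hwe hc
    have h1 := (h.mem_dE (e := ⟨e, he⟩)).1 hc
    have h2 := hS.vp_eq (Sum.inl ⟨e, he⟩) w (h.mem_en_inl.2 hwe)
    rw [h2] at h1
    exact h1 hw
  have hxk : ∀ x, own x = w.1 → x ∉ Fin_dX E own D Im := by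
    intro x hx hc
    have hk : D.kl x ≠ none := (mem_filter.1 hc).2.1
    have h1 := (h.mem_dX (x := ⟨x, hk⟩)).1 hc
    have h2 := hS.vp_eq (Sum.inr ⟨x, hk⟩) w (h.mem_en_inr.2 hx)
    rw [h2] at h1
    exact h1 hw
  have h1 : ∑ f ∈ h.S.slots w, lab f = ∑ x ∈ Fin_LS own D w.1, lam x + ∑ e ∈ D.sl w.1, g e := by
    refine h.slots_sum w lab lam g ?_ ?_
    · intro x hx
      rw [hl x.1 (hxk x.1 hx)]
      unfold Fin_l1
      rw [dif_pos x.2]
    · intro e he
      rw [hg e.1 (h.ok.fkE e.2) (hsnk e.1 (Fin_mem_edgesAt.2 ⟨h.ok.fkE e.2, he⟩))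
        (hfkk e.1 e.2 he)]
      unfold Fin_g1
      rw [dif_pos e.2]
  unfold PSG.rsum wsum
  rw [h1]
  show _ = Fin_cr E own D w.1 + _
  unfold Fin_cr
  have h2 : ∑ x ∈ leavesAt own w.1, lam x =
      ∑ x ∈ (leavesAt own w.1).filter (fun x => D.kl x = none), D.lam0 x +
        ∑ x ∈ Fin_LS own D w.1, lam x := by
    rw [← sum_filter_add_sum_filter_not (leavesAt own w.1) (fun x => D.kl x = none)]
    congr 1
    refine sum_congr rfl fun x hx => ?_
    obtain ⟨h3, h4⟩ := mem_filter.1 hx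
    rw [hl x (hxk x (Fin_mem_leavesAt.1 h3))]
    unfold Fin_l1
    rw [dif_neg (fun hc => hc h4)]
  have h3 : ∑ e ∈ edgesAt E w.1, g e =
      ∑ e ∈ (edgesAt E w.1).filter (fun e => e ∉ D.FK), D.g0 e + ∑ e ∈ D.sl w.1, g e := by
    rw [← sum_filter_add_sum_filter_not (edgesAt E w.1) (fun e => e ∉ D.FK)]
    congr 1
    · refine sum_congr rfl fun e he => ?_
      obtain ⟨h4, h5⟩ := mem_filter.1 he
      rw [hg e (Fin_mem_edgesAt.1 h4).1 (hsnk e h4) (fun hc => h5 (Fin_dE_sub hc))]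
      unfold Fin_g1
      rw [dif_neg h5]
    · refine sum_congr ?_ fun _ _ => rfl
      ext e
      rw [mem_filter, not_not, Fin_mem_edgesAt, Fin_mem_sl]
      constructor
      · rintro ⟨⟨h4, h5⟩, h6⟩
        exact ⟨h6, h5⟩
      · rintro ⟨h4, h5⟩
        exact ⟨⟨h.ok.fkE h4, h5⟩, h4⟩
  rw [h2, h3]
  omega

end


section

variable {W X : Type} [Fintype W] [DecidableEq W] [Fintype X] [DecidableEq X]
variable {E : Finset (Sym2 W)} {own : X → W} {D : PrepD W X} {k B : ℕ} {d β C θ : ℝ}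
variable {h : Fin_H E own D k B d β C θ} {Gx : Finset X} {T : Finset (ZMod D.p)}
    {lab : Fin_F D → ℕ} {Im : Finset (Fin_I E own D)} {Gd : Bool → Finset (Fin_F D)}
    {q : Bool → ℝ}

/-- the final labels -/
structure Fin_P (h : Fin_H E own D k B d β C θ) (Gx : Finset X) (T : Finset (ZMod D.p))
    (lab : Fin_F D → ℕ) (Im : Finset (Fin_I E own D)) (Gd : Bool → Finset (Fin_F D))
    (q : Bool → ℝ) (g : Sym2 W → ℕ) (lam : X → ℕ) : Prop where
  O : Fin_O h Gx T lab Im Gd q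
  g1 : ∀ e ∈ E, e ∉ D.Snk → e ∉ Fin_dE E own D Im → g e = Fin_g1 D lab e
  g_inj : Set.InjOn g E
  gd : ∀ e ∈ Fin_dE E own D Im, Fintype.card X < g e ∧ g e ≤ Fintype.card X + D.s0
  g_mem : ∀ e ∈ E, Fintype.card X < g e ∧ g e ≤ Fintype.card X + E.card
  l1 : ∀ x, x ∉ Fin_dX E own D Im → lam x = Fin_l1 D lab x
  l_inj : Function.Injective lam
  l_mem : ∀ x, 1 ≤ lam x ∧ lam x ≤ Fintype.card X

variable {g : Sym2 W → ℕ} {lam : X → ℕ}

/-- regular vertices at the end -/
def Fin_R (E : Finset (Sym2 W)) (own : X → W) (D : PrepD W X) (Im : Finset (Fin_I E own D))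
    (g : Sym2 W → ℕ) (lam : X → ℕ) : Finset W :=
  D.Rg.filter fun w => w ∉ Fin_dW E own D Im ∧
    (edgesAt E w = ∅ → Fintype.card X + D.s0 < wsum own E lam g w)

theorem Fin_mem_R {w : W} : w ∈ Fin_R E own D Im g lam ↔ w ∈ D.Rg ∧ w ∉ Fin_dW E own D Im ∧
    (edgesAt E w = ∅ → Fintype.card X + D.s0 < wsum own E lam g w) := by
  unfold Fin_R
  rw [mem_filter]

theorem Fin_P.vp_mem (P : Fin_P h Gx T lab Im Gd q g lam) {w : W} (hw : w ∈ D.Rg)
    (hd : w ∉ Fin_dW E own D Im) : h.S.vp ⟨w, hw⟩ ∈ Im := by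
  by_contra hc
  exact hd ((h.mem_dW (w := ⟨w, hw⟩)).2 hc)

theorem Fin_P.sum (P : Fin_P h Gx T lab Im Gd q g lam) (w : Fin_W D)
    (hw : h.S.vp w ∈ Im) : wsum own E lam g w.1 = h.S.rsum lab w :=
  P.O.sum P.g1 P.l1 w hw

theorem Fin_P.zsum (P : Fin_P h Gx T lab Im Gd q g lam) (w : Fin_W D)
    (hw : h.S.vp w ∈ Im) : wz D.p own E lam g w.1 = h.S.sum lab w := by
  unfold wz
  rw [P.sum w hw]
  unfold PSG.rsum PSG.sum
  show ((Fin_cr E own D w.1 + ∑ f ∈ h.S.slots w, lab f : ℕ) : ZMod D.p) =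
    D.c own E w.1 + ∑ f ∈ h.S.slots w, (lab f : ZMod D.p)
  unfold PrepD.c Fin_cr
  push_cast
  rfl

/-- slots at kept vertices are kept -/
theorem Fin_P.fk_kept (P : Fin_P h Gx T lab Im Gd q g lam) {w : W} (hw : w ∈ D.Rg)
    (hd : w ∉ Fin_dW E own D Im) {e : Sym2 W} (he : e ∈ D.FK) (hwe : w ∈ e) :
    e ∉ Fin_dE E own D Im := by
  intro hc
  have h1 := (h.mem_dE (e := ⟨e, he⟩)).1 hc
  have h2 := (h.sOk P.O.hG).vp_eq (Sum.inl ⟨e, he⟩) ⟨w, hw⟩ (h.mem_en_inl.2 hwe)
  rw [h2] at h1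
  exact h1 (P.vp_mem hw hd)

/-- labels of edges at kept vertices are large -/
theorem Fin_P.big (P : Fin_P h Gx T lab Im Gd q g lam) {w : W} (hw : w ∈ D.Rg)
    (hd : w ∉ Fin_dW E own D Im) {e : Sym2 W} (he : e ∈ edgesAt E w) :
    Fintype.card X + D.s0 < g e := by
  obtain ⟨h1, h2⟩ := Fin_mem_edgesAt.1 he
  have h3 : e ∉ D.Snk := fun hc => h.ok.snk_irr e hc w h2 hw
  have h4 : e ∉ D.SE0 := fun hc => h.ok.se_irr e hc w h2 hw
  by_cases h5 : e ∈ D.FK
  · have h6 := P.fk_kept hw hd h5 h2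
    rw [P.g1 e h1 h3 h6]
    unfold Fin_g1
    rw [dif_pos h5]
    have h7 := (P.O.lab_inl ⟨e, h5⟩ h6).1
    have h8 := h.ok.loH1
    omega
  · rw [P.g1 e h1 h3 (fun hc => h5 (Fin_dE_sub hc))]
    unfold Fin_g1
    rw [dif_neg h5]
    exact (h.ok.g_bg e h1 h5 h3 h4).1

/-- two edges give a large sum -/
theorem Fin_P.two (P : Fin_P h Gx T lab Im Gd q g lam) {w : W} (hw : w ∈ D.Rg)
    (hd : w ∉ Fin_dW E own D Im) (hc : 2 ≤ (edgesAt E w).card) :
    2 * Fintype.card X + 2 * D.s0 + 1 < wsum own E lam g w := by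
  obtain ⟨e1, e2, he1, he2, hne⟩ : ∃ e1 e2, e1 ∈ edgesAt E w ∧ e2 ∈ edgesAt E w ∧ e1 ≠ e2 :=
    one_lt_card_iff.1 hc
  have h1 := P.big hw hd he1
  have h2 := P.big hw hd he2
  have h3 : g e1 ≠ g e2 := fun hc => hne (P.g_inj (mem_coe.2 (Fin_mem_edgesAt.1 he1).1)
    (mem_coe.2 (Fin_mem_edgesAt.1 he2).1) hc)
  have h4 : g e1 + g e2 ≤ ∑ e ∈ edgesAt E w, g e := by
    rw [← sum_pair hne]
    refine sum_le_sum_of_subset ?_
    intro e he
    rw [mem_insert, mem_singleton] at he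
    rcases he with rfl | rfl
    · exact he1
    · exact he2
  unfold wsum
  omega

/-- small sums -/
theorem Fin_P.low (P : Fin_P h Gx T lab Im Gd q g lam) {w : W} (hw : w ∈ D.Rg)
    (hd : w ∉ Fin_dW E own D Im) :
    ((leavesAt own w).Nonempty ∧ wsum own E lam g w ≤ 2 * Fintype.card X + 2 * D.s0 + 1) ↔
      h.S.isLow (Fin_L D) lab ⟨w, hw⟩ := by
  have hs := P.sum ⟨w, hw⟩ (P.vp_mem hw hd)
  unfold PSG.isLow
  rw [← hs]
  show _ ↔ (⟨w, hw⟩ : Fin_W D) ∈ univ.filter _ ∧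
    wsum own E lam g w ≤ 2 * Fintype.card X + 2 * D.s0 + 1
  rw [mem_filter]
  constructor
  · rintro ⟨h1, h2⟩
    refine ⟨⟨mem_univ _, h1, ?_⟩, h2⟩
    by_contra hc
    have hc' : ¬ (edgesAt E w).card ≤ 1 := hc
    have := P.two hw hd (by omega)
    omega
  · rintro ⟨⟨-, h1, -⟩, h2⟩
    exact ⟨h1, h2⟩

theorem Fin_P.sinj (P : Fin_P h Gx T lab Im Gd q g lam) {w w' : W} (hw : w ∈ D.Rg)
    (hd : w ∉ Fin_dW E own D Im) (hw' : w' ∈ D.Rg) (hd' : w' ∉ Fin_dW E own D Im)
    (hl : ((leavesAt own w).Nonempty ∧ wsum own E lam g w ≤ 2 * Fintype.card X + 2 * D.s0 + 1) ↔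
      ((leavesAt own w').Nonempty ∧ wsum own E lam g w' ≤ 2 * Fintype.card X + 2 * D.s0 + 1))
    (hz : wz D.p own E lam g w = wz D.p own E lam g w') : w = w' := by
  have h1 : wz D.p own E lam g w = h.S.sum lab ⟨w, hw⟩ := P.zsum ⟨w, hw⟩ (P.vp_mem hw hd)
  have h2 : wz D.p own E lam g w' = h.S.sum lab ⟨w', hw'⟩ := P.zsum ⟨w', hw'⟩ (P.vp_mem hw' hd')
  rw [P.low hw hd, P.low hw' hd'] at hl
  rw [h1, h2] at hz
  exact congrArg Subtype.val (P.O.out.sinj _ _ (P.vp_mem hw hd) (P.vp_mem hw' hd') hl hz)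

/-- sums at kept stars -/
theorem Fin_P.star_gt (P : Fin_P h Gx T lab Im Gd q g lam) {w : W} (hw : w ∈ D.Rg)
    (hd : w ∉ Fin_dW E own D Im) (he : edgesAt E w = ∅) :
    Fintype.card X < wsum own E lam g w := by
  have h1 : wsum own E lam g w = h.S.rsum lab ⟨w, hw⟩ := P.sum ⟨w, hw⟩ (P.vp_mem hw hd)
  rw [h1]
  rcases (h.st3 w he).lt_or_eq with h3 | h3
  · exact P.O.out.star4 ⟨w, hw⟩ (P.vp_mem hw hd) ((h.isS4_iff _).2 ⟨he, h3⟩)
  · exact (P.O.out.star3 ⟨w, hw⟩ (P.vp_mem hw hd) ((h.isS3_iff _).2 ⟨he, h3.symm⟩)).1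

theorem Fin_H.star_leaves (h : Fin_H E own D k B d β C θ) {w : W} (he : edgesAt E w = ∅) :
    (leavesAt own w).Nonempty := by
  rw [← card_pos]
  have := h.st3 w he
  omega

/-- few stars have a sum in `(a, a + s0]` -/
theorem Fin_P.small (P : Fin_P h Gx T lab Im Gd q g lam) :
    (D.Rg.filter fun w => w ∉ Fin_dW E own D Im ∧ edgesAt E w = ∅ ∧
      wsum own E lam g w ≤ Fintype.card X + D.s0).card ≤ D.s0 := by
  have h1 : (D.Rg.filter fun w => w ∉ Fin_dW E own D Im ∧ edgesAt E w = ∅ ∧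
      wsum own E lam g w ≤ Fintype.card X + D.s0).card ≤
      (Ioc (Fintype.card X) (Fintype.card X + D.s0)).card := by
    refine card_le_card_of_injOn (wsum own E lam g) ?_ ?_
    · intro w hw
      obtain ⟨h1, h2, h3, h4⟩ := mem_filter.1 (mem_coe.1 hw)
      exact mem_coe.2 (mem_Ioc.2 ⟨P.star_gt h1 h2 h3, h4⟩)
    · intro w hw w' hw' hww
      obtain ⟨h1, h2, h3, h4⟩ := mem_filter.1 (mem_coe.1 hw)
      obtain ⟨h1', h2', h3', h4'⟩ := mem_filter.1 (mem_coe.1 hw')
      refine P.sinj h1 h2 h1' h2' ?_ ?_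
      · refine ⟨fun _ => ⟨h.star_leaves h3', by omega⟩, fun _ => ⟨h.star_leaves h3, by omega⟩⟩
      · unfold wz
        have hww' : wsum own E lam g w = wsum own E lam g w' := hww
        rw [hww']
  rw [Nat.card_Ioc] at h1
  omega

/-- the irregular vertices at the end -/
theorem Fin_P.irr (P : Fin_P h Gx T lab Im Gd q g lam) :
    (univ \ Fin_R E own D Im g lam).card ≤
      (univ \ D.Rg).card + (Fin_dW E own D Im).card + D.s0 := by
  have h1 : univ \ Fin_R E own D Im g lam ⊆ ((univ \ D.Rg) ∪ Fin_dW E own D Im) ∪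
      (D.Rg.filter fun w => w ∉ Fin_dW E own D Im ∧ edgesAt E w = ∅ ∧
        wsum own E lam g w ≤ Fintype.card X + D.s0) := by
    intro w hw
    have h2 := (mem_sdiff.1 hw).2
    rw [Fin_mem_R] at h2
    rw [mem_union, mem_union, mem_sdiff, mem_filter]
    by_cases h3 : w ∈ D.Rg
    · by_cases h4 : w ∈ Fin_dW E own D Im
      · exact Or.inl (Or.inr h4)
      · right
        refine ⟨h3, h4, ?_⟩
        by_contra hc
        apply h2
        refine ⟨h3, h4, fun he => ?_⟩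
        by_contra hc2
        exact hc ⟨he, by omega⟩
    · exact Or.inl (Or.inl ⟨mem_univ _, h3⟩)
  have h2 := card_le_card h1
  have h3 := card_union_le ((univ \ D.Rg) ∪ Fin_dW E own D Im)
      (D.Rg.filter fun w => w ∉ Fin_dW E own D Im ∧ edgesAt E w = ∅ ∧
        wsum own E lam g w ≤ Fintype.card X + D.s0)
  have h4 := card_union_le (univ \ D.Rg) (Fin_dW E own D Im)
  have h5 := P.small
  omega

/-- the exchangeable edges -/
def Fin_SE (E : Finset (Sym2 W)) (own : X → W) (D : PrepD W X) (Im : Finset (Fin_I E own D)) :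
    Finset (Sym2 W) := D.SE0 ∪ Fin_dE E own D Im

/-- covering of the irregular vertices -/
theorem Fin_P.cov (P : Fin_P h Gx T lab Im Gd q g lam) {w : W}
    (hw : w ∉ Fin_R E own D Im g lam) (hl : leavesAt own w = ∅) :
    ∃ e ∈ Fin_SE E own D Im, w ∈ e ∧
      ((∃ e' ∈ Fin_SE E own D Im, e' ≠ e ∧ ∃ v, v ∈ e ∧ v ∈ e') ∨
        ∃ v ∈ e, v ∉ Fin_R E own D Im g lam ∧ (leavesAt own v).Nonempty) := by
  have hRsub : ∀ v, v ∉ D.Rg → v ∉ Fin_R E own D Im g lam := fun v hv hc =>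
    hv (Fin_mem_R.1 hc).1
  by_cases hR : w ∈ D.Rg
  · -- `w` is in a dropped part
    have he : (edgesAt E w).Nonempty := by
      by_contra hc
      have := h.star_leaves (not_nonempty_iff_eq_empty.1 hc)
      rw [hl] at this
      exact absurd this (by simp)
    have hdW : w ∈ Fin_dW E own D Im := by
      by_contra hc
      exact hw (Fin_mem_R.2 ⟨hR, hc, fun h1 => absurd h1 he.ne_empty⟩)
    -- slots of dropped vertices are dropped
    have hdrop : ∀ v ∈ Fin_dW E own D Im, ∀ e ∈ D.FK, v ∈ e → e ∈ Fin_dE E own D Im := by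
      intro v hv e h1 h2
      have hvR : v ∈ D.Rg := (mem_filter.1 hv).1
      have h3 := (h.sOk P.O.hG).vp_eq (Sum.inl ⟨e, h1⟩) ⟨v, hvR⟩ (h.mem_en_inl.2 h2)
      refine (h.mem_dE (e := ⟨e, h1⟩)).2 ?_
      rw [h3]
      exact (h.mem_dW (w := ⟨v, hvR⟩)).1 hv
    obtain ⟨e, hes⟩ := h.ok.has_slot w hR he
    obtain ⟨he1, he2⟩ := Fin_mem_sl.1 hes
    have hedE := hdrop w hdW e he1 he2
    refine ⟨e, mem_union_right _ hedE, he2, ?_⟩
    -- the other end
    obtain ⟨y, hy⟩ := Sym2.mem_iff_exists.1 he2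
    have hye : y ∈ e := by rw [hy]; exact Sym2.mem_mk_right _ _
    by_cases hyR : y ∈ D.Rg
    · have hydW : y ∈ Fin_dW E own D Im := by
        have h3 := (h.sOk P.O.hG).vp_eq (Sum.inl ⟨e, he1⟩) ⟨y, hyR⟩ (h.mem_en_inl.2 hye)
        have h4 := (h.mem_dE (e := ⟨e, he1⟩)).1 hedE
        rw [h3] at h4
        exact (h.mem_dW (w := ⟨y, hyR⟩)).2 h4
      rcases (leavesAt own y).eq_empty_or_nonempty with hyl | hyl
      · -- both ends have no leaves
        left
        by_contra hcon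
        push Not at hcon
        -- then `sl w = {e}` and `sl y = {e}`
        have key : ∀ v ∈ Fin_dW E own D Im, v ∈ e → D.sl v = {e} := by
          intro v hv hve
          ext e'
          rw [mem_singleton]
          constructor
          · intro h5
            obtain ⟨h6, h7⟩ := Fin_mem_sl.1 h5
            by_contra hne
            exact hcon e' (mem_union_right _ (hdrop v hv e' h6 h7)) hne v hve h7
          · rintro rfl
            exact Fin_mem_sl.2 ⟨he1, hve⟩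
        have h8 := key w hdW he2
        have h9 := key y hydW hye
        by_cases hwy : w = y
        · refine absurd ?_ (h.nl e (h.ok.fkE he1))
          rw [hy, hwy]
          exact Sym2.mk_isDiag_iff.2 rfl
        · have h10 := (h.ok.slots_ne w hR y hyR hwy ⟨e, hes⟩ (h8.trans h9.symm)).1
          rw [hl] at h10
          exact absurd h10 (by simp)
      · right
        refine ⟨y, hye, ?_, hyl⟩
        intro hc
        exact (Fin_mem_R.1 hc).2.1 hydW
    · left
      obtain ⟨e', he', hye'⟩ := h.ok.hub_cov e he1 y hye hyR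
      refine ⟨e', mem_union_left _ he', ?_, y, hye, hye'⟩
      rintro rfl
      exact disjoint_left.1 h.ok.fk_se he1 he'
  · obtain ⟨e, he, hwe, h1⟩ := h.ok.cov w hR hl
    refine ⟨e, mem_union_left _ he, hwe, ?_⟩
    rcases h1 with ⟨e', he', hne, v, hv⟩ | ⟨v, hv, h2, h3⟩
    · exact Or.inl ⟨e', mem_union_left _ he', hne, v, hv⟩
    · exact Or.inr ⟨v, hv, hRsub v h2, h3⟩

end


section

variable {W X : Type} [Fintype W] [DecidableEq W] [Fintype X] [DecidableEq X]
variable {E : Finset (Sym2 W)} {own : X → W} {D : PrepD W X} {k B : ℕ} {d β C θ : ℝ}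
variable {h : Fin_H E own D k B d β C θ} {Gx : Finset X} {T : Finset (ZMod D.p)}
    {lab : Fin_F D → ℕ} {Im : Finset (Fin_I E own D)} {Gd : Bool → Finset (Fin_F D)}
    {q : Bool → ℝ} {g : Sym2 W → ℕ} {lam : X → ℕ}

/-- the condition on a gadget leaf -/
def Fin_gc (E : Finset (Sym2 W)) (own : X → W) (D : PrepD W X) (Im : Finset (Fin_I E own D))
    (g : Sym2 W → ℕ) (lam : X → ℕ) (x : X) : Prop :=
  own x ∈ Fin_R E own D Im g lam ∧ Fintype.card X + D.s0 < 2 * lam x ∧
    (edgesAt E (own x) = ∅ → Fintype.card X + D.s0 + lam x < wsum own E lam g (own x))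

/-- the gadget leaves at the end -/
noncomputable def Fin_Gd (E : Finset (Sym2 W)) (own : X → W) (D : PrepD W X)
    (Im : Finset (Fin_I E own D)) (Gd : Bool → Finset (Fin_F D)) (g : Sym2 W → ℕ) (lam : X → ℕ) :
    Finset X :=
  @Finset.filter X (fun x => (∃ hx : D.kl x ≠ none, (Sum.inr ⟨x, hx⟩ : Fin_F D) ∈ Gd false) ∧
    Fin_gc E own D Im g lam x) (Classical.decPred _) univ

theorem Fin_mem_Gd {x : X} : x ∈ Fin_Gd E own D Im Gd g lam ↔
    (∃ hx : D.kl x ≠ none, (Sum.inr ⟨x, hx⟩ : Fin_F D) ∈ Gd false) ∧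
      Fin_gc E own D Im g lam x := by
  refine (@mem_filter X _ (Classical.decPred _) univ x).trans ?_
  exact ⟨fun t => t.2, fun t => ⟨mem_univ _, t⟩⟩

/-- facts on gadget slots -/
theorem Fin_P.gfact (P : Fin_P h Gx T lab Im Gd q g lam) {x : {x // D.kl x ≠ none}}
    (hx : Sum.inr x ∈ Gd false) :
    x.1 ∈ Gx ∧ own x.1 ∈ D.Rg ∧ own x.1 ∉ Fin_dW E own D Im ∧ x.1 ∉ Fin_dX E own D Im ∧
      lam x.1 = lab (Sum.inr x) ∧ D.loL ≤ lam x.1 ∧ lam x.1 < D.loL + D.NL ∧
      Fintype.card X < 2 * lam x.1 := by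
  have h1 : x.1 ∈ Gx := by
    obtain ⟨y, hy, hyG⟩ := Fin_mem_Sp.1 (P.O.out.gsub false hx)
    rw [Sum.inr.inj hy]
    exact hyG
  have h2 := P.O.out.gIm false _ hx
  have h3 := h.own_Rg x.2
  have h4 : x.1 ∉ Fin_dX E own D Im := fun hc => (h.mem_dX (x := x)).1 hc h2
  have h5 : own x.1 ∉ Fin_dW E own D Im := by
    intro hc
    have h6 := (h.mem_dW (w := ⟨own x.1, h3⟩)).1 hc
    have h7 := (h.sOk P.O.hG).vp_eq (Sum.inr x) ⟨own x.1, h3⟩ (h.mem_en_inr.2 rfl)
    rw [← h7] at h6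
    exact h6 h2
  have h6 : lam x.1 = lab (Sum.inr x) := by
    rw [P.l1 x.1 h4]
    unfold Fin_l1
    rw [dif_pos x.2]
  have h7 := P.O.lab_inr x h4
  have h8 : Fintype.card X < 2 * lab (Sum.inr x) := (P.O.out.gL _ hx).2
  rw [← h6] at h7 h8
  exact ⟨h1, h3, h5, h4, h6, h7.1, h7.2, h8⟩

theorem Fin_P.kz (P : Fin_P h Gx T lab Im Gd q g lam) {x : {x // D.kl x ≠ none}}
    (hx : Sum.inr x ∈ Gd false) :
    ∃ u : Fin_W D, u ∈ h.S.en (Sum.inr x) ∧ u.1 = own x.1 ∧
      wz D.p own E lam g (own x.1) = h.S.sum lab u ∧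
      wsum own E lam g (own x.1) = h.S.rsum lab u := by
  obtain ⟨-, h2, h3, -⟩ := P.gfact hx
  exact ⟨⟨own x.1, h2⟩, h.mem_en_inr.2 rfl, rfl, P.zsum ⟨own x.1, h2⟩ (P.vp_mem h2 h3),
    P.sum ⟨own x.1, h2⟩ (P.vp_mem h2 h3)⟩

/-- keys -/
theorem Fin_P.key (P : Fin_P h Gx T lab Im Gd q g lam) (y : ZMod D.p) :
    ((Fin_Gd E own D Im Gd g lam).filter fun x =>
      wz D.p own E lam g (own x) - (lam x : ZMod D.p) = y).card ≤ 3 := by
  classical
  have h1 := P.O.out.key false y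
  rw [if_neg (by decide)] at h1
  refine le_trans ?_ h1
  rcases isEmpty_or_nonempty X with hX | ⟨⟨x0⟩⟩
  · have : ((Fin_Gd E own D Im Gd g lam).filter fun x =>
      wz D.p own E lam g (own x) - (lam x : ZMod D.p) = y) = ∅ :=
      eq_empty_of_isEmpty _
    rw [this]
    simp
  refine le_trans (card_le_card (t := ((Gd false).filter fun g => ∃ u ∈ h.S.en g,
    h.S.sum lab u - lab g = y).image (Sum.elim (fun _ => x0) (fun x => x.1))) ?_) card_image_le
  intro x hx
  obtain ⟨h2, h3⟩ := mem_filter.1 hx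
  obtain ⟨⟨h4, h5⟩, -⟩ := Fin_mem_Gd.1 h2
  obtain ⟨u, hu1, hu2, hu3, -⟩ := P.kz h5
  refine mem_image.2 ⟨Sum.inr ⟨x, h4⟩, mem_filter.2 ⟨h5, u, hu1, ?_⟩, rfl⟩
  rw [← hu3, ← h3]
  have h6 : lam x = lab (Sum.inr ⟨x, h4⟩) := (P.gfact h5).2.2.2.2.1
  rw [← h6]

/-- the number of valid gadgets -/
theorem Fin_P.count (P : Fin_P h Gx T lab Im Gd q g lam) (C1 C2 l : ZMod D.p) :
    q false ≤ (((Fin_Gd E own D Im Gd g lam).filter fun x => C1 + (lam x : ZMod D.p) ∈ T ∧
      C2 + (lam x : ZMod D.p) ∈ T ∧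
      wz D.p own E lam g (own x) - (lam x : ZMod D.p) + l ∈ T ∧
      wz D.p own E lam g (own x) - (lam x : ZMod D.p) + l ≠ C1 + (lam x : ZMod D.p) ∧
      wz D.p own E lam g (own x) - (lam x : ZMod D.p) + l ≠ C2 + (lam x : ZMod D.p)).card : ℝ) +
      5 * D.s0 := by
  classical
  set a := Fintype.card X with ha
  set V := (Fin_Gd E own D Im Gd g lam).filter fun x => C1 + (lam x : ZMod D.p) ∈ T ∧
      C2 + (lam x : ZMod D.p) ∈ T ∧
      wz D.p own E lam g (own x) - (lam x : ZMod D.p) + l ∈ T ∧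
      wz D.p own E lam g (own x) - (lam x : ZMod D.p) + l ≠ C1 + (lam x : ZMod D.p) ∧
      wz D.p own E lam g (own x) - (lam x : ZMod D.p) + l ≠ C2 + (lam x : ZMod D.p) with hV
  have htest := P.O.out.test false C1 C2 l
  set A := (Gd false).filter fun g => VdG h.S T lab C1 C2 l g with hA
  -- every gadget slot is a leaf slot
  have hinr : ∀ f ∈ Gd false, ∃ x : {x // D.kl x ≠ none}, f = Sum.inr x := by
    intro f hf
    obtain ⟨x, hx, -⟩ := Fin_mem_Sp.1 (P.O.out.gsub false hf)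
    exact ⟨x, hx⟩
  rcases A.eq_empty_or_nonempty with h0 | ⟨f0, hf0⟩
  · rw [h0, card_empty] at htest
    have h1 : (0 : ℝ) ≤ V.card := Nat.cast_nonneg _
    have h2 : (0 : ℝ) ≤ D.s0 := Nat.cast_nonneg _
    push_cast at htest
    linarith
  obtain ⟨x0, -⟩ := hinr f0 (mem_filter.1 hf0).1
  set ψ : Fin_F D → X := Sum.elim (fun _ => x0.1) (fun x => x.1) with hψ
  have hψi : Set.InjOn ψ (A : Set (Fin_F D)) := by
    intro f hf f' hf' hff
    obtain ⟨x, rfl⟩ := hinr f (mem_filter.1 (mem_coe.1 hf)).1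
    obtain ⟨x', rfl⟩ := hinr f' (mem_filter.1 (mem_coe.1 hf')).1
    exact congrArg Sum.inr (Subtype.ext hff)
  set A1 := A.filter fun f => Fin_gc E own D Im g lam (ψ f) with hA1
  set A2 := A.filter fun f => edgesAt E (own (ψ f)) = ∅ ∧
    wsum own E lam g (own (ψ f)) ≤ a + D.s0 with hA2
  set A3 := A.filter fun f => 2 * lam (ψ f) ≤ a + D.s0 with hA3
  set A4 := A.filter fun f => edgesAt E (own (ψ f)) = ∅ ∧
    wsum own E lam g (own (ψ f)) ≤ a + D.s0 + lam (ψ f) with hA4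
  have hcov : A ⊆ ((A1 ∪ A2) ∪ A3) ∪ A4 := by
    intro f hf
    obtain ⟨x, rfl⟩ := hinr f (mem_filter.1 hf).1
    obtain ⟨h1, h2, h3, h4, h5, h6, h7, h8⟩ := P.gfact (mem_filter.1 hf).1
    by_cases hA : Sum.inr x ∈ ((A1 ∪ A2) ∪ A3)
    · exact mem_union_left _ hA
    · apply mem_union_right
      rw [mem_union, mem_union, not_or, not_or] at hA
      obtain ⟨⟨hB1, hB2⟩, hB3⟩ := hA
      refine mem_filter.2 ⟨hf, ?_⟩
      show edgesAt E (own x.1) = ∅ ∧ wsum own E lam g (own x.1) ≤ a + D.s0 + lam x.1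
      have hB2' : ¬ (edgesAt E (own x.1) = ∅ ∧ wsum own E lam g (own x.1) ≤ a + D.s0) :=
        fun hc => hB2 (mem_filter.2 ⟨hf, hc⟩)
      have hB3' : ¬ 2 * lam x.1 ≤ a + D.s0 := fun hc => hB3 (mem_filter.2 ⟨hf, hc⟩)
      by_contra hc
      apply hB1
      refine mem_filter.2 ⟨hf, ?_⟩
      show Fin_gc E own D Im g lam x.1
      refine ⟨Fin_mem_R.2 ⟨h2, h3, fun he => ?_⟩, by omega, fun he => ?_⟩
      · by_contra hc2
        exact hB2' ⟨he, by omega⟩
      · by_contra hc2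
        exact hc ⟨he, by omega⟩
  have hc1 : A1.card ≤ V.card := by
    refine card_le_card_of_injOn ψ ?_ (hψi.mono fun f hf => mem_coe.2 (mem_filter.1
      (mem_coe.1 hf)).1)
    intro f hf
    obtain ⟨h1, h2⟩ := mem_filter.1 (mem_coe.1 hf)
    obtain ⟨h3, h4⟩ := mem_filter.1 h1
    obtain ⟨x, rfl⟩ := hinr f h3
    obtain ⟨u, hu1, hu2, hu3, -⟩ := P.kz h3
    obtain ⟨h5, h6, h7⟩ := h4
    have h8 := h7 u hu1
    have h9 : lam x.1 = lab (Sum.inr x) := (P.gfact h3).2.2.2.2.1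
    rw [← h9] at h5 h6 h8
    rw [← hu3] at h8
    exact mem_coe.2 (mem_filter.2 ⟨Fin_mem_Gd.2 ⟨⟨x.2, h3⟩, h2⟩, h5, h6, h8⟩)
  have hc2 : A2.card ≤ D.s0 := by
    have h1 : A2.card ≤ (Ioc a (a + D.s0)).card := by
      refine card_le_card_of_injOn (fun f => wsum own E lam g (own (ψ f))) ?_ ?_
      · intro f hf
        obtain ⟨h1, h2, h3⟩ := mem_filter.1 (mem_coe.1 hf)
        obtain ⟨x, rfl⟩ := hinr f (mem_filter.1 h1).1
        obtain ⟨h4, h5, h6, -⟩ := P.gfact (mem_filter.1 h1).1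
        exact mem_coe.2 (mem_Ioc.2 ⟨P.star_gt h5 h6 h2, h3⟩)
      · intro f hf f' hf' hff
        obtain ⟨h1, h2, h3⟩ := mem_filter.1 (mem_coe.1 hf)
        obtain ⟨h1', h2', h3'⟩ := mem_filter.1 (mem_coe.1 hf')
        obtain ⟨x, rfl⟩ := hinr f (mem_filter.1 h1).1
        obtain ⟨x', rfl⟩ := hinr f' (mem_filter.1 h1').1
        obtain ⟨h4, h5, h6, -⟩ := P.gfact (mem_filter.1 h1).1
        obtain ⟨h4', h5', h6', -⟩ := P.gfact (mem_filter.1 h1').1
        have h3a : wsum own E lam g (own x.1) ≤ a + D.s0 := h3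
        have h3b : wsum own E lam g (own x'.1) ≤ a + D.s0 := h3'
        have h7 : own x.1 = own x'.1 := by
          refine P.sinj h5 h6 h5' h6' ⟨fun _ => ⟨h.star_leaves h2', by omega⟩,
            fun _ => ⟨h.star_leaves h2, by omega⟩⟩ ?_
          unfold wz
          have hff' : wsum own E lam g (own x.1) = wsum own E lam g (own x'.1) := hff
          rw [hff']
        exact congrArg Sum.inr (Subtype.ext (P.O.hG.inj x.1 h4 x'.1 h4' h7))
    rw [Nat.card_Ioc] at h1
    omega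
  have hc3 : A3.card ≤ D.s0 := by
    have h1 : A3.card ≤ (Ioc (a / 2) ((a + D.s0) / 2)).card := by
      refine card_le_card_of_injOn (fun f => lam (ψ f)) ?_ ?_
      · intro f hf
        obtain ⟨h1, h2⟩ := mem_filter.1 (mem_coe.1 hf)
        obtain ⟨x, rfl⟩ := hinr f (mem_filter.1 h1).1
        have h3 := (P.gfact (mem_filter.1 h1).1).2.2.2.2.2.2.2
        have h2' : 2 * lam x.1 ≤ a + D.s0 := h2
        refine mem_coe.2 (mem_Ioc.2 ?_)
        show a / 2 < lam x.1 ∧ lam x.1 ≤ (a + D.s0) / 2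
        omega
      · intro f hf f' hf' hff
        exact hψi (mem_coe.2 (mem_filter.1 (mem_coe.1 hf)).1)
          (mem_coe.2 (mem_filter.1 (mem_coe.1 hf')).1) (P.l_inj hff)
    rw [Nat.card_Ioc] at h1
    omega
  have hc4 : A4.card ≤ 3 * D.s0 := by
    have h1 : A4.card ≤ 3 * (Ioc a (a + D.s0)).card := by
      refine card_le_mul_card_image_of_maps_to
        (f := fun f => wsum own E lam g (own (ψ f)) - lam (ψ f)) ?_ 3 ?_
      · intro f hf
        obtain ⟨h1, h2, h3⟩ := mem_filter.1 hf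
        obtain ⟨x, rfl⟩ := hinr f (mem_filter.1 h1).1
        have hG := (mem_filter.1 h1).1
        obtain ⟨u, hu1, hu2, hu3, hu4⟩ := P.kz hG
        have h9 : lam x.1 = lab (Sum.inr x) := (P.gfact hG).2.2.2.2.1
        have h2' : edgesAt E u.1 = ∅ := by rw [hu2]; exact h2
        have h5 : h.S.isS3 u ∨ h.S.isS4 u := by
          rcases (h.st3 u.1 h2').lt_or_eq with h6 | h6
          · exact Or.inr ((h.isS4_iff u).2 ⟨h2', h6⟩)
          · exact Or.inl ((h.isS3_iff u).2 ⟨h2', h6.symm⟩)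
        have h6 := P.O.out.gstar _ hG u hu1 h5
        rw [← hu4, ← h9] at h6
        have h6' : a + lam x.1 < wsum own E lam g (own x.1) := h6
        have h3' : wsum own E lam g (own x.1) ≤ a + D.s0 + lam x.1 := h3
        rw [mem_Ioc]
        show a < wsum own E lam g (own x.1) - lam x.1 ∧
          wsum own E lam g (own x.1) - lam x.1 ≤ a + D.s0
        omega
      · intro y hy
        rw [mem_Ioc] at hy
        have h2 := P.O.out.key false ((y : ℕ) : ZMod D.p)
        rw [if_neg (by decide)] at h2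
        refine le_trans (card_le_card ?_) h2
        intro f hf
        obtain ⟨h3, h4⟩ := mem_filter.1 hf
        obtain ⟨h5, h6, h7⟩ := mem_filter.1 h3
        obtain ⟨x, rfl⟩ := hinr f (mem_filter.1 h5).1
        have hG := (mem_filter.1 h5).1
        obtain ⟨u, hu1, hu2, hu3, hu4⟩ := P.kz hG
        have h9 : lam x.1 = lab (Sum.inr x) := (P.gfact hG).2.2.2.2.1
        refine mem_filter.2 ⟨hG, u, hu1, ?_⟩
        rw [← hu3, ← h9]
        unfold wz
        have h4' : wsum own E lam g (own x.1) - lam x.1 = y := h4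
        have h8 : wsum own E lam g (own x.1) = y + lam x.1 := by omega
        rw [h8]
        push_cast
        ring
    rw [Nat.card_Ioc] at h1
    omega
  have hfin : A.card ≤ V.card + 5 * D.s0 := by
    have h1 := card_le_card hcov
    have h2 := card_union_le ((A1 ∪ A2) ∪ A3) A4
    have h3 := card_union_le (A1 ∪ A2) A3
    have h4 := card_union_le A1 A2
    omega
  have hfin' : (A.card : ℝ) ≤ V.card + 5 * D.s0 := by exact_mod_cast hfin
  linarith

/-- the complete labelling -/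
theorem Fin_P.lay (P : Fin_P h Gx T lab Im Gd q g lam)
    (hne : ∃ x : X, True)
    (hbig : (84 * (univ \ Fin_R E own D Im g lam).card + 12 + 5 * D.s0 : ℝ) < q false) :
    ∃ l0 l1 : W → X, Lay E own lam g (Fin_R E own D Im g lam) (Fin_SE E own D Im) l0 l1
      (Fin_Gd E own D Im Gd g lam) T D.s0 (2 * Fintype.card X + 2 * D.s0 + 1) 3 := by
  classical
  obtain ⟨x0, -⟩ := hne
  have hl0 : ∀ w, ∃ x : X, (leavesAt own w).Nonempty → own x = w := by
    intro w
    by_cases hw : (leavesAt own w).Nonempty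
    · obtain ⟨x, hx⟩ := hw
      exact ⟨x, fun _ => Fin_mem_leavesAt.1 hx⟩
    · exact ⟨x0, fun hc => absurd hc hw⟩
  choose l0 hl0 using hl0
  have hl1 : ∀ w, ∃ x : X, edgesAt E w = ∅ → own x = w ∧ x ≠ l0 w := by
    intro w
    by_cases hw : edgesAt E w = ∅
    · have h1 : 1 < (leavesAt own w).card := by
        have := h.st3 w hw
        omega
      obtain ⟨x, hx, hxn⟩ := exists_mem_ne h1 (l0 w)
      exact ⟨x, fun _ => ⟨Fin_mem_leavesAt.1 hx, hxn⟩⟩
    · exact ⟨x0, fun hc => absurd hc hw⟩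
  choose l1 hl1 using hl1
  have hNLp : D.NL < D.p := by
    have h2 := h.ok.wrap
    nlinarith
  refine ⟨l0, l1, ?_⟩
  refine
    { deg2 := h.deg2
      lam_mem := P.l_mem
      lam_inj := P.l_inj
      g_mem := P.g_mem
      g_inj := P.g_inj
      s0a := h.ok.s0_a
      s0E := h.ok.s0_E
      rbig := ?_
      rstar := ?_
      rD := ?_
      seE := ?_
      seS := ?_
      cov := fun w hw hl => P.cov hw hl
      l0m := fun w _ hl => hl0 w hl
      l1m := fun w _ he => hl1 w he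
      gR := ?_
      g1 := ?_
      gL := ?_
      gst := ?_
      gp := ?_
      nT := ?_
      sinj := ?_
      key := P.key
      test := ?_ }
  · intro w hw he
    obtain ⟨h1, h2, h3⟩ := Fin_mem_R.1 hw
    obtain ⟨e, hes⟩ := h.ok.has_slot w h1 he
    obtain ⟨h4, h5⟩ := Fin_mem_sl.1 hes
    have h6 : e ∈ edgesAt E w := Fin_mem_edgesAt.2 ⟨h.ok.fkE h4, h5⟩
    refine ⟨e, h6, ?_, P.big h1 h2 h6⟩
    intro hc
    rcases mem_union.1 hc with hc | hc
    · exact disjoint_left.1 h.ok.fk_se h4 hc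
    · exact P.fk_kept h1 h2 h4 h5 hc
  · intro w hw he
    exact (Fin_mem_R.1 hw).2.2 he
  · intro w hw hl
    obtain ⟨h1, h2, h3⟩ := Fin_mem_R.1 hw
    refine P.two h1 h2 ?_
    have := h.deg2 w
    rw [hl, card_empty] at this
    omega
  · intro e he
    rcases mem_union.1 he with he | he
    · exact h.ok.seE he
    · exact h.ok.fkE (Fin_dE_sub he)
  · intro e he
    rcases mem_union.1 he with he | he
    · have h1 : e ∉ D.FK := fun hc => disjoint_left.1 h.ok.fk_se hc he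
      have h2 : e ∉ D.Snk := fun hc => disjoint_left.1 h.ok.snk_se hc he
      rw [P.g1 e (h.ok.seE he) h2 (fun hc => h1 (Fin_dE_sub hc))]
      unfold Fin_g1
      rw [dif_neg h1]
      exact (h.ok.g_se e he).2
    · exact (P.gd e he).2
  · intro x hx
    exact (Fin_mem_Gd.1 hx).2.1
  · intro x hx y hy hxy
    obtain ⟨⟨h1, h2⟩, -⟩ := Fin_mem_Gd.1 hx
    obtain ⟨⟨h3, h4⟩, -⟩ := Fin_mem_Gd.1 hy
    exact P.O.hG.inj x (P.gfact h2).1 y (P.gfact h4).1 hxy
  · intro x hx
    exact (Fin_mem_Gd.1 hx).2.2.1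
  · intro x hx he
    exact (Fin_mem_Gd.1 hx).2.2.2 he
  · intro x hx y hy hxy
    obtain ⟨⟨h1, h2⟩, -⟩ := Fin_mem_Gd.1 hx
    obtain ⟨⟨h3, h4⟩, -⟩ := Fin_mem_Gd.1 hy
    obtain ⟨-, -, -, -, -, h5, h6, -⟩ := P.gfact h2
    obtain ⟨-, -, -, -, -, h7, h8, -⟩ := P.gfact h4
    have h5' : D.loL ≤ lam x := h5
    have h6' : lam x < D.loL + D.NL := h6
    have h7' : D.loL ≤ lam y := h7
    have h8' : lam y < D.loL + D.NL := h8
    apply P.l_inj
    have h9 : lam x ≡ lam y [MOD D.p] := (ZMod.natCast_eq_natCast_iff _ _ _).1 hxy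
    refine Nat.ModEq.eq_of_abs_lt h9 ?_
    rw [abs_lt]
    constructor <;> omega
  · intro w hw
    obtain ⟨h1, h2, h3⟩ := Fin_mem_R.1 hw
    have h4 : wz D.p own E lam g w = h.S.sum lab ⟨w, h1⟩ := P.zsum ⟨w, h1⟩ (P.vp_mem h1 h2)
    rw [h4]
    exact P.O.out.nT _ (P.vp_mem h1 h2)
  · intro w hw w' hw' hl hz
    obtain ⟨h1, h2, h3⟩ := Fin_mem_R.1 hw
    obtain ⟨h1', h2', h3'⟩ := Fin_mem_R.1 hw'
    exact P.sinj h1 h2 h1' h2' hl hz
  · intro C1 C2 l
    have h1 := P.count C1 C2 l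
    have h2 := lt_of_lt_of_le hbig h1
    have h3 : (84 * (univ \ Fin_R E own D Im g lam).card + 12 : ℝ) <
        ((Fin_Gd E own D Im Gd g lam).filter fun x => C1 + (lam x : ZMod D.p) ∈ T ∧
      C2 + (lam x : ZMod D.p) ∈ T ∧
      wz D.p own E lam g (own x) - (lam x : ZMod D.p) + l ∈ T ∧
      wz D.p own E lam g (own x) - (lam x : ZMod D.p) + l ≠ C1 + (lam x : ZMod D.p) ∧
      wz D.p own E lam g (own x) - (lam x : ZMod D.p) + l ≠ C2 + (lam x : ZMod D.p)).card := by
      linarith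
    have h4 : 84 * (univ \ Fin_R E own D Im g lam).card + 12 <
        ((Fin_Gd E own D Im Gd g lam).filter fun x => C1 + (lam x : ZMod D.p) ∈ T ∧
      C2 + (lam x : ZMod D.p) ∈ T ∧
      wz D.p own E lam g (own x) - (lam x : ZMod D.p) + l ∈ T ∧
      wz D.p own E lam g (own x) - (lam x : ZMod D.p) + l ≠ C1 + (lam x : ZMod D.p) ∧
      wz D.p own E lam g (own x) - (lam x : ZMod D.p) + l ≠ C2 + (lam x : ZMod D.p)).card := by
      exact_mod_cast h3
    omega

end

open Classical in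
/-- **Completion.** `θ = min (q0 ε1 / 20000) (ε1 / 10)` (`q0` from `PTG`). Gadgets: if at least half of the
regular vertices with leaves are stars, `⌈ε1 n / 50⌉` leaves of kind `1`, `2` at different stars, otherwise
`⌈ε1 n / 50⌉` leaves of kind `1` at regular vertices with edges, with different sets `D.sl`. `PTG` with
`aa = a`, `bb = 2 a + 2 s0 + 1`, `zt` = vertices with one slot in `FK`, one leaf and no other edge or leaf,
`lowv` = stars and vertices with leaves, one slot in `FK` and no other edge of `H`. The parts outside `Im` and the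
stars with sum at most `a + s0` become irregular; the slots in `FK` of these parts get free safe
labels, their leaf slots the remaining labels of `[1, a]`, the sinks the remaining labels of `(a, a + m]`. -/
theorem prep_iam (ε1 : ℝ) (h1 : 0 < ε1) : ∃ θ : ℝ, 0 < θ ∧ θ ≤ ε1 / 10 ∧
    ∀ (k B : ℕ) (d β C : ℝ), 0 < d → 2 * k * d ≤ θ → 0 < β → 0 < C → ∃ n0 : ℕ,
      ∀ (W X : Type) [Fintype W] [DecidableEq W] [Fintype X] [DecidableEq X] (H : SimpleGraph W)
        [DecidableRel H.Adj] (own : X → W) (D : PrepD W X), n0 ≤ Fintype.card W →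
        (∀ w, 2 ≤ (leavesAt own w).card + (edgesAt H.edgeFinset w).card) →
        (∀ w, edgesAt H.edgeFinset w = ∅ → 3 ≤ (leavesAt own w).card) →
        ε1 * Fintype.card W ≤ ((univ.filter fun w => (leavesAt own w).Nonempty).card : ℝ) →
        D.Ok H.edgeFinset own k B d β C θ → IAM H own := by
  obtain ⟨q0, hq0, hPTG⟩ := PTG
  refine ⟨min (q0 * ε1 / 20000) (ε1 / 10), by positivity, min_le_right _ _, ?_⟩
  intro k B d β C hd hkd hβ hC
  obtain ⟨κ, hκ, n1, hn1⟩ := hPTG β C d k B hβ hC hd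
  set θ : ℝ := min (q0 * ε1 / 20000) (ε1 / 10) with hθ
  have hθ1 : θ ≤ q0 * ε1 / 20000 := min_le_left _ _
  have hθ2 : θ ≤ ε1 / 10 := min_le_right _ _
  have hθ0 : 0 < θ := by positivity
  refine ⟨max n1 (max ⌈400 / ε1⌉₊ (max ⌈3000 / β⌉₊ (max ⌈3 / κ⌉₊ (max ⌈4000 / (q0 * ε1)⌉₊ 1)))), ?_⟩
  intro W X _ _ _ _ H _ own D hn hdeg hst hcov hok
  set n := Fintype.card W with hnn
  have hna : n1 ≤ n := (le_max_left _ _).trans hn
  have hn' := (le_max_right _ _).trans hn
  have hnb : 400 ≤ ε1 * n := by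
    have h2 : 400 / ε1 ≤ n := (Nat.le_ceil _).trans (by exact_mod_cast (le_max_left _ _).trans hn')
    rw [div_le_iff₀ h1] at h2
    linarith
  have hn'' := (le_max_right _ _).trans hn'
  have hnc : 3000 ≤ β * n := by
    have h2 : 3000 / β ≤ n := (Nat.le_ceil _).trans (by exact_mod_cast (le_max_left _ _).trans hn'')
    rw [div_le_iff₀ hβ] at h2
    linarith
  have hn3 := (le_max_right _ _).trans hn''
  have hnd : 3 ≤ κ * n := by
    have h2 : 3 / κ ≤ n := (Nat.le_ceil _).trans (by exact_mod_cast (le_max_left _ _).trans hn3)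
    rw [div_le_iff₀ hκ] at h2
    linarith
  have hn4 := (le_max_right _ _).trans hn3
  have hne : 4000 ≤ q0 * ε1 * n := by
    have h2 : 4000 / (q0 * ε1) ≤ n :=
      (Nat.le_ceil _).trans (by exact_mod_cast (le_max_left _ _).trans hn4)
    rw [div_le_iff₀ (by positivity)] at h2
    linarith
  have hn5 : 1 ≤ n := (le_max_right _ _).trans hn4
  -- the hypotheses
  have h : Fin_H H.edgeFinset own D k B d β C θ :=
    ⟨hok, hdeg, hst, fun e he => H.not_isDiag_of_mem_edgeFinset he⟩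
  obtain ⟨Gx, hG, hG1, hG2, hG3⟩ := h.gadgets h1 hθ2
    (by refine hcov.trans (le_of_eq ?_); congr!) hnb
  have : NeZero D.p := ⟨hok.p0⟩
  obtain ⟨T, lab, Im, Gd, hout, hIm⟩ := hn1 (Fin_F D) (Fin_W D) (Fin_I H.edgeFinset own D) D.p h.S
    (Fin_Sp D Gx) (Fin_L D) n hna (h.sOk hG) (h.lOk hG hβ hκ hnc hnd hG2 hG3)
  have hk4 := h.k4
  have hk4' : (4 : ℝ) ≤ k := by exact_mod_cast hk4
  have hIm' : ((univ \ Im).card : ℝ) ≤ d * n := by
    refine (le_of_eq ?_).trans hIm
    congr!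
  have hkI : ((k * (univ \ Im).card : ℕ) : ℝ) ≤ k * d * n := by
    push_cast
    calc (k : ℝ) * ((univ \ Im).card : ℝ) ≤ k * (d * n) := mul_le_mul_of_nonneg_left hIm' (by positivity)
      _ = k * d * n := by ring
  have O : Fin_O h Gx T lab Im Gd _ := ⟨hG, hout, hkI⟩
  obtain ⟨g, hg1, hg2, hg3, hg4⟩ := O.edges
  obtain ⟨lam, hl1, hl2, hl3⟩ := O.leaves
  have P : Fin_P h Gx T lab Im Gd _ g lam := ⟨O, hg1, hg2, hg3, hg4, hl1, hl2, hl3⟩
  have hnR : (0 : ℝ) ≤ n := Nat.cast_nonneg _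
  -- `X` is not empty
  have hX : ∃ x : X, True := by
    by_contra hc
    push Not at hc
    have h2 : (univ.filter fun w => (leavesAt own w).Nonempty) = ∅ := by
      rw [filter_eq_empty_iff]
      intro w _ hw
      obtain ⟨x, -⟩ := hw
      exact hc x
    rw [h2, card_empty] at hcov
    push_cast at hcov
    linarith
  obtain ⟨l0, l1, hlay⟩ := P.lay hX (by
    have h2 := P.irr
    have h3 := h.dW_card (Im := Im) hG
    have h4 : ((univ \ Fin_R H.edgeFinset own D Im g lam).card : ℝ) ≤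
        (univ \ D.Rg).card + (Fin_dW H.edgeFinset own D Im).card + D.s0 := by exact_mod_cast h2
    have h5 : ((Fin_dW H.edgeFinset own D Im).card : ℝ) ≤ 2 * ((k * (univ \ Im).card : ℕ) : ℝ) := by
      exact_mod_cast h3
    have h6 : (2 : ℝ) * (k * d * n) ≤ θ * n := by
      have := mul_le_mul_of_nonneg_right hkd hnR
      linarith
    have h7 := hok.irr
    have h8 := hok.s0_le
    rw [← hnn] at h7 h8
    have h9 : d * n ≤ θ * n := by
      refine mul_le_mul_of_nonneg_right ?_ hnR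
      have : 2 * 4 * d ≤ 2 * k * d := by
        refine mul_le_mul_of_nonneg_right ?_ hd.le
        linarith
      linarith
    have h10 : θ * n ≤ q0 * ε1 / 20000 * n := mul_le_mul_of_nonneg_right hθ1 hnR
    have h11 : ((Fin_Sp D Gx).filter fun g => h.S.kd g = 0 ↔ false = true).card = Gx.card := by
      rw [← hG.Sp_card]
      congr 1
      rw [filter_eq_self]
      intro f hf
      obtain ⟨x, rfl, -⟩ := Fin_mem_Sp.1 hf
      constructor
      · exact fun hc => absurd hc (h.kd_ne x)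
      · exact fun hc => absurd hc (by decide)
    have h12 : q0 * (ε1 * n / 50) ≤ q0 * Gx.card := mul_le_mul_of_nonneg_left hG1 hq0.le
    have h13 : (((Fin_Sp D Gx).filter fun g => h.S.kd g = 0 ↔ false = true).card : ℝ) = Gx.card := by
      exact_mod_cast h11
    have h14 : q0 * (((Fin_Sp D Gx).filter fun g => h.S.kd g = 0 ↔ false = true).card : ℝ) - d * n =
      q0 * Gx.card - d * n := by rw [h13]
    refine lt_of_lt_of_le ?_ (le_of_eq (h14.symm.trans ?_))
    · linarith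
    · congr!)
  obtain ⟨lam', g', hiam⟩ := hlay.iam
  exact ⟨lam', g', hiam⟩

end Pool.Agent.AML
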