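import Pool.Agent.AML.ExPrep
import Pool.Agent.AML.Fin

/-!
# Case L, inner form
-/

set_option autoImplicit false

namespace Pool.Agent.AML

open Finset Pool.Agent.AMF

/-- **Case L, inner form.** -/
theorem caseL_inner (ε1 : ℝ) (h1 : 0 < ε1) : ∃ n0 : ℕ,
    ∀ (W X : Type) [Fintype W] [DecidableEq W] [Fintype X] [DecidableEq X] (H : SimpleGraph W)
      [DecidableRel H.Adj] (own : X → W), n0 ≤ Fintype.card W →
      (∀ w, 2 ≤ (leavesAt own w).card + (edgesAt H.edgeFinset w).card) →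
      (∀ w, edgesAt H.edgeFinset w = ∅ → 3 ≤ (leavesAt own w).card) →
      ε1 * Fintype.card W ≤ ((univ.filter fun w => (leavesAt own w).Nonempty).card : ℝ) →
      IAM H own := by
  classical
  obtain ⟨θ, hθ, hθ1, hf⟩ := prep_iam ε1 h1
  obtain ⟨k, B, d, β, C, hd, hkd, hβ, hC, n1, he⟩ := exists_prep ε1 θ h1 hθ hθ1
  obtain ⟨n2, hf2⟩ := hf k B d β C hd hkd hβ hC
  refine ⟨max n1 n2, ?_⟩
  intro W X _ _ _ _ H _ own hn hdeg hst hsup
  have hsup' : ε1 * Fintype.card W ≤
      (((univ : Finset W).filter fun w => (leavesAt own w).Nonempty).card : ℝ) := by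
    convert hsup
  obtain ⟨D, hD⟩ := he W X H own (by omega) hdeg hst hsup'
  exact hf2 W X H own D (by omega) hdeg hst hsup' hD

end Pool.Agent.AML
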