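import Pool.Agent.AML.SkelL

/-!
# Sacrificed parts and sinks
-/

set_option autoImplicit false
set_option linter.unusedSectionVars false
set_option linter.unusedVariables false

namespace Pool.Agent.AML

open Finset Pool.Agent.AMX

/-- `Pi` = sacrificed parts, `Snk` = sinks: no end of a sink is regular, every vertex without leaf in a
sacrificed part lies on a slot that is no sink and is adjacent to such a slot or has an end in `sup` or
`hub`. -/
structure Sac {W : Type} [Fintype W] [DecidableEq W] (H : SimpleGraph W) [DecidableRel H.Adj]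
    (sup hub : Finset W) (F : Finset (Sym2 W)) (pt : Sym2 W → ℕ) (vp : W → ℕ) (Pi : Finset ℕ)
    (Snk : Finset (Sym2 W)) : Prop where
  edge : ∀ e ∈ Snk, e ∈ H.edgeSet
  nonhub : ∀ e ∈ Snk, ∃ w ∈ e, w ∉ hub
  irr : ∀ e ∈ Snk, ∀ w ∈ e, w ∉ hub → vp w ∈ Pi
  cov : ∀ w, w ∉ hub → w ∉ sup → vp w ∈ Pi → ∃ e ∈ F, pt e ∈ Pi ∧ e ∉ Snk ∧ w ∈ e ∧
    ((∃ e' ∈ F, pt e' ∈ Pi ∧ e' ∉ Snk ∧ e' ≠ e ∧ ∃ v, v ∈ e ∧ v ∈ e') ∨ ∃ v ∈ e, v ∈ sup ∨ v ∈ hub)
  pos : ∀ i ∈ Pi, ∃ w, w ∉ hub ∧ 0 < H.degree w ∧ vp w = i

/-- a slot of a part outside `Pi` is no sink -/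
private theorem Sac_not_snk {W : Type} [Fintype W] [DecidableEq W] {H : SimpleGraph W}
    [DecidableRel H.Adj] {sup hub : Finset W} {DZ F : Finset (Sym2 W)} {pt : Sym2 W → ℕ}
    {vp : W → ℕ} {k : ℕ} (hS : SkelL H sup hub DZ F pt vp k) {Pi : Finset ℕ}
    {Snk : Finset (Sym2 W)} (hP : Sac H sup hub F pt vp Pi Snk) {e : Sym2 W} (he : e ∈ F)
    (hp : pt e ∉ Pi) : e ∉ Snk := by
  intro hc
  obtain ⟨w, hw, hwh⟩ := hP.nonhub e hc
  apply hp
  rw [hS.vp_eq e he w hw hwh]
  exact hP.irr e hc w hw hwh

/-- two slots at `v` if there are at least two -/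
private theorem Sac_two {W : Type} [Fintype W] [DecidableEq W] {F : Finset (Sym2 W)} {v : W}
    (h1 : (slotsAt F v).Nonempty) (h2 : (slotsAt F v).card ≠ 1) (e : Sym2 W) :
    ∃ e' ∈ slotsAt F v, e' ≠ e := by
  have h3 : 1 < (slotsAt F v).card := by
    have := card_pos.2 h1
    omega
  obtain ⟨a, ha, b, hb, hab⟩ := Finset.one_lt_card.1 h3
  by_cases hae : a = e
  · exact ⟨b, hb, by rw [← hae]; exact hab.symm⟩
  · exact ⟨a, ha, hae⟩

/-- Induction on `s`. Step: choose a part `i ∉ Pi`. If there is `w ∉ hub ∪ sup` with `vp w = i` and exactly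
one slot, then the new sink is an edge `s(w, y) ∉ F` (the degree of `w` is at least two), add `i` and `vp y` (if
`y ∉ hub`) to `Pi`. Otherwise the new sink is any slot of the part. Slots of the parts outside `Pi` are no
sinks (`nonhub`, `irr`, `SkelL.vp_eq`); `cov` uses `SkelL.slots_ne`. -/
theorem exists_sac {W : Type} [Fintype W] [DecidableEq W] (H : SimpleGraph W) [DecidableRel H.Adj]
    (sup hub : Finset W) (DZ F : Finset (Sym2 W)) (pt : Sym2 W → ℕ) (vp : W → ℕ) (k : ℕ)
    (hS : SkelL H sup hub DZ F pt vp k) (hdeg : ∀ w, w ∉ sup → 2 ≤ H.degree w) (s : ℕ)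
    (hs : 2 * s ≤ ((univ.filter fun w => w ∉ hub ∧ 0 < H.degree w).image vp).card) :
    ∃ (Pi : Finset ℕ) (Snk : Finset (Sym2 W)), Sac H sup hub F pt vp Pi Snk ∧ Snk.card = s ∧
      Pi.card ≤ 2 * s := by
  classical
  induction s with
  | zero =>
    refine ⟨∅, ∅, ⟨?_, ?_, ?_, ?_, ?_⟩, card_empty, by simp⟩
    · intro e he
      exact absurd he (notMem_empty _)
    · intro e he
      exact absurd he (notMem_empty _)
    · intro e he
      exact absurd he (notMem_empty _)
    · intro w _ _ hw
      exact absurd hw (notMem_empty _)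
    · intro i hi
      exact absurd hi (notMem_empty _)
  | succ s ih =>
    obtain ⟨Pi, Snk, hP, hc, hPc⟩ := ih (by omega)
    -- a part outside `Pi`
    obtain ⟨i, hi, hiP⟩ : ∃ i ∈ (univ.filter fun w => w ∉ hub ∧ 0 < H.degree w).image vp,
        i ∉ Pi := by
      by_contra hcon
      push Not at hcon
      have := card_le_card (show (univ.filter fun w => w ∉ hub ∧ 0 < H.degree w).image vp ⊆ Pi
        from hcon)
      omega
    obtain ⟨w0, hw0, hw0i⟩ := mem_image.1 hi
    obtain ⟨hw0h, hw0d⟩ := (mem_filter.1 hw0).2
    -- slots at a vertex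
    have hat : ∀ v e, e ∈ slotsAt F v → e ∈ F ∧ v ∈ e := fun v e he => mem_filter.1 he
    by_cases hcase : ∃ w, w ∉ hub ∧ w ∉ sup ∧ vp w = i ∧ (slotsAt F w).card = 1
    · obtain ⟨w, hwh, hws, hwi, hw1⟩ := hcase
      -- an edge at `w` that is no slot
      obtain ⟨y, hwy, hyF⟩ : ∃ y, H.Adj w y ∧ s(w, y) ∉ F := by
        have h1 := hdeg w hws
        rw [← SimpleGraph.card_neighborFinset_eq_degree] at h1
        obtain ⟨a, ha, b, hb, hab⟩ := Finset.one_lt_card.1 (lt_of_lt_of_le one_lt_two h1)
        rw [SimpleGraph.mem_neighborFinset] at ha hb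
        by_cases haF : s(w, a) ∈ F
        · by_cases hbF : s(w, b) ∈ F
          · exfalso
            have h2 : s(w, a) ∈ slotsAt F w := mem_filter.2 ⟨haF, Sym2.mem_mk_left _ _⟩
            have h3 : s(w, b) ∈ slotsAt F w := mem_filter.2 ⟨hbF, Sym2.mem_mk_left _ _⟩
            have h4 := Finset.card_le_one.1 hw1.le _ h2 _ h3
            rcases Sym2.eq_iff.1 h4 with ⟨-, h5⟩ | ⟨h5, h6⟩
            · exact hab h5
            · exact hab (h6.trans h5)
          · exact ⟨b, hb, hbF⟩
        · exact ⟨a, ha, haF⟩
      set J : Finset ℕ := if y ∈ hub then ∅ else {vp y} with hJ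
      have hJc : J.card ≤ 1 := by
        rw [hJ]
        split_ifs <;> simp
      have hJm : y ∉ hub → vp y ∈ J := by
        intro hy
        rw [hJ, if_neg hy]
        exact mem_singleton_self _
      have hJp : ∀ j ∈ J, ∃ u, u ∉ hub ∧ 0 < H.degree u ∧ vp u = j := by
        intro j hj
        rw [hJ] at hj
        split_ifs at hj with hy
        · exact absurd hj (notMem_empty _)
        · rw [mem_singleton] at hj
          refine ⟨y, hy, ?_, hj.symm⟩
          rw [← SimpleGraph.card_neighborFinset_eq_degree]
          exact card_pos.2 ⟨w, (SimpleGraph.mem_neighborFinset _ _ _).2 hwy.symm⟩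
      have hsn : s(w, y) ∉ Snk := by
        intro hcon
        apply hiP
        rw [← hwi]
        exact hP.irr _ hcon w (Sym2.mem_mk_left _ _) hwh
      refine ⟨insert i (Pi ∪ J), insert s(w, y) Snk, ⟨?_, ?_, ?_, ?_, ?_⟩, ?_, ?_⟩
      · intro e he
        rcases mem_insert.1 he with rfl | he
        · exact hwy
        · exact hP.edge e he
      · intro e he
        rcases mem_insert.1 he with rfl | he
        · exact ⟨w, Sym2.mem_mk_left _ _, hwh⟩
        · exact hP.nonhub e he
      · intro e he u hu huh
        rcases mem_insert.1 he with rfl | he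
        · rcases Sym2.mem_iff.1 hu with rfl | rfl
          · rw [hwi]
            exact mem_insert_self _ _
          · exact mem_insert_of_mem (mem_union_right _ (hJm huh))
        · exact mem_insert_of_mem (mem_union_left _ (hP.irr e he u hu huh))
      · intro v hvh hvs hvP
        by_cases hvO : vp v ∈ Pi
        · -- old part
          obtain ⟨e, heF, hePi, heS, hve, hor⟩ := hP.cov v hvh hvs hvO
          refine ⟨e, heF, mem_insert_of_mem (mem_union_left _ hePi), ?_, hve, ?_⟩
          · intro hcon
            rcases mem_insert.1 hcon with rfl | hcon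
            · exact hyF heF
            · exact heS hcon
          · rcases hor with ⟨e', he'F, he'P, he'S, hne, u, hu1, hu2⟩ | hor
            · left
              refine ⟨e', he'F, mem_insert_of_mem (mem_union_left _ he'P), ?_, hne, u, hu1, hu2⟩
              intro hcon
              rcases mem_insert.1 hcon with rfl | hcon
              · exact hyF he'F
              · exact he'S hcon
            · exact Or.inr hor
        · -- new part
          have hns : ∀ e ∈ F, pt e = vp v → e ∉ insert s(w, y) Snk := by
            intro e he hpe hcon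
            rcases mem_insert.1 hcon with rfl | hcon
            · exact hyF he
            · exact Sac_not_snk hS hP he (by rw [hpe]; exact hvO) hcon
          have hv2 := hdeg v hvs
          obtain ⟨e, he⟩ := hS.has_slot v hvh (by omega)
          obtain ⟨heF, hve⟩ := hat v e he
          have hpe := hS.vp_eq e heF v hve hvh
          refine ⟨e, heF, by rw [hpe]; exact hvP, hns e heF hpe, hve, ?_⟩
          obtain ⟨u, hu⟩ := Sym2.mem_iff_exists.1 hve
          have hue : u ∈ e := by rw [hu]; exact Sym2.mem_mk_right _ _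
          by_cases huh : u ∈ hub
          · exact Or.inr ⟨u, hue, Or.inr huh⟩
          by_cases hus : u ∈ sup
          · exact Or.inr ⟨u, hue, Or.inl hus⟩
          left
          have hvu : v ≠ u := by
            intro hcon
            have h1 := hS.edge e heF
            rw [hu, hcon] at h1
            exact H.loopless.irrefl _ h1
          have hvpu : vp u = vp v := by rw [← hS.vp_eq e heF u hue huh, hpe]
          have hneq : slotsAt F v ≠ slotsAt F u := fun hcon =>
            hvs (hS.slots_ne v u hvh huh hvu ⟨e, he⟩ hcon).1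
          obtain ⟨e', he'⟩ : ∃ e', (e' ∈ slotsAt F v ∧ e' ∉ slotsAt F u) ∨
              (e' ∈ slotsAt F u ∧ e' ∉ slotsAt F v) := by
            by_contra hcon
            push Not at hcon
            apply hneq
            ext e'
            exact ⟨fun h => (hcon e').1 h, fun h => (hcon e').2 h⟩
          have heu : e ∈ slotsAt F u := mem_filter.2 ⟨heF, hue⟩
          rcases he' with ⟨h1, h2⟩ | ⟨h1, h2⟩
          · obtain ⟨h3, h4⟩ := hat v e' h1
            have h5 := hS.vp_eq e' h3 v h4 hvh
            refine ⟨e', h3, by rw [h5]; exact hvP, hns e' h3 h5, ?_, v, hve, h4⟩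
            intro hcon
            rw [hcon] at h2
            exact h2 heu
          · obtain ⟨h3, h4⟩ := hat u e' h1
            have h5 := hS.vp_eq e' h3 u h4 huh
            refine ⟨e', h3, by rw [h5, hvpu]; exact hvP, hns e' h3 (h5.trans hvpu), ?_, u,
              hue, h4⟩
            intro hcon
            rw [hcon] at h2
            exact h2 he
      · intro j hj
        rcases mem_insert.1 hj with rfl | hj
        · exact ⟨w0, hw0h, hw0d, hw0i⟩
        · rcases mem_union.1 hj with hj | hj
          · exact hP.pos j hj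
          · exact hJp j hj
      · rw [card_insert_of_notMem hsn, hc]
      · have h1 := card_insert_le i (Pi ∪ J)
        have h2 := card_union_le Pi J
        omega
    · push Not at hcase
      -- the sink is a slot
      obtain ⟨f, hf⟩ := hS.has_slot w0 hw0h hw0d
      obtain ⟨hfF, hwf⟩ := hat w0 f hf
      have hpf : pt f = i := by rw [hS.vp_eq f hfF w0 hwf hw0h, hw0i]
      have hsn : f ∉ Snk := Sac_not_snk hS hP hfF (by rw [hpf]; exact hiP)
      refine ⟨insert i Pi, insert f Snk, ⟨?_, ?_, ?_, ?_, ?_⟩, ?_, ?_⟩
      · intro e he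
        rcases mem_insert.1 he with rfl | he
        · exact hS.edge _ hfF
        · exact hP.edge e he
      · intro e he
        rcases mem_insert.1 he with rfl | he
        · exact hS.nonhub _ hfF
        · exact hP.nonhub e he
      · intro e he u hu huh
        rcases mem_insert.1 he with rfl | he
        · rw [← hS.vp_eq _ hfF u hu huh, hpf]
          exact mem_insert_self _ _
        · exact mem_insert_of_mem (hP.irr e he u hu huh)
      · intro v hvh hvs hvP
        by_cases hvO : vp v ∈ Pi
        · obtain ⟨e, heF, hePi, heS, hve, hor⟩ := hP.cov v hvh hvs hvO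
          have hnf : ∀ e, pt e ∈ Pi → e ∉ Snk → e ∉ insert f Snk := by
            intro e h1 h2 hcon
            rcases mem_insert.1 hcon with rfl | hcon
            · exact hiP (hpf ▸ h1)
            · exact h2 hcon
          refine ⟨e, heF, mem_insert_of_mem hePi, hnf e hePi heS, hve, ?_⟩
          rcases hor with ⟨e', he'F, he'P, he'S, hne, u, hu1, hu2⟩ | hor
          · exact Or.inl ⟨e', he'F, mem_insert_of_mem he'P, hnf e' he'P he'S, hne, u, hu1, hu2⟩
          · exact Or.inr hor
        · have hvi : vp v = i := by
            rcases mem_insert.1 hvP with h1 | h1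
            · exact h1
            · exact absurd h1 hvO
          have hns : ∀ e ∈ F, pt e = i → e ≠ f → e ∉ insert f Snk := by
            intro e he hpe hef hcon
            rcases mem_insert.1 hcon with h1 | hcon
            · exact hef h1
            · exact Sac_not_snk hS hP he (by rw [hpe]; exact hiP) hcon
          have hv2 := hdeg v hvs
          have hvne := hS.has_slot v hvh (by omega)
          obtain ⟨e, he, hef⟩ := Sac_two hvne (hcase v hvh hvs hvi) f
          obtain ⟨heF, hve⟩ := hat v e he
          have hpe : pt e = i := by rw [hS.vp_eq e heF v hve hvh, hvi]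
          refine ⟨e, heF, by rw [hpe]; exact mem_insert_self _ _, hns e heF hpe hef, hve, ?_⟩
          obtain ⟨u, hu⟩ := Sym2.mem_iff_exists.1 hve
          have hue : u ∈ e := by rw [hu]; exact Sym2.mem_mk_right _ _
          by_cases huh : u ∈ hub
          · exact Or.inr ⟨u, hue, Or.inr huh⟩
          by_cases hus : u ∈ sup
          · exact Or.inr ⟨u, hue, Or.inl hus⟩
          left
          have hvu : v ≠ u := by
            intro hcon
            have h1 := hS.edge e heF
            rw [hu, hcon] at h1
            exact H.loopless.irrefl _ h1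
          have hui : vp u = i := by rw [← hS.vp_eq e heF u hue huh, hpe]
          have hu2 := hdeg u hus
          have hune := hS.has_slot u huh (by omega)
          obtain ⟨e1, h1, h1e⟩ := Sac_two hvne (hcase v hvh hvs hvi) e
          obtain ⟨e2, h2, h2e⟩ := Sac_two hune (hcase u huh hus hui) e
          obtain ⟨h1F, h1v⟩ := hat v e1 h1
          obtain ⟨h2F, h2u⟩ := hat u e2 h2
          have h12 : e1 ≠ e2 := by
            intro hcon
            rw [hcon] at h1v
            have h3 : e2 = s(v, u) := (Sym2.mem_and_mem_iff hvu).1 ⟨h1v, h2u⟩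
            exact h2e (h3.trans hu.symm)
          have hp1 : pt e1 = i := by rw [hS.vp_eq e1 h1F v h1v hvh, hvi]
          have hp2 : pt e2 = i := by rw [hS.vp_eq e2 h2F u h2u huh, hui]
          by_cases h1f : e1 = f
          · have h2f : e2 ≠ f := fun hcon => h12 (h1f.trans hcon.symm)
            exact ⟨e2, h2F, by rw [hp2]; exact mem_insert_self _ _, hns e2 h2F hp2 h2f, h2e,
              u, hue, h2u⟩
          · exact ⟨e1, h1F, by rw [hp1]; exact mem_insert_self _ _, hns e1 h1F hp1 h1f, h1e,
              v, hve, h1v⟩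
      · intro j hj
        rcases mem_insert.1 hj with rfl | hj
        · exact ⟨w0, hw0h, hw0d, hw0i⟩
        · exact hP.pos j hj
      · rw [card_insert_of_notMem hsn, hc]
      · have h1 := card_insert_le i Pi
        omega

end Pool.Agent.AML
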