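import Pool.Agent.AML.Prep
import Pool.Agent.AML.Sac

/-!
# The graph fields of `PrepD.Ok`
-/

set_option autoImplicit false
set_option linter.unusedSectionVars false
set_option linter.unusedVariables false

namespace Pool.Agent.AML

open Finset Pool.Agent.AMF Pool.Agent.AMX

variable {W X : Type} [Fintype W] [DecidableEq W] [Fintype X] [DecidableEq X]

/-- kept slots -/
def fkS (F : Finset (Sym2 W)) (pt : Sym2 W → ℕ) (Pi : Finset ℕ) : Finset (Sym2 W) :=
  F.filter fun e => pt e ∉ Pi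

/-- safe edges -/
def seS (DZ F Snk : Finset (Sym2 W)) (pt : Sym2 W → ℕ) (Pi : Finset ℕ) : Finset (Sym2 W) :=
  DZ ∪ F.filter fun e => pt e ∈ Pi ∧ e ∉ Snk

/-- regular vertices -/
def rgS (H : SimpleGraph W) [DecidableRel H.Adj] (hub : Finset W) (vp : W → ℕ) (Pi : Finset ℕ) :
    Finset W := univ.filter fun w => w ∉ hub ∧ (0 < H.degree w → vp w ∉ Pi)

/-- the graph fields of `PrepD.Ok` (`sl w = (FK.filter fun e => w ∈ e)`) -/
structure GOk (E : Finset (Sym2 W)) (own : X → W) (Rg : Finset W) (FK Snk SE0 : Finset (Sym2 W))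
    (pt : Sym2 W → ℕ) (vp : W → ℕ) (k : ℕ) : Prop where
  star_Rg : ∀ w, edgesAt E w = ∅ → w ∈ Rg
  fkE : FK ⊆ E
  snkE : Snk ⊆ E
  seE : SE0 ⊆ E
  fk_snk : Disjoint FK Snk
  fk_se : Disjoint FK SE0
  snk_se : Disjoint Snk SE0
  fk_ne : ∀ e ∈ FK, ∃ w ∈ e, w ∈ Rg
  snk_irr : ∀ e ∈ Snk, ∀ w ∈ e, w ∉ Rg
  se_irr : ∀ e ∈ SE0, ∀ w ∈ e, w ∉ Rg
  vp_eq : ∀ e ∈ FK, ∀ w ∈ e, w ∈ Rg → pt e = vp w
  part_le : ∀ i, (FK.filter fun e => pt e = i).card ≤ k
  has_slot : ∀ w ∈ Rg, (edgesAt E w).Nonempty → (FK.filter fun e => w ∈ e).Nonempty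
  slots_ne : ∀ w ∈ Rg, ∀ w' ∈ Rg, w ≠ w' → (FK.filter fun e => w ∈ e).Nonempty →
    (FK.filter fun e => w ∈ e) = (FK.filter fun e => w' ∈ e) →
    (leavesAt own w).Nonempty ∧ (leavesAt own w').Nonempty
  count : ∀ i, 1000 *
      (2 * (Rg.filter fun w => vp w = i ∧ leavesAt own w = ∅ ∧
          (FK.filter fun e => w ∈ e).card = 1).card +
        (Rg.filter fun w => vp w = i ∧ (leavesAt own w).Nonempty ∧
          (FK.filter fun e => w ∈ e).card = 1).card +
        2 * (Rg.filter fun w => vp w = i ∧ 2 ≤ (FK.filter fun e => w ∈ e).card).card) ≤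
      1001 * (2 * (FK.filter fun e => pt e = i).card)
  cov : ∀ w, w ∉ Rg → leavesAt own w = ∅ → ∃ e ∈ SE0, w ∈ e ∧
    ((∃ e' ∈ SE0, e' ≠ e ∧ ∃ v, v ∈ e ∧ v ∈ e') ∨ ∃ v ∈ e, v ∉ Rg ∧ (leavesAt own v).Nonempty)
  hub_cov : ∀ e ∈ FK, ∀ y ∈ e, y ∉ Rg → ∃ e' ∈ SE0, y ∈ e'

section gok

variable {H : SimpleGraph W} [DecidableRel H.Adj] {own : X → W} {sup hub : Finset W}
  {DZ F : Finset (Sym2 W)} {pt : Sym2 W → ℕ} {vp : W → ℕ} {k : ℕ} {Pi : Finset ℕ}
  {Snk : Finset (Sym2 W)}

private theorem ExP1_deg {w : W} {e : Sym2 W} (he : e ∈ H.edgeSet) (hw : w ∈ e) :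
    0 < H.degree w := by
  obtain ⟨y, rfl⟩ := Sym2.mem_iff_exists.1 hw
  rw [← SimpleGraph.card_neighborFinset_eq_degree]
  exact card_pos.2 ⟨y, (SimpleGraph.mem_neighborFinset _ _ _).2 he⟩

private theorem ExP1_deg' {w : W} (h : (edgesAt H.edgeFinset w).Nonempty) : 0 < H.degree w := by
  obtain ⟨e, he⟩ := h
  simp only [edgesAt, mem_filter, SimpleGraph.mem_edgeFinset] at he
  exact ExP1_deg he.1 he.2

private theorem ExP1_mem_rg {w : W} :
    w ∈ rgS H hub vp Pi ↔ w ∉ hub ∧ (0 < H.degree w → vp w ∉ Pi) := by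
  simp [rgS]

private theorem ExP1_mem_fk {e : Sym2 W} : e ∈ fkS F pt Pi ↔ e ∈ F ∧ pt e ∉ Pi := by
  simp [fkS]

private theorem ExP1_mem_se {e : Sym2 W} :
    e ∈ seS DZ F Snk pt Pi ↔ e ∈ DZ ∨ (e ∈ F ∧ pt e ∈ Pi ∧ e ∉ Snk) := by
  simp [seS]

/-- every end of a safe edge is irregular -/
private theorem ExP1_se_irr (hS : SkelL H sup hub DZ F pt vp k) {e : Sym2 W}
    (he : e ∈ seS DZ F Snk pt Pi) {w : W} (hw : w ∈ e) : w ∉ rgS H hub vp Pi := by
  rw [ExP1_mem_rg]
  rintro ⟨h1, h2⟩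
  rcases ExP1_mem_se.1 he with h3 | ⟨h3, h4, -⟩
  · exact h1 (hS.dz_hub e h3 w hw)
  · refine h2 (ExP1_deg (hS.edge e h3) hw) ?_
    rw [← hS.vp_eq e h3 w hw h1]
    exact h4

/-- an edge of `DZ` is no slot -/
private theorem ExP1_dz (hS : SkelL H sup hub DZ F pt vp k) {e : Sym2 W} (he : e ∈ F) :
    e ∉ DZ := by
  intro hc
  obtain ⟨w, hw, hwh⟩ := hS.nonhub e he
  exact hwh (hS.dz_hub e hc w hw)

/-- a slot of a part outside `Pi` is no sink -/
private theorem ExP1_not_snk (hS : SkelL H sup hub DZ F pt vp k)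
    (hP : Sac H sup hub F pt vp Pi Snk) {e : Sym2 W} (he : e ∈ F) (hp : pt e ∉ Pi) :
    e ∉ Snk := by
  intro hc
  obtain ⟨w, hw, hwh⟩ := hP.nonhub e hc
  apply hp
  rw [hS.vp_eq e he w hw hwh]
  exact hP.irr e hc w hw hwh

/-- the kept slots at a regular vertex are the slots -/
private theorem ExP1_slots (hS : SkelL H sup hub DZ F pt vp k) {w : W}
    (hw : w ∈ rgS H hub vp Pi) : (fkS F pt Pi).filter (fun e => w ∈ e) = slotsAt F w := by
  rw [ExP1_mem_rg] at hw
  ext e
  simp only [slotsAt, mem_filter, ExP1_mem_fk]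
  constructor
  · rintro ⟨⟨h1, h2⟩, h3⟩
    exact ⟨h1, h3⟩
  · rintro ⟨h1, h3⟩
    refine ⟨⟨h1, ?_⟩, h3⟩
    rw [hS.vp_eq e h1 w h3 hw.1]
    exact hw.2 (ExP1_deg (hS.edge e h1) h3)

/-- the slots of parts in `Pi` -/
private theorem ExP1_card (hS : SkelL H sup hub DZ F pt vp k) (Pi : Finset ℕ) :
    (F.filter fun e => pt e ∈ Pi).card ≤ k * Pi.card := by
  have e1 : (F.filter fun e => pt e ∈ Pi) ⊆ Pi.biUnion fun i => F.filter fun e => pt e = i := by
    intro e he
    simp only [mem_filter, mem_biUnion] at he ⊢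
    exact ⟨pt e, he.2, he.1, rfl⟩
  refine (card_le_card e1).trans (card_biUnion_le.trans ?_)
  refine (sum_le_sum fun i _ => hS.part_le i).trans ?_
  rw [sum_const, smul_eq_mul, mul_comm]

end gok

/-- the graph fields and the numbers: `|Rg^c| ≤ |hub| + 2 k |Pi|` (every vertex with an edge in a part of `Pi` is an
end of a slot of this part), `|SE0| ≤ |DZ| + k |Pi|`. -/
theorem gok_of_sac (H : SimpleGraph W) [DecidableRel H.Adj] (own : X → W)
    (sup hub : Finset W) (hsup : ∀ w, w ∈ sup ↔ (leavesAt own w).Nonempty)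
    (DZ F : Finset (Sym2 W)) (pt : Sym2 W → ℕ) (vp : W → ℕ) (k : ℕ)
    (hS : SkelL H sup hub DZ F pt vp k) (Pi : Finset ℕ) (Snk : Finset (Sym2 W))
    (hP : Sac H sup hub F pt vp Pi Snk) :
    GOk H.edgeFinset own (rgS H hub vp Pi) (fkS F pt Pi) Snk (seS DZ F Snk pt Pi) pt vp k ∧
      (univ \ rgS H hub vp Pi).card ≤ hub.card + 2 * k * Pi.card ∧
      (seS DZ F Snk pt Pi).card ≤ DZ.card + k * Pi.card := by
  classical
  have supE : ∀ w, leavesAt own w = ∅ ↔ w ∉ sup := by
    intro w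
    rw [hsup w, not_nonempty_iff_eq_empty]
  -- slots in terms of `slotsAt`
  have hsl : ∀ w ∈ rgS H hub vp Pi, (fkS F pt Pi).filter (fun e => w ∈ e) = slotsAt F w :=
    fun w hw => ExP1_slots hS hw
  have hhub : ∀ w, w ∈ hub → ∃ e ∈ seS DZ F Snk pt Pi, w ∈ e ∧
      ∃ e' ∈ seS DZ F Snk pt Pi, e' ≠ e ∧ ∃ v, v ∈ e ∧ v ∈ e' := by
    intro w hw
    obtain ⟨e, he, hwe, e', he', h1, v, h2, h3⟩ := hS.dz_adj w hw
    exact ⟨e, ExP1_mem_se.2 (Or.inl he), hwe, e', ExP1_mem_se.2 (Or.inl he'), h1, v, h2, h3⟩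
  refine ⟨?_, ?_, ?_⟩
  · constructor
    case star_Rg =>
      intro w hw
      rw [ExP1_mem_rg]
      constructor
      · intro hc
        obtain ⟨e, he, hwe, -⟩ := hS.dz_adj w hc
        have h1 : e ∈ edgesAt H.edgeFinset w := by
          simp only [edgesAt, mem_filter, SimpleGraph.mem_edgeFinset]
          exact ⟨hS.dz_edge e he, hwe⟩
        rw [hw] at h1
        exact notMem_empty _ h1
      · intro hd
        exfalso
        rw [← SimpleGraph.card_neighborFinset_eq_degree] at hd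
        obtain ⟨y, hy⟩ := card_pos.1 hd
        rw [SimpleGraph.mem_neighborFinset] at hy
        have h1 : s(w, y) ∈ edgesAt H.edgeFinset w := by
          simp only [edgesAt, mem_filter, SimpleGraph.mem_edgeFinset]
          exact ⟨hy, Sym2.mem_mk_left _ _⟩
        rw [hw] at h1
        exact notMem_empty _ h1
    case fkE =>
      intro e he
      rw [SimpleGraph.mem_edgeFinset]
      exact hS.edge e (ExP1_mem_fk.1 he).1
    case snkE =>
      intro e he
      rw [SimpleGraph.mem_edgeFinset]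
      exact hP.edge e he
    case seE =>
      intro e he
      rw [SimpleGraph.mem_edgeFinset]
      rcases ExP1_mem_se.1 he with h1 | ⟨h1, -, -⟩
      · exact hS.dz_edge e h1
      · exact hS.edge e h1
    case fk_snk =>
      rw [disjoint_left]
      intro e he
      obtain ⟨h1, h2⟩ := ExP1_mem_fk.1 he
      exact ExP1_not_snk hS hP h1 h2
    case fk_se =>
      rw [disjoint_left]
      intro e he he2
      obtain ⟨h1, h2⟩ := ExP1_mem_fk.1 he
      rcases ExP1_mem_se.1 he2 with h3 | ⟨-, h3, -⟩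
      · exact ExP1_dz hS h1 h3
      · exact h2 h3
    case snk_se =>
      rw [disjoint_left]
      intro e he he2
      rcases ExP1_mem_se.1 he2 with h3 | ⟨-, -, h3⟩
      · obtain ⟨w, hw, hwh⟩ := hP.nonhub e he
        exact hwh (hS.dz_hub e h3 w hw)
      · exact h3 he
    case fk_ne =>
      intro e he
      obtain ⟨h1, h2⟩ := ExP1_mem_fk.1 he
      obtain ⟨w, hw, hwh⟩ := hS.nonhub e h1
      refine ⟨w, hw, ExP1_mem_rg.2 ⟨hwh, fun _ => ?_⟩⟩
      rw [← hS.vp_eq e h1 w hw hwh]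
      exact h2
    case snk_irr =>
      intro e he w hw
      rw [ExP1_mem_rg]
      rintro ⟨h1, h2⟩
      exact h2 (ExP1_deg (hP.edge e he) hw) (hP.irr e he w hw h1)
    case se_irr => exact fun e he w hw => ExP1_se_irr hS he hw
    case vp_eq =>
      intro e he w hw hwR
      exact hS.vp_eq e (ExP1_mem_fk.1 he).1 w hw (ExP1_mem_rg.1 hwR).1
    case part_le =>
      intro i
      refine le_trans (card_le_card ?_) (hS.part_le i)
      exact filter_subset_filter _ (filter_subset _ _)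
    case has_slot =>
      intro w hw hE
      rw [hsl w hw]
      exact hS.has_slot w (ExP1_mem_rg.1 hw).1 (ExP1_deg' hE)
    case slots_ne =>
      intro w hw w' hw' hne h1 h2
      rw [hsl w hw] at h1 h2
      rw [hsl w' hw'] at h2
      rw [← hsup, ← hsup]
      exact hS.slots_ne w w' (ExP1_mem_rg.1 hw).1 (ExP1_mem_rg.1 hw').1 hne h1 h2
    case count =>
      intro i
      by_cases hi : i ∈ Pi
      · have key : ∀ w ∈ rgS H hub vp Pi, vp w = i →
            ((fkS F pt Pi).filter fun e => w ∈ e).card = 0 := by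
          intro w hw hwi
          rw [card_eq_zero, filter_eq_empty_iff]
          intro e he hwe
          obtain ⟨h1, h2⟩ := ExP1_mem_fk.1 he
          apply h2
          rw [hS.vp_eq e h1 w hwe (ExP1_mem_rg.1 hw).1, hwi]
          exact hi
        have e1 : ((rgS H hub vp Pi).filter fun w => vp w = i ∧ leavesAt own w = ∅ ∧
            ((fkS F pt Pi).filter fun e => w ∈ e).card = 1).card = 0 := by
          rw [card_eq_zero, filter_eq_empty_iff]
          rintro w hw ⟨h1, -, h2⟩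
          rw [key w hw h1] at h2
          omega
        have e2 : ((rgS H hub vp Pi).filter fun w => vp w = i ∧ (leavesAt own w).Nonempty ∧
            ((fkS F pt Pi).filter fun e => w ∈ e).card = 1).card = 0 := by
          rw [card_eq_zero, filter_eq_empty_iff]
          rintro w hw ⟨h1, -, h2⟩
          rw [key w hw h1] at h2
          omega
        have e3 : ((rgS H hub vp Pi).filter fun w => vp w = i ∧
            2 ≤ ((fkS F pt Pi).filter fun e => w ∈ e).card).card = 0 := by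
          rw [card_eq_zero, filter_eq_empty_iff]
          rintro w hw ⟨h1, h2⟩
          rw [key w hw h1] at h2
          omega
        rw [e1, e2, e3]
        omega
      · have e0 : (fkS F pt Pi).filter (fun e => pt e = i) = F.filter fun e => pt e = i := by
          ext e
          simp only [mem_filter, ExP1_mem_fk]
          constructor
          · rintro ⟨⟨h1, -⟩, h2⟩
            exact ⟨h1, h2⟩
          · rintro ⟨h1, h2⟩
            exact ⟨⟨h1, by rw [h2]; exact hi⟩, h2⟩
        have e1 : ((rgS H hub vp Pi).filter fun w => vp w = i ∧ leavesAt own w = ∅ ∧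
            ((fkS F pt Pi).filter fun e => w ∈ e).card = 1).card ≤
            (univ.filter fun w => w ∉ hub ∧ vp w = i ∧ w ∉ sup ∧
              (slotsAt F w).card = 1).card := by
          refine card_le_card ?_
          intro w hw
          obtain ⟨hw0, hw1, hw2, hw3⟩ := mem_filter.1 hw
          rw [hsl w hw0] at hw3
          exact mem_filter.2 ⟨mem_univ _, (ExP1_mem_rg.1 hw0).1, hw1, (supE w).1 hw2, hw3⟩
        have e2 : ((rgS H hub vp Pi).filter fun w => vp w = i ∧ (leavesAt own w).Nonempty ∧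
            ((fkS F pt Pi).filter fun e => w ∈ e).card = 1).card ≤
            (univ.filter fun w => w ∉ hub ∧ vp w = i ∧ w ∈ sup ∧
              (slotsAt F w).card = 1).card := by
          refine card_le_card ?_
          intro w hw
          obtain ⟨hw0, hw1, hw2, hw3⟩ := mem_filter.1 hw
          rw [hsl w hw0] at hw3
          exact mem_filter.2 ⟨mem_univ _, (ExP1_mem_rg.1 hw0).1, hw1, (hsup w).2 hw2, hw3⟩
        have e3 : ((rgS H hub vp Pi).filter fun w => vp w = i ∧
            2 ≤ ((fkS F pt Pi).filter fun e => w ∈ e).card).card ≤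
            (univ.filter fun w => w ∉ hub ∧ vp w = i ∧ 2 ≤ (slotsAt F w).card).card := by
          refine card_le_card ?_
          intro w hw
          obtain ⟨hw0, hw1, hw3⟩ := mem_filter.1 hw
          rw [hsl w hw0] at hw3
          exact mem_filter.2 ⟨mem_univ _, (ExP1_mem_rg.1 hw0).1, hw1, hw3⟩
        have e4 := hS.count i
        rw [e0]
        omega
    case cov =>
      intro w hw hl
      by_cases hwh : w ∈ hub
      · obtain ⟨e, he, hwe, e', he', h1, h2⟩ := hhub w hwh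
        exact ⟨e, he, hwe, Or.inl ⟨e', he', h1, h2⟩⟩
      · rw [ExP1_mem_rg] at hw
        have h3 : vp w ∈ Pi := by
          by_contra hc
          exact hw ⟨hwh, fun _ => hc⟩
        obtain ⟨e, he, hep, hes, hwe, hor⟩ := hP.cov w hwh ((supE w).1 hl) h3
        have he1 : e ∈ seS DZ F Snk pt Pi := ExP1_mem_se.2 (Or.inr ⟨he, hep, hes⟩)
        refine ⟨e, he1, hwe, ?_⟩
        rcases hor with ⟨e', he', hep', hes', hne, hv⟩ | ⟨v, hv, hv1 | hv1⟩
        · exact Or.inl ⟨e', ExP1_mem_se.2 (Or.inr ⟨he', hep', hes'⟩), hne, hv⟩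
        · exact Or.inr ⟨v, hv, ExP1_se_irr hS he1 hv, (hsup v).1 hv1⟩
        · left
          obtain ⟨e', he', hve', -⟩ := hS.dz_adj v hv1
          refine ⟨e', ExP1_mem_se.2 (Or.inl he'), ?_, v, hv, hve'⟩
          rintro rfl
          exact ExP1_dz hS he he'
    case hub_cov =>
      intro e he y hy hyR
      obtain ⟨h1, h2⟩ := ExP1_mem_fk.1 he
      have hyh : y ∈ hub := by
        by_contra hc
        refine hyR (ExP1_mem_rg.2 ⟨hc, fun _ => ?_⟩)
        rw [← hS.vp_eq e h1 y hy hc]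
        exact h2
      obtain ⟨e', he', hye', -⟩ := hhub y hyh
      exact ⟨e', he', hye'⟩
  · have e1 : univ \ rgS H hub vp Pi ⊆
        hub ∪ (F.filter fun e => pt e ∈ Pi).biUnion fun e => e.toFinset := by
      intro w hw
      rw [mem_sdiff, ExP1_mem_rg] at hw
      rw [mem_union]
      by_cases hwh : w ∈ hub
      · exact Or.inl hwh
      · right
        obtain ⟨hd, hp⟩ : 0 < H.degree w ∧ vp w ∈ Pi := by
          by_contra hc
          exact hw.2 ⟨hwh, fun hd hp => hc ⟨hd, hp⟩⟩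
        obtain ⟨e, he⟩ := hS.has_slot w hwh hd
        obtain ⟨he1, he2⟩ := mem_filter.1 he
        rw [mem_biUnion]
        refine ⟨e, mem_filter.2 ⟨he1, ?_⟩, by rwa [Sym2.mem_toFinset]⟩
        rw [hS.vp_eq e he1 w he2 hwh]
        exact hp
    have e2 : ((F.filter fun e => pt e ∈ Pi).biUnion fun e => e.toFinset).card ≤
        2 * (F.filter fun e => pt e ∈ Pi).card := by
      refine card_biUnion_le.trans ?_
      calc ∑ e ∈ F.filter (fun e => pt e ∈ Pi), e.toFinset.card
          ≤ ∑ e ∈ F.filter (fun e => pt e ∈ Pi), 2 := by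
            refine sum_le_sum fun e _ => ?_
            by_cases hd : e.IsDiag
            · rw [Sym2.card_toFinset_of_isDiag _ hd]; omega
            · rw [Sym2.card_toFinset_of_not_isDiag _ hd]
        _ = 2 * (F.filter fun e => pt e ∈ Pi).card := by
            rw [sum_const, smul_eq_mul, mul_comm]
    have e3 := ExP1_card hS Pi
    calc (univ \ rgS H hub vp Pi).card
        ≤ (hub ∪ (F.filter fun e => pt e ∈ Pi).biUnion fun e => e.toFinset).card :=
          card_le_card e1
      _ ≤ hub.card + ((F.filter fun e => pt e ∈ Pi).biUnion fun e => e.toFinset).card :=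
          card_union_le _ _
      _ ≤ hub.card + 2 * (k * Pi.card) := by omega
      _ = hub.card + 2 * k * Pi.card := by rw [mul_assoc]
  · refine (card_union_le _ _).trans ?_
    have e3 := ExP1_card hS Pi
    have e4 : (F.filter fun e => pt e ∈ Pi ∧ e ∉ Snk).card ≤
        (F.filter fun e => pt e ∈ Pi).card :=
      card_le_card fun e he => by
        obtain ⟨h1, h2, -⟩ := mem_filter.1 he
        exact mem_filter.2 ⟨h1, h2⟩
    omega

/-- everything sacrificed, no sinks -/
theorem sac_all (H : SimpleGraph W) [DecidableRel H.Adj] (sup hub : Finset W)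
    (DZ F : Finset (Sym2 W)) (pt : Sym2 W → ℕ) (vp : W → ℕ) (k : ℕ)
    (hS : SkelL H sup hub DZ F pt vp k) (hdeg : ∀ w, w ∉ sup → 2 ≤ H.degree w) :
    Sac H sup hub F pt vp ((univ.filter fun w => w ∉ hub ∧ 0 < H.degree w).image vp) ∅ ∧
      fkS F pt ((univ.filter fun w => w ∉ hub ∧ 0 < H.degree w).image vp) = ∅ := by
  classical
  have hmem : ∀ w, w ∉ hub → 0 < H.degree w →
      vp w ∈ (univ.filter fun w => w ∉ hub ∧ 0 < H.degree w).image vp := fun w h1 h2 =>
    mem_image_of_mem vp (mem_filter.2 ⟨mem_univ _, h1, h2⟩)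
  have hF : ∀ e ∈ F, pt e ∈ (univ.filter fun w => w ∉ hub ∧ 0 < H.degree w).image vp := by
    intro e he
    obtain ⟨w, hw, hwh⟩ := hS.nonhub e he
    rw [hS.vp_eq e he w hw hwh]
    exact hmem w hwh (ExP1_deg (hS.edge e he) hw)
  refine ⟨⟨?_, ?_, ?_, ?_, ?_⟩, ?_⟩
  · exact fun e he => absurd he (notMem_empty _)
  · exact fun e he => absurd he (notMem_empty _)
  · exact fun e he => absurd he (notMem_empty _)
  · intro w hwh hws _
    have hd : 0 < H.degree w := by have := hdeg w hws; omega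
    obtain ⟨e, he⟩ := hS.has_slot w hwh hd
    obtain ⟨he1, he2⟩ := mem_filter.1 he
    refine ⟨e, he1, hF e he1, notMem_empty _, he2, ?_⟩
    by_cases hw2 : ∃ e' ∈ slotsAt F w, e' ≠ e
    · obtain ⟨e', h4, h5⟩ := hw2
      obtain ⟨h6, h7⟩ := mem_filter.1 h4
      exact Or.inl ⟨e', h6, hF e' h6, notMem_empty _, h5, w, he2, h7⟩
    · push Not at hw2
      have hsw : slotsAt F w = {e} := by
        ext e'
        rw [mem_singleton]
        exact ⟨fun h4 => hw2 e' h4, fun h4 => h4 ▸ he⟩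
      obtain ⟨y, hy⟩ := Sym2.mem_iff_exists.1 he2
      have hye : y ∈ e := by rw [hy]; exact Sym2.mem_mk_right w y
      have hyw : w ≠ y := by
        rintro rfl
        have h4 := hS.edge e he1
        rw [hy, SimpleGraph.mem_edgeSet] at h4
        exact H.loopless.irrefl w h4
      by_cases hyh : y ∈ hub
      · exact Or.inr ⟨y, hye, Or.inr hyh⟩
      by_cases hys : y ∈ sup
      · exact Or.inr ⟨y, hye, Or.inl hys⟩
      by_cases hy2 : ∃ e' ∈ slotsAt F y, e' ≠ e
      · obtain ⟨e', h4, h5⟩ := hy2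
        obtain ⟨h6, h7⟩ := mem_filter.1 h4
        exact Or.inl ⟨e', h6, hF e' h6, notMem_empty _, h5, y, hye, h7⟩
      · exfalso
        push Not at hy2
        have hsy : slotsAt F y = {e} := by
          ext e'
          rw [mem_singleton]
          exact ⟨fun h4 => hy2 e' h4, fun h4 => h4 ▸ mem_filter.2 ⟨he1, hye⟩⟩
        exact hws (hS.slots_ne w y hwh hyh hyw ⟨e, he⟩ (by rw [hsw, hsy])).1
  · intro i hi
    obtain ⟨w, hw, hwi⟩ := mem_image.1 hi
    obtain ⟨-, h1, h2⟩ := mem_filter.1 hw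
    exact ⟨w, h1, h2, hwi⟩
  · rw [fkS, filter_eq_empty_iff]
    exact fun e he hc => hc (hF e he)

end Pool.Agent.AML
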