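import Pool.Agent.AMF.Defs
import Pool.Agent.AMG.Bg2

/-!
# Labels of the safe edges and of the background edges
-/

set_option autoImplicit false
set_option linter.unusedSectionVars false
set_option linter.unusedVariables false

namespace Pool.Agent.AML

open Finset Pool.Agent.AMF

variable {W : Type} [Fintype W] [DecidableEq W]

private theorem ExP2_step0 {α : Type*} [DecidableEq α] (F : Finset α) (a : ℕ) :
    ∃ g : α → ℕ, Set.InjOn g F ∧ ∀ e ∈ F, a < g e ∧ g e ≤ a + F.card := by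
  classical
  refine ⟨fun e => if h : e ∈ F then a + 1 + (F.equivFin ⟨e, h⟩ : ℕ) else 0, ?_, ?_⟩
  · intro x hx y hy hxy
    have hx' : x ∈ F := hx
    have hy' : y ∈ F := hy
    simp only [dif_pos hx', dif_pos hy'] at hxy
    have h1 : (F.equivFin ⟨x, hx'⟩ : ℕ) = (F.equivFin ⟨y, hy'⟩ : ℕ) := by omega
    have h2 := F.equivFin.injective (Fin.ext h1)
    exact congrArg Subtype.val h2
  · intro e he
    simp only [dif_pos he]
    have := (F.equivFin ⟨e, he⟩).2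
    omega

/-- two bijections onto consecutive ranges -/
private theorem ExP2_glue {α : Type*} [DecidableEq α] (F F' E : Finset α) (g g' : α → ℕ) (b : ℕ)
    (hE : ∀ e ∈ E, e ∈ F ∨ (e ∉ F ∧ e ∈ F')) (hi : Set.InjOn g F) (hi' : Set.InjOn g' F')
    (h : ∀ e ∈ F, g e ≤ b) (h' : ∀ e ∈ F', b < g' e) :
    Set.InjOn (fun e => if e ∈ F then g e else g' e) E := by
  intro x hx y hy hxy
  have hx' := hE x hx
  have hy' := hE y hy
  simp only at hxy
  rcases hx' with h1 | ⟨h1, h1'⟩ <;> rcases hy' with h2 | ⟨h2, h2'⟩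
  · rw [if_pos h1, if_pos h2] at hxy
    exact hi h1 h2 hxy
  · rw [if_pos h1, if_neg h2] at hxy
    have := h x h1
    have := h' y h2'
    omega
  · rw [if_neg h1, if_pos h2] at hxy
    have := h y h2
    have := h' x h1'
    omega
  · rw [if_neg h1, if_neg h2] at hxy
    exact hi' h1' h2' hxy

open Classical in
/-- **Main case** (`|Snk| = s1 + 3 M0 + 1`). Background edges `BG = E \ (FK ∪ Snk ∪ SE0)`; labels of `SE0`: any bijection
onto `(a, a + |SE0|]`; labels of `BG`: `AMG.bg2` for `BG`, `hub = univ \ Rg`, `a + s0`, `N = |FK|`: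
`a + s0 + |BG| + |FK| + 3 M0 + 1 = a + |E|`. For `w ∈ Rg` the edges of `E` at `w` outside `FK` are in `BG`. `e2 w` = an
edge of `BG` at `w ∈ R`. -/
theorem edge_labels (E FK Snk SE0 : Finset (Sym2 W)) (hE : ∀ e ∈ E, ¬ e.IsDiag) (Rg R : Finset W)
    (hfk : FK ⊆ E) (hsnk : Snk ⊆ E) (hse : SE0 ⊆ E) (d1 : Disjoint FK Snk) (d2 : Disjoint FK SE0)
    (d3 : Disjoint Snk SE0) (snk_irr : ∀ e ∈ Snk, ∀ w ∈ e, w ∉ Rg)
    (se_irr : ∀ e ∈ SE0, ∀ w ∈ e, w ∉ Rg) (hR : ∀ w ∈ R, w ∈ Rg ∧ ∃ e ∈ edgesAt E w, e ∉ FK)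
    (p : ℕ) [NeZero p] (c0 : W → ZMod p) (a s0 s1 M0 B : ℕ) (hs0 : s0 = SE0.card + s1)
    (hcard : Snk.card = s1 + 3 * M0 + 1) (hB : 0 < B) (hM : 2 * Fintype.card W ≤ B * M0)
    (hp : 2 * (2 * FK.card + Fintype.card W + 3 * M0 + 3) < p) :
    ∃ (g0 : Sym2 W → ℕ) (loH : ℕ), Set.InjOn g0 (E \ (FK ∪ Snk) : Finset (Sym2 W)) ∧
      (∀ e ∈ SE0, a < g0 e ∧ g0 e ≤ a + s0) ∧
      (∀ e ∈ E, e ∉ FK → e ∉ Snk → e ∉ SE0 → a + s0 < g0 e ∧ g0 e ≤ a + E.card ∧
        (g0 e < loH ∨ loH + FK.card ≤ g0 e)) ∧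
      a + s0 < loH ∧ loH + FK.card ≤ a + E.card + 1 ∧
      (∀ y : ZMod p, (Rg.filter fun w => (∃ e ∈ edgesAt E w, e ∉ FK) ∧
        c0 w + ∑ e ∈ (edgesAt E w).filter (fun e => e ∉ FK), (g0 e : ZMod p) = y).card ≤
          2 * B + 2) ∧
      ∀ t : ZMod p, 6 * (R.filter fun w => ∃ l ∈ Ico loH (loH + FK.card),
        c0 w + ∑ e ∈ (edgesAt E w).filter (fun e => e ∉ FK), (g0 e : ZMod p) +
          (l : ZMod p) = t).card ≤ 5 * R.card + 18 := by
  classical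
  set BG : Finset (Sym2 W) := E \ (FK ∪ Snk ∪ SE0) with hBG
  have hBGE : BG ⊆ E := sdiff_subset
  have hcE : E.card = BG.card + (FK.card + Snk.card + SE0.card) := by
    have h1 : FK ∪ Snk ∪ SE0 ⊆ E := union_subset (union_subset hfk hsnk) hse
    have h2 : BG.card + (FK ∪ Snk ∪ SE0).card = E.card := card_sdiff_add_card_eq_card h1
    rw [card_union_of_disjoint (disjoint_union_left.2 ⟨d2, d3⟩), card_union_of_disjoint d1] at h2
    omega
  have hmemBG : ∀ e, e ∈ BG ↔ e ∈ E ∧ e ∉ FK ∧ e ∉ Snk ∧ e ∉ SE0 := by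
    intro e
    rw [hBG, mem_sdiff, mem_union, mem_union]
    tauto
  -- edges at regular vertices
  have hreg : ∀ w ∈ Rg, (edgesAt E w).filter (fun e => e ∉ FK) = BG.filter (fun e => w ∈ e) := by
    intro w hw
    ext e
    rw [mem_filter, mem_filter, edgesAt, mem_filter, hmemBG]
    constructor
    · rintro ⟨⟨h1, h2⟩, h3⟩
      exact ⟨⟨h1, h3, fun h => snk_irr e h w h2 hw, fun h => se_irr e h w h2 hw⟩, h2⟩
    · rintro ⟨⟨h1, h2, -, -⟩, h3⟩
      exact ⟨⟨h1, h3⟩, h2⟩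
  have hch : ∀ w, ∃ e, w ∈ R → e ∈ BG ∧ w ∈ e := by
    intro w
    by_cases hw : w ∈ R
    · obtain ⟨h1, e, he, hefk⟩ := hR w hw
      have h2 : e ∈ (edgesAt E w).filter (fun e => e ∉ FK) := mem_filter.2 ⟨he, hefk⟩
      rw [hreg w h1, mem_filter] at h2
      exact ⟨e, fun _ => h2⟩
    · exact ⟨s(w, w), fun h => absurd h hw⟩
  choose e2 he2 using hch
  obtain ⟨g, lo, hgi, hgr, hgf, hlo1, hlo2, hmul, hload⟩ := Pool.Agent.AMG.bg2 BG
    (fun e he => hE e (hBGE he)) (univ \ Rg) R e2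
    (fun w hw => ⟨(he2 w hw).1, (he2 w hw).2, fun h => (mem_sdiff.1 h).2 (hR w hw).1⟩)
    p c0 (a + s0) FK.card M0 B hB hM hp
  obtain ⟨gS, hSi, hSr⟩ := ExP2_step0 SE0 a
  set g0 : Sym2 W → ℕ := fun e => if e ∈ SE0 then gS e else g e with hg0
  have hgBG : ∀ e ∈ BG, g0 e = g e := by
    intro e he
    simp only [hg0]
    rw [if_neg ((hmemBG e).1 he).2.2.2]
  have hsum : ∀ w, ∑ e ∈ BG.filter (fun e => w ∈ e), (g0 e : ZMod p) =
      ∑ e ∈ BG.filter (fun e => w ∈ e), (g e : ZMod p) := fun w =>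
    sum_congr rfl fun e he => by rw [hgBG e (mem_filter.1 he).1]
  refine ⟨g0, lo, ?_, ?_, ?_, by omega, by omega, ?_, ?_⟩
  · refine ExP2_glue SE0 BG _ gS g (a + s0) ?_ hSi hgi ?_ ?_
    · intro e he
      rw [mem_sdiff, mem_union, not_or] at he
      by_cases h : e ∈ SE0
      · exact Or.inl h
      · exact Or.inr ⟨h, (hmemBG e).2 ⟨he.1, he.2.1, he.2.2, h⟩⟩
    · intro e he
      have := hSr e he
      omega
    · intro e he
      have := hgr e he
      omega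
  · intro e he
    have h1 : g0 e = gS e := by
      simp only [hg0]
      rw [if_pos he]
    have := hSr e he
    omega
  · intro e he h1 h2 h3
    have h4 : e ∈ BG := (hmemBG e).2 ⟨he, h1, h2, h3⟩
    rw [hgBG e h4]
    have h5 := hgr e h4
    have h6 := hgf e h4
    omega
  · intro y
    refine le_trans (card_le_card ?_) (hmul y)
    intro w hw
    rw [mem_filter] at hw
    obtain ⟨h1, ⟨e, he, hefk⟩, h3⟩ := hw
    have h2 : e ∈ (edgesAt E w).filter (fun e => e ∉ FK) := mem_filter.2 ⟨he, hefk⟩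
    rw [hreg w h1, mem_filter] at h2
    rw [hreg w h1, hsum w] at h3
    rw [mem_filter]
    exact ⟨mem_univ _, fun h => (mem_sdiff.1 h).2 h1, ⟨e, h2⟩, h3⟩
  · intro t
    refine le_trans (Nat.mul_le_mul_left 6 (card_le_card ?_)) (hload t)
    intro w hw
    rw [mem_filter] at hw
    obtain ⟨h1, l, hl, h3⟩ := hw
    rw [hreg w (hR w h1).1, hsum w] at h3
    rw [mem_Ico] at hl
    rw [mem_filter]
    exact ⟨h1, l, hl.1, hl.2, h3⟩

/-- **Degenerate case** (`FK = Snk = ∅`, `s0 = |SE0|`). -/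
theorem edge_labels0 (E SE0 : Finset (Sym2 W)) (hse : SE0 ⊆ E) (a : ℕ) :
    ∃ g0 : Sym2 W → ℕ, Set.InjOn g0 E ∧
      (∀ e ∈ SE0, a < g0 e ∧ g0 e ≤ a + SE0.card) ∧
      ∀ e ∈ E, e ∉ SE0 → a + SE0.card < g0 e ∧ g0 e ≤ a + E.card := by
  classical
  obtain ⟨gS, hSi, hSr⟩ := ExP2_step0 SE0 a
  obtain ⟨g, hgi, hgr⟩ := ExP2_step0 (E \ SE0) (a + SE0.card)
  have hc : (E \ SE0).card + SE0.card = E.card := card_sdiff_add_card_eq_card hse
  refine ⟨fun e => if e ∈ SE0 then gS e else g e, ?_, ?_, ?_⟩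
  · refine ExP2_glue SE0 (E \ SE0) E gS g (a + SE0.card) ?_ hSi hgi ?_ ?_
    · intro e he
      by_cases h : e ∈ SE0
      · exact Or.inl h
      · exact Or.inr ⟨h, mem_sdiff.2 ⟨he, h⟩⟩
    · intro e he
      exact (hSr e he).2
    · intro e he
      exact (hgr e he).1
  · intro e he
    simp only
    rw [if_pos he]
    exact hSr e he
  · intro e he h
    simp only
    rw [if_neg h]
    have := hgr e (mem_sdiff.2 ⟨he, h⟩)
    omega

end Pool.Agent.AML
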