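import Pool.Agent.AML.Prep

/-!
# Kinds of the leaf slots
-/

set_option autoImplicit false
set_option linter.unusedSectionVars false
set_option linter.unusedVariables false

namespace Pool.Agent.AML

open Finset Pool.Agent.AMF
open Pool.Agent.AMH (Kn)

variable {W X : Type} [Fintype W] [DecidableEq W] [Fintype X] [DecidableEq X]

open Classical in
private theorem LeafK_vertex (E : Finset (Sym2 W)) (own : X → W) (Rg : Finset W)
    (hst : ∀ w, edgesAt E w = ∅ → w ∈ Rg ∧ 3 ≤ (leavesAt own w).card) (w : W) :
    ∃ f : X → Option Kn,
      (w ∉ Rg → ∀ x, f x = none) ∧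
      (w ∈ Rg → (edgesAt E w).Nonempty → (leavesAt own w).Nonempty →
        ∃ x, (leavesAt own w).filter (fun x => f x ≠ none) = {x} ∧ f x = some 1) ∧
      (edgesAt E w = ∅ → (leavesAt own w).card = 3 → ∃ x y z,
        leavesAt own w = {x, y, z} ∧ f x = some 2 ∧ f y = some 3 ∧ f z = some 4) ∧
      (edgesAt E w = ∅ → 4 ≤ (leavesAt own w).card → ∃ x y z u,
        (leavesAt own w).filter (fun x => f x ≠ none) = {x, y, z, u} ∧
          ((leavesAt own w).filter (fun x => f x ≠ none)).card = 4 ∧
          f x = some 1 ∧ f y = some 1 ∧ f z = some 1 ∧ f u = some 5) ∧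
      ((leavesAt own w).filter (fun x => f x ≠ none)).card ≤ 4 ∧
      (w ∈ Rg → (leavesAt own w).Nonempty →
        1 ≤ ((leavesAt own w).filter (fun x => f x ≠ none)).card) := by
  by_cases hR : w ∈ Rg
  swap
  · refine ⟨fun _ => none, fun _ _ => rfl, fun h => absurd h hR,
      fun h => absurd (hst w h).1 hR, fun h => absurd (hst w h).1 hR, ?_, fun h => absurd h hR⟩
    simp
  by_cases hE : edgesAt E w = ∅
  · have h3 := (hst w hE).2
    by_cases hc : (leavesAt own w).card = 3
    · obtain ⟨x, y, z, hxy, hxz, hyz, hL⟩ := Finset.card_eq_three.1 hc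
      refine ⟨fun t => if t = x then some 2 else if t = y then some 3 else
        if t = z then some 4 else none, fun h => absurd hR h, ?_, ?_, ?_, ?_, ?_⟩
      · intro _ h
        rw [hE] at h
        exact absurd h Finset.not_nonempty_empty
      · intro _ _
        refine ⟨x, y, z, hL, ?_, ?_, ?_⟩
        · simp
        · simp [hxy.symm]
        · simp [hxz.symm, hyz.symm]
      · intro _ h
        omega
      · exact (Finset.card_filter_le _ _).trans (by omega)
      · intro _ _
        rw [Nat.succ_le_iff, Finset.card_pos]
        refine ⟨x, ?_⟩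
        rw [Finset.mem_filter, hL]
        simp
    · have h4 : 4 ≤ (leavesAt own w).card := by omega
      obtain ⟨S, hS, hSc⟩ := Finset.exists_subset_card_eq h4
      obtain ⟨u, hu⟩ : S.Nonempty := by rw [← Finset.card_pos]; omega
      have hc3 : (S.erase u).card = 3 := by rw [Finset.card_erase_of_mem hu, hSc]
      obtain ⟨x, y, z, hxy, hxz, hyz, hT⟩ := Finset.card_eq_three.1 hc3
      have hux : u ≠ x := by
        rintro rfl
        have : u ∈ S.erase u := by rw [hT]; simp
        exact Finset.notMem_erase _ _ this
      have huy : u ≠ y := by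
        rintro rfl
        have : u ∈ S.erase u := by rw [hT]; simp
        exact Finset.notMem_erase _ _ this
      have huz : u ≠ z := by
        rintro rfl
        have : u ∈ S.erase u := by rw [hT]; simp
        exact Finset.notMem_erase _ _ this
      have hSe : S = {x, y, z, u} := by
        rw [← Finset.insert_erase hu, hT]
        ext t
        simp only [Finset.mem_insert, Finset.mem_singleton]
        tauto
      have hf : (leavesAt own w).filter (fun t => (if t = u then some 5 else
          if t ∈ S then some 1 else none : Option Kn) ≠ none) = S := by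
        ext t
        rw [Finset.mem_filter]
        constructor
        · rintro ⟨_, h⟩
          by_contra hn
          apply h
          rw [if_neg (fun h' => hn (by rw [h']; exact hu)), if_neg hn]
        · intro h
          refine ⟨hS h, ?_⟩
          split_ifs
          · simp
          · simp
      refine ⟨fun t => if t = u then some 5 else if t ∈ S then some 1 else none,
        fun h => absurd hR h, ?_, ?_, ?_, ?_, ?_⟩
      · intro _ h
        rw [hE] at h
        exact absurd h Finset.not_nonempty_empty
      · intro _ h
        exact absurd h hc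
      · intro _ _
        refine ⟨x, y, z, u, ?_, ?_, ?_, ?_, ?_, ?_⟩
        · rw [hf]; exact hSe
        · rw [hf]; exact hSc
        · have : x ∈ S := by rw [hSe]; simp
          simp only [hux.symm, if_false, this, if_true]
        · have : y ∈ S := by rw [hSe]; simp
          simp only [huy.symm, if_false, this, if_true]
        · have : z ∈ S := by rw [hSe]; simp
          simp only [huz.symm, if_false, this, if_true]
        · simp only [if_true]
      · rw [hf]; omega
      · intro _ _
        rw [hf]; omega
  · have hE' : (edgesAt E w).Nonempty := Finset.nonempty_iff_ne_empty.2 hE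
    by_cases hL : (leavesAt own w).Nonempty
    · obtain ⟨x, hx⟩ := hL
      have hf : (leavesAt own w).filter (fun t => (if t = x then some 1 else none : Option Kn) ≠
          none) = {x} := by
        ext t
        rw [Finset.mem_filter, Finset.mem_singleton]
        constructor
        · rintro ⟨_, h⟩
          by_contra hn
          exact h (if_neg hn)
        · intro h
          refine ⟨by rw [h]; exact hx, ?_⟩
          rw [if_pos h]
          simp
      refine ⟨fun t => if t = x then some 1 else none, fun h => absurd hR h, ?_,
        fun h => absurd h hE, fun h => absurd h hE, ?_, ?_⟩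
      · intro _ _ _
        exact ⟨x, hf, if_pos rfl⟩
      · rw [hf, Finset.card_singleton]; omega
      · intro _ _
        rw [hf, Finset.card_singleton]
    · refine ⟨fun _ => none, fun h => absurd hR h, fun _ _ h => absurd h hL,
        fun h => absurd h hE, fun h => absurd h hE, ?_, fun _ h => absurd h hL⟩
      simp

/-- **Kinds.** One leaf of kind `1` at every regular vertex with leaves and edges of `H`; kinds `2, 3, 4` at
the centres with three leaves; kinds `1, 1, 1, 5` for four leaves at the other centres. -/
theorem exists_kl (E : Finset (Sym2 W)) (own : X → W) (Rg : Finset W)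
    (hst : ∀ w, edgesAt E w = ∅ → w ∈ Rg ∧ 3 ≤ (leavesAt own w).card) :
    ∃ kl : X → Option Kn,
      (∀ x, own x ∉ Rg → kl x = none) ∧
      (∀ w ∈ Rg, (edgesAt E w).Nonempty → (leavesAt own w).Nonempty →
        ∃ x, (leavesAt own w).filter (fun x => kl x ≠ none) = {x} ∧ kl x = some 1) ∧
      (∀ w, edgesAt E w = ∅ → (leavesAt own w).card = 3 → ∃ x y z,
        leavesAt own w = {x, y, z} ∧ kl x = some 2 ∧ kl y = some 3 ∧ kl z = some 4) ∧
      (∀ w, edgesAt E w = ∅ → 4 ≤ (leavesAt own w).card → ∃ x y z u,
        (leavesAt own w).filter (fun x => kl x ≠ none) = {x, y, z, u} ∧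
          ((leavesAt own w).filter (fun x => kl x ≠ none)).card = 4 ∧
          kl x = some 1 ∧ kl y = some 1 ∧ kl z = some 1 ∧ kl u = some 5) ∧
      (univ.filter fun x => kl x ≠ none).card ≤ 4 * Fintype.card W ∧
      (Rg.filter fun w => (leavesAt own w).Nonempty).card ≤ (univ.filter fun x => kl x ≠ none).card := by
  choose f h1 h2 h3 h4 h5 h6 using LeafK_vertex E own Rg hst
  have hfil : ∀ w, (leavesAt own w).filter (fun x => f (own x) x ≠ none) =
      (leavesAt own w).filter (fun x => f w x ≠ none) := by
    intro w
    refine Finset.filter_congr fun x hx => ?_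
    have hx' : own x = w := (Finset.mem_filter.1 hx).2
    rw [hx']
  have hon : ∀ w x, x ∈ leavesAt own w → f (own x) x = f w x := by
    intro w x hx
    have hx' : own x = w := (Finset.mem_filter.1 hx).2
    rw [hx']
  have hcard : (univ.filter fun x => f (own x) x ≠ none).card =
      ∑ w : W, ((leavesAt own w).filter (fun x => f w x ≠ none)).card := by
    rw [Finset.card_eq_sum_card_fiberwise (f := own) (t := univ) (fun x _ => Finset.mem_univ _)]
    refine Finset.sum_congr rfl fun w _ => ?_
    rw [← hfil w]
    congr 1
    ext x
    simp only [Finset.mem_filter, leavesAt, Finset.mem_univ, true_and]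
    tauto
  refine ⟨fun x => f (own x) x, ?_, ?_, ?_, ?_, ?_, ?_⟩
  · intro x hx
    exact h1 (own x) hx x
  · intro w hw hE hL
    obtain ⟨x, hx, hx1⟩ := h2 w hw hE hL
    refine ⟨x, (hfil w).trans hx, ?_⟩
    have : x ∈ (leavesAt own w).filter (fun x => f w x ≠ none) := by rw [hx]; simp
    exact (hon w x (Finset.mem_filter.1 this).1).trans hx1
  · intro w hE hc
    obtain ⟨x, y, z, hL, hx, hy, hz⟩ := h3 w hE hc
    refine ⟨x, y, z, hL, ?_, ?_, ?_⟩
    · exact (hon w x (by rw [hL]; simp)).trans hx
    · exact (hon w y (by rw [hL]; simp)).trans hy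
    · exact (hon w z (by rw [hL]; simp)).trans hz
  · intro w hE hc
    obtain ⟨x, y, z, u, hL, hc4, hx, hy, hz, hu⟩ := h4 w hE hc
    have hm : ∀ t ∈ ({x, y, z, u} : Finset X), t ∈ leavesAt own w := by
      intro t ht
      rw [← hL] at ht
      exact (Finset.mem_filter.1 ht).1
    refine ⟨x, y, z, u, (hfil w).trans hL, ?_, ?_, ?_, ?_, ?_⟩
    · rw [hfil w]; exact hc4
    · exact (hon w x (hm x (by simp))).trans hx
    · exact (hon w y (hm y (by simp))).trans hy
    · exact (hon w z (hm z (by simp))).trans hz
    · exact (hon w u (hm u (by simp))).trans hu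
  · rw [hcard]
    calc ∑ w : W, ((leavesAt own w).filter (fun x => f w x ≠ none)).card
        ≤ ∑ _w : W, 4 := Finset.sum_le_sum fun w _ => h5 w
      _ = 4 * Fintype.card W := by
        rw [Finset.sum_const, Finset.card_univ, smul_eq_mul, mul_comm]
  · rw [hcard, Finset.card_eq_sum_ones]
    calc ∑ w ∈ Rg.filter (fun w => (leavesAt own w).Nonempty), 1
        ≤ ∑ w ∈ Rg.filter (fun w => (leavesAt own w).Nonempty),
          ((leavesAt own w).filter (fun x => f w x ≠ none)).card := by
          refine Finset.sum_le_sum fun w hw => ?_
          rw [Finset.mem_filter] at hw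
          exact h6 w hw.1 hw.2
      _ ≤ ∑ w : W, ((leavesAt own w).filter (fun x => f w x ≠ none)).card :=
          Finset.sum_le_sum_of_subset (Finset.subset_univ _)

end Pool.Agent.AML
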