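import Pool.Agent.AMF.Defs

/-!
# Labels of the leaves outside the low window
-/

set_option autoImplicit false
set_option linter.unusedSectionVars false
set_option linter.unusedVariables false

namespace Pool.Agent.AML

open Finset Pool.Agent.AMF

/-- the `i`-th label outside the window `[L + 1, L + 1 + s)` -/
def LeafL_t (L s i : ℕ) : ℕ := if i < L then i + 1 else i + 1 + s

theorem LeafL_t_strictMono (L s : ℕ) : StrictMono (LeafL_t L s) := by
  intro i j hij
  unfold LeafL_t
  split_ifs <;> omega

theorem LeafL_t_le (L s i : ℕ) : LeafL_t L s i ≤ i + 1 + s := by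
  unfold LeafL_t
  split_ifs <;> omega

theorem LeafL_t_pos (L s i : ℕ) : 1 ≤ LeafL_t L s i := by
  unfold LeafL_t
  split_ifs <;> omega

theorem LeafL_t_out (L s i : ℕ) : LeafL_t L s i < L + 1 ∨ L + 1 + s ≤ LeafL_t L s i := by
  unfold LeafL_t
  split_ifs <;> omega

/-- a ranking of `V` by the values of `b` -/
theorem LeafL_rank {α : Type} [DecidableEq α] (V : Finset α) (b : α → ℕ) :
    ∃ ρ : α → ℕ, (∀ w ∈ V, ρ w < V.card) ∧ (∀ w ∈ V, ∀ w' ∈ V, ρ w = ρ w' → w = w') ∧
      ∀ w ∈ V, ∀ w' ∈ V, ρ w < ρ w' → b w ≤ b w' := by
  induction V using Finset.induction_on_max_value b with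
  | empty => exact ⟨fun _ => 0, by simp, by simp, by simp⟩
  | insert a s ha hmax ih =>
    obtain ⟨ρ, h1, h2, h3⟩ := ih
    refine ⟨fun w => if w = a then s.card else ρ w, ?_, ?_, ?_⟩
    · intro w hw
      rw [Finset.card_insert_of_notMem ha]
      rcases Finset.mem_insert.1 hw with rfl | hw
      · simp
      · have hne : w ≠ a := fun h => ha (h ▸ hw)
        have := h1 w hw
        simp only [hne, if_false]
        omega
    · intro w hw w' hw' h
      rcases Finset.mem_insert.1 hw with rfl | hw
      · rcases Finset.mem_insert.1 hw' with rfl | hw'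
        · rfl
        · have hne : w' ≠ w := fun h => ha (h ▸ hw')
          have := h1 w' hw'
          simp only [hne, if_false, if_true] at h
          omega
      · have hne : w ≠ a := fun h => ha (h ▸ hw)
        have hws := h1 w hw
        rcases Finset.mem_insert.1 hw' with rfl | hw'
        · have := hws
          simp only [hne, if_false, if_true] at h
          omega
        · have hne' : w' ≠ a := fun h => ha (h ▸ hw')
          simp only [hne, hne', if_false] at h
          exact h2 w hw w' hw' h
    · intro w hw w' hw' h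
      rcases Finset.mem_insert.1 hw' with rfl | hw'
      · rcases Finset.mem_insert.1 hw with rfl | hw
        · exact le_rfl
        · exact hmax w hw
      · have hne' : w' ≠ a := fun h => ha (h ▸ hw')
        have hws := h1 w' hw'
        rcases Finset.mem_insert.1 hw with rfl | hw
        · have := hws
          simp only [hne', if_false, if_true] at h
          omega
        · have hne : w ≠ a := fun h => ha (h ▸ hw)
          simp only [hne, hne', if_false] at h
          exact h3 w hw w' hw' h

/-- numbers below `2 p` with a given residue -/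
theorem LeafL_res {p n : ℕ} [NeZero p] {y : ZMod p} (hn : n < 2 * p) (h : (n : ZMod p) = y) :
    n ∈ ({y.val, y.val + p} : Finset ℕ) := by
  have h1 : y.val = n % p := by rw [← h, ZMod.val_natCast]
  have hp : 0 < p := Nat.pos_of_ne_zero (NeZero.ne p)
  have h2 := Nat.div_add_mod n p
  have h3 : n / p < 2 := Nat.div_lt_of_lt_mul (by omega)
  rw [Finset.mem_insert, Finset.mem_singleton, h1]
  interval_cases hq : n / p
  · left; omega
  · right; omega

variable {W X : Type} [Fintype W] [DecidableEq W] [Fintype X] [DecidableEq X]

/-- **Labels of the leaves outside `S`** (`S` = leaf slots): the labels of `[1, a]` outside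
`[lo, lo + |S|)`, `lo = 2 (a - |S|) / 3 + 1`, such that every residue is the sum of the labels of these leaves at
most at two vertices of `V`.
Proof. Choose a private leaf `x w ∉ S` at every `w ∈ V`. The other leaves outside `S` get the `a - |S| - |V|` largest
labels outside the window in any order, `b w` = the residue in `[0, p)` of their sum at `w`. The private leaves
get the `|V|` smallest labels outside the window, in the order of `b w`. Then `b w + label` are
different natural numbers (increasing) less than `2 p` (the labels are at most `|V| + |S| < p`). -/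
theorem exists_lam (own : X → W) (S : Finset X) (V : Finset W)
    (hV : ∀ w ∈ V, ∃ x ∈ leavesAt own w, x ∉ S) (p : ℕ) [NeZero p]
    (hp : Fintype.card W + S.card < p) :
    ∃ lam : X → ℕ, Set.InjOn lam {x | x ∉ S} ∧
      (∀ x, x ∉ S → 1 ≤ lam x ∧ lam x ≤ Fintype.card X ∧
        (lam x < 2 * (Fintype.card X - S.card) / 3 + 1 ∨
          2 * (Fintype.card X - S.card) / 3 + 1 + S.card ≤ lam x)) ∧
      ∀ y : ZMod p, (V.filter fun w =>
        ∑ x ∈ (leavesAt own w).filter (fun x => x ∉ S), (lam x : ZMod p) = y).card ≤ 2 := by
  classical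
  rcases isEmpty_or_nonempty X with hX | hX
  · refine ⟨fun _ => 0, fun z _ => isEmptyElim z, fun z _ => isEmptyElim z, fun y => ?_⟩
    have hVe : V = ∅ := by
      rw [Finset.eq_empty_iff_forall_notMem]
      intro w hw
      obtain ⟨z, -, -⟩ := hV w hw
      exact isEmptyElim z
    rw [hVe]
    simp
  choose! x hx hxS using hV
  have hox : ∀ w ∈ V, own (x w) = w := fun w hw => by
    have := hx w hw
    unfold leavesAt at this
    exact (Finset.mem_filter.1 this).2
  have hp0 : 0 < p := Nat.pos_of_ne_zero (NeZero.ne p)
  set P : Finset X := V.image x with hP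
  have hPcard : P.card = V.card := Finset.card_image_of_injOn (by
    intro w hw w' hw' h
    rw [← hox w hw, ← hox w' hw', h])
  have hPS : P ⊆ univ \ S := by
    intro z hz
    obtain ⟨w, hw, rfl⟩ := Finset.mem_image.1 hz
    exact Finset.mem_sdiff.2 ⟨Finset.mem_univ _, hxS w hw⟩
  set O : Finset X := (univ \ S) \ P with hO
  have hScard : S.card ≤ Fintype.card X := Finset.card_le_univ S
  have hUcard : (univ \ S : Finset X).card = Fintype.card X - S.card := by
    rw [Finset.card_sdiff_of_subset (Finset.subset_univ S), Finset.card_univ]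
  have hOcard : O.card = Fintype.card X - S.card - V.card := by
    rw [hO, Finset.card_sdiff_of_subset hPS, hUcard, hPcard]
  have hVle : V.card ≤ Fintype.card X - S.card := by
    rw [← hPcard, ← hUcard]
    exact Finset.card_le_card hPS
  have hVW : V.card ≤ Fintype.card W := Finset.card_le_univ V
  obtain ⟨r0, hr1, hr2, -⟩ := LeafL_rank O (fun _ => 0)
  set L : ℕ := 2 * (Fintype.card X - S.card) / 3 with hL
  set t : ℕ → ℕ := LeafL_t L S.card with ht
  have htm : StrictMono t := LeafL_t_strictMono L S.card
  set b : W → ℕ := fun w =>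
    (∑ z ∈ ((leavesAt own w).filter (fun x => x ∉ S)).erase (x w), t (V.card + r0 z)) % p with hb
  obtain ⟨ρ, h1, h2, h3⟩ := LeafL_rank V b
  set lam : X → ℕ := fun z => if z ∈ P then t (ρ (own z)) else t (V.card + r0 z) with hlam
  -- the index of a label
  have hidx : ∀ z, z ∉ S → ∃ i, i < Fintype.card X - S.card ∧ lam z = t i := by
    intro z hz
    by_cases hzP : z ∈ P
    · obtain ⟨w, hw, rfl⟩ := Finset.mem_image.1 hzP
      refine ⟨ρ w, lt_of_lt_of_le (h1 w hw) hVle, ?_⟩
      simp only [hlam, hzP, if_true, hox w hw]
    · refine ⟨V.card + r0 z, ?_, ?_⟩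
      · have := hr1 z (Finset.mem_sdiff.2 ⟨Finset.mem_sdiff.2 ⟨Finset.mem_univ _, hz⟩, hzP⟩)
        omega
      · simp only [hlam, hzP, if_false]
  refine ⟨lam, ?_, ?_, ?_⟩
  · intro z hz z' hz' h
    have hz : z ∉ S := hz
    have hz' : z' ∉ S := hz'
    by_cases hzP : z ∈ P
    · obtain ⟨w, hw, rfl⟩ := Finset.mem_image.1 hzP
      by_cases hzP' : z' ∈ P
      · obtain ⟨w', hw', rfl⟩ := Finset.mem_image.1 hzP'
        simp only [hlam, hzP, hzP', if_true, hox w hw, hox w' hw'] at h
        rw [h2 w hw w' hw' (htm.injective h)]
      · simp only [hlam, hzP, hzP', if_true, if_false, hox w hw] at h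
        have e1 := htm.injective h
        have e2 := h1 w hw
        omega
    · by_cases hzP' : z' ∈ P
      · obtain ⟨w', hw', rfl⟩ := Finset.mem_image.1 hzP'
        simp only [hlam, hzP, hzP', if_true, if_false, hox w' hw'] at h
        have e1 := htm.injective h
        have e2 := h1 w' hw'
        omega
      · simp only [hlam, hzP, hzP', if_false] at h
        have e1 := htm.injective h
        exact hr2 z (Finset.mem_sdiff.2 ⟨Finset.mem_sdiff.2 ⟨Finset.mem_univ _, hz⟩, hzP⟩) z'
          (Finset.mem_sdiff.2 ⟨Finset.mem_sdiff.2 ⟨Finset.mem_univ _, hz'⟩, hzP'⟩) (by omega)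
  · intro z hz
    obtain ⟨i, hi, hi'⟩ := hidx z hz
    rw [hi']
    refine ⟨LeafL_t_pos _ _ _, ?_, LeafL_t_out _ _ _⟩
    have := LeafL_t_le L S.card i
    simp only [ht]
    omega
  · intro y
    -- the values
    have hval : ∀ w ∈ V, ∑ z ∈ (leavesAt own w).filter (fun x => x ∉ S), (lam z : ZMod p)
        = ((b w + t (ρ w) : ℕ) : ZMod p) := by
      intro w hw
      have hmem : x w ∈ (leavesAt own w).filter (fun x => x ∉ S) :=
        Finset.mem_filter.2 ⟨hx w hw, hxS w hw⟩
      have hxP : x w ∈ P := Finset.mem_image_of_mem _ hw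
      rw [← Finset.add_sum_erase _ _ hmem]
      have e1 : lam (x w) = t (ρ w) := by
        simp only [hlam, hxP, if_true, hox w hw]
      have e2 : ∑ z ∈ ((leavesAt own w).filter (fun x => x ∉ S)).erase (x w), (lam z : ZMod p)
          = ((∑ z ∈ ((leavesAt own w).filter (fun x => x ∉ S)).erase (x w),
              t (V.card + r0 z) : ℕ) : ZMod p) := by
        rw [Nat.cast_sum]
        refine Finset.sum_congr rfl fun z hz => ?_
        obtain ⟨hz1, hz2⟩ := Finset.mem_erase.1 hz
        have hz3 : own z = w := by
          have := (Finset.mem_filter.1 hz2).1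
          unfold leavesAt at this
          exact (Finset.mem_filter.1 this).2
        have hzP : z ∉ P := by
          intro hzP
          obtain ⟨w', hw', rfl⟩ := Finset.mem_image.1 hzP
          rw [hox w' hw'] at hz3
          exact hz1 (by rw [hz3])
        simp only [hlam, hzP, if_false]
      rw [e1, e2, Nat.cast_add, add_comm]
      congr 1
      simp only [hb]
      rw [ZMod.natCast_mod]
    have hlt : ∀ w ∈ V, b w + t (ρ w) < 2 * p := by
      intro w hw
      have e1 : b w < p := Nat.mod_lt _ hp0
      have e2 := LeafL_t_le L S.card (ρ w)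
      have e3 := h1 w hw
      simp only [ht]
      omega
    have hinj : ∀ w ∈ V, ∀ w' ∈ V, b w + t (ρ w) = b w' + t (ρ w') → w = w' := by
      intro w hw w' hw' h
      rcases lt_trichotomy (ρ w) (ρ w') with h4 | h4 | h4
      · have e1 := h3 w hw w' hw' h4
        have e2 := htm h4
        omega
      · exact h2 w hw w' hw' h4
      · have e1 := h3 w' hw' w hw h4
        have e2 := htm h4
        omega
    refine le_trans (Finset.card_le_card_of_injOn (t := ({y.val, y.val + p} : Finset ℕ))
      (fun w => b w + t (ρ w)) ?_ ?_) Finset.card_le_two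
    · intro w hw
      obtain ⟨hw1, hw2⟩ := Finset.mem_filter.1 hw
      rw [hval w hw1] at hw2
      exact LeafL_res (hlt w hw1) hw2
    · intro w hw w' hw' h
      exact hinj w (Finset.mem_filter.1 hw).1 w' (Finset.mem_filter.1 hw').1 h

end Pool.Agent.AML
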