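import Pool.Agent.AML.Prep
import Pool.Agent.AML.Sac
import Pool.Agent.AML.LeafK
import Pool.Agent.AML.LeafL
import Pool.Agent.AML.ExP1
import Pool.Agent.AML.ExP2

/-!
# Construction of the data
-/

set_option autoImplicit false
set_option linter.unusedSectionVars false
set_option linter.unusedVariables false

namespace Pool.Agent.AML

open Finset Pool.Agent.AMF Pool.Agent.AMX
open Pool.Agent.AMH (Kn)

section

variable {W X : Type} [Fintype W] [DecidableEq W] [Fintype X] [DecidableEq X]

/-- every part outside `Pi` has a kept slot -/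
private theorem ExPrep_fk_card {H : SimpleGraph W} [DecidableRel H.Adj] {sup hub : Finset W}
    {DZ F : Finset (Sym2 W)} {pt : Sym2 W → ℕ} {vp : W → ℕ} {k : ℕ}
    (hS : SkelL H sup hub DZ F pt vp k) (Pi : Finset ℕ) :
    ((univ.filter fun w => w ∉ hub ∧ 0 < H.degree w).image vp).card ≤
      (fkS F pt Pi).card + Pi.card := by
  have h1 : ((univ.filter fun w => w ∉ hub ∧ 0 < H.degree w).image vp) ⊆
      (fkS F pt Pi).image pt ∪ Pi := by
    intro i hi
    obtain ⟨w, hw, rfl⟩ := mem_image.1 hi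
    rw [mem_filter] at hw
    obtain ⟨e, he⟩ := hS.has_slot w hw.2.1 hw.2.2
    have he' : e ∈ F ∧ w ∈ e := mem_filter.1 he
    have h2 := hS.vp_eq e he'.1 w he'.2 hw.2.1
    rw [mem_union, mem_image]
    by_cases h : vp w ∈ Pi
    · exact Or.inr h
    · exact Or.inl ⟨e, mem_filter.2 ⟨he'.1, h2 ▸ h⟩, h2⟩
  exact (card_le_card h1).trans ((card_union_le _ _).trans (Nat.add_le_add_right card_image_le _))

/-- number of slots -/
private theorem ExPrep_F_card {H : SimpleGraph W} [DecidableRel H.Adj] {sup hub : Finset W}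
    {DZ F : Finset (Sym2 W)} {pt : Sym2 W → ℕ} {vp : W → ℕ} {k : ℕ}
    (hS : SkelL H sup hub DZ F pt vp k) (Pi : Finset ℕ) :
    (fkS F pt Pi).card ≤ k * Fintype.card W := by
  have h1 : fkS F pt Pi ⊆ (univ.image vp).biUnion fun i => F.filter fun e => pt e = i := by
    intro e he
    have he' : e ∈ F := (mem_filter.1 he).1
    obtain ⟨w, hw, hwh⟩ := hS.nonhub e he'
    rw [mem_biUnion]
    exact ⟨vp w, mem_image_of_mem _ (mem_univ w), mem_filter.2 ⟨he', hS.vp_eq e he' w hw hwh⟩⟩
  refine (card_le_card h1).trans ((card_biUnion_le_card_mul _ _ k fun i _ => hS.part_le i).trans ?_)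
  rw [mul_comm]
  exact Nat.mul_le_mul_left k card_image_le

open Classical in
/-- the leaf part -/
private theorem ExPrep_leaf (E : Finset (Sym2 W)) (own : X → W) (Rg : Finset W)
    (hst : ∀ w, edgesAt E w = ∅ → w ∈ Rg ∧ 3 ≤ (leavesAt own w).card) :
    ∃ kl : X → Option Kn,
      (∀ x, own x ∉ Rg → kl x = none) ∧
      (∀ w ∈ Rg, (edgesAt E w).Nonempty → (leavesAt own w).Nonempty →
        ∃ x, (leavesAt own w).filter (fun x => kl x ≠ none) = {x} ∧ kl x = some 1) ∧
      (∀ w, edgesAt E w = ∅ → (leavesAt own w).card = 3 → ∃ x y z,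
        leavesAt own w = {x, y, z} ∧ kl x = some 2 ∧ kl y = some 3 ∧ kl z = some 4) ∧
      (∀ w, edgesAt E w = ∅ → 4 ≤ (leavesAt own w).card → ∃ x y z u,
        (leavesAt own w).filter (fun x => kl x ≠ none) = {x, y, z, u} ∧
          ((leavesAt own w).filter (fun x => kl x ≠ none)).card = 4 ∧
          kl x = some 1 ∧ kl y = some 1 ∧ kl z = some 1 ∧ kl u = some 5) ∧
      (univ.filter fun x => kl x ≠ none).card ≤ 4 * Fintype.card W ∧
      (Rg.filter fun w => (leavesAt own w).Nonempty).card ≤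
        (univ.filter fun x => kl x ≠ none).card ∧
      ∀ (p : ℕ) [NeZero p], Fintype.card W + (univ.filter fun x => kl x ≠ none).card < p →
        ∃ lam : X → ℕ, Set.InjOn lam {x | kl x = none} ∧
          (∀ x, kl x = none → 1 ≤ lam x ∧ lam x ≤ Fintype.card X ∧
            (lam x < 2 * (Fintype.card X - (univ.filter fun x => kl x ≠ none).card) / 3 + 1 ∨
              2 * (Fintype.card X - (univ.filter fun x => kl x ≠ none).card) / 3 + 1 +
                (univ.filter fun x => kl x ≠ none).card ≤ lam x)) ∧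
          ∀ y : ZMod p, (Rg.filter fun w => (∃ x ∈ leavesAt own w, kl x = none) ∧
            ∑ x ∈ (leavesAt own w).filter (fun x => kl x = none), (lam x : ZMod p) = y).card ≤ 2 := by
  obtain ⟨kl, h1, h2, h3, h4, h5, h6⟩ := exists_kl E own Rg hst
  refine ⟨kl, h1, h2, h3, h4, ?_, ?_, ?_⟩
  · convert h5
  · convert h6
  intro p _ hp
  obtain ⟨lam, g1, g2, g3⟩ := exists_lam own (univ.filter fun x => kl x ≠ none)
    (Rg.filter fun w => ∃ x ∈ leavesAt own w, kl x = none) (by
      intro w hw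
      obtain ⟨x, hx, hx2⟩ := (mem_filter.1 hw).2
      refine ⟨x, hx, ?_⟩
      rw [mem_filter]
      rintro ⟨-, h⟩
      exact h hx2) p hp
  have hS : ∀ x, x ∉ (univ.filter fun x => kl x ≠ none) ↔ kl x = none := by
    intro x
    rw [mem_filter]
    constructor
    · intro h
      by_contra hc
      exact h ⟨mem_univ x, hc⟩
    · rintro h ⟨-, h'⟩
      exact h' h
  refine ⟨lam, ?_, ?_, ?_⟩
  · intro x hx y hy hxy
    exact g1 ((hS x).2 hx) ((hS y).2 hy) hxy
  · intro x hx
    exact g2 x ((hS x).2 hx)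
  · intro y
    refine le_trans (card_le_card ?_) (g3 y)
    intro w hw
    rw [mem_filter] at hw
    rw [mem_filter, mem_filter]
    refine ⟨⟨hw.1, hw.2.1⟩, ?_⟩
    rw [← hw.2.2]
    refine sum_congr (filter_congr fun x _ => hS x) fun _ _ => rfl

/-- the numbers, first case -/
private theorem ExPrep_num {θ : ℝ} {k0 k n B1 M0 s1 s2 : ℕ} (hθ : 0 < θ) (hk : k = 3 * k0 + 4)
    (hB1 : 1000 * k / θ ≤ B1) (hB : 0 < B1) (hM0 : M0 = 2 * n / B1 + 1)
    (hs1 : (s1 : ℝ) ≤ θ / (100 * k) * n + 1) (hs2 : s2 = s1 + 3 * M0 + 1)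
    (hn : 1000 * (k : ℝ) / θ ≤ n) :
    (8 * k0 * s2 : ℝ) ≤ θ * n / 4 ∧ (s1 : ℝ) ≤ θ * n / 10 ∧ (M0 : ℝ) ≤ 2 * n + 1 := by
  have hk0 : (k : ℝ) = 3 * k0 + 4 := by rw [hk]; push_cast; ring
  have hk0n : (0 : ℝ) ≤ k0 := Nat.cast_nonneg _
  have hkpos : (0 : ℝ) < k := by rw [hk0]; linarith
  have hk4 : (4 : ℝ) ≤ k := by rw [hk0]; linarith
  have hBpos : (0 : ℝ) < B1 := by exact_mod_cast hB
  have hnn : (0 : ℝ) ≤ n := Nat.cast_nonneg _
  have h1 : (M0 : ℝ) ≤ 2 * n / B1 + 1 := by
    rw [hM0]
    push_cast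
    have := Nat.cast_div_le (α := ℝ) (m := 2 * n) (n := B1)
    push_cast at this
    linarith
  have h2 : 2 * (n : ℝ) / B1 ≤ θ * n / (500 * k) := by
    rw [div_le_div_iff₀ hBpos (by positivity)]
    rw [div_le_iff₀ hθ] at hB1
    nlinarith
  have h3 : 1000 * (k : ℝ) ≤ θ * n := by
    rw [div_le_iff₀ hθ] at hn
    linarith
  have h4 : θ / (100 * k) * n = θ * n / (100 * k) := by ring
  rw [h4] at hs1
  set A := θ * n with hA
  have hA0 : 0 ≤ A := by positivity
  have h5 : A / (500 * k) = A / k / 500 := by field_simp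
  have h6 : A / (100 * k) = A / k / 100 := by field_simp
  rw [h5] at h2
  rw [h6] at hs1
  have h7 : 1000 ≤ A / k := by
    rw [le_div_iff₀ hkpos]
    linarith
  have hs2r : (s2 : ℝ) = s1 + 3 * M0 + 1 := by rw [hs2]; push_cast; ring
  have h8 : (s2 : ℝ) ≤ A / k * (3 / 100) := by
    rw [hs2r]
    linarith
  have h9 : A / k * k = A := by field_simp
  refine ⟨?_, ?_, ?_⟩
  · have h10 : (8 * k0 : ℝ) ≤ 8 / 3 * k := by rw [hk0]; linarith
    calc (8 * k0 * s2 : ℝ) ≤ 8 / 3 * k * (A / k * (3 / 100)) := by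
          apply mul_le_mul h10 h8 (Nat.cast_nonneg _) (by positivity)
      _ = 8 / 100 * (A / k * k) := by ring
      _ ≤ A / 4 := by rw [h9]; linarith
  · have h11 : A / k ≤ A / 4 := div_le_div_of_nonneg_left hA0 (by norm_num) hk4
    linarith
  · have h12 : 2 * (n : ℝ) / B1 ≤ 2 * n := by
      rw [div_le_iff₀ hBpos]
      have : (1 : ℝ) ≤ B1 := by exact_mod_cast hB
      nlinarith
    linarith

end

open Classical in
/-- **Construction.** `exists_skelL (θ / 10)`, `k = 3 k0 + 4`; `d = θ / (100 k ^ 2)`, `B1 = ⌈1000 k / θ⌉`,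
`M0 = 2 n / B1 + 1`, `s1 = ⌈k d n⌉`, `s2 = s1 + 3 M0 + 1`, `exists_sac`. -/
theorem exists_prep (ε1 θ : ℝ) (h1 : 0 < ε1) (hθ : 0 < θ) (hθ1 : θ ≤ ε1 / 10) :
    ∃ (k B : ℕ) (d β C : ℝ), 0 < d ∧ 2 * k * d ≤ θ ∧ 0 < β ∧ 0 < C ∧ ∃ n0 : ℕ,
      ∀ (W X : Type) [Fintype W] [DecidableEq W] [Fintype X] [DecidableEq X] (H : SimpleGraph W)
        [DecidableRel H.Adj] (own : X → W), n0 ≤ Fintype.card W →
        (∀ w, 2 ≤ (leavesAt own w).card + (edgesAt H.edgeFinset w).card) →
        (∀ w, edgesAt H.edgeFinset w = ∅ → 3 ≤ (leavesAt own w).card) →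
        ε1 * Fintype.card W ≤ ((univ.filter fun w => (leavesAt own w).Nonempty).card : ℝ) →
        ∃ D : PrepD W X, D.Ok H.edgeFinset own k B d β C θ := by
  obtain ⟨k0, hk0⟩ := exists_skelL (θ / 10) (by positivity)
  obtain ⟨k, hk⟩ : ∃ k : ℕ, k = 3 * k0 + 4 := ⟨_, rfl⟩
  have hkr : (k : ℝ) = 3 * k0 + 4 := by rw [hk]; push_cast; ring
  have hk0n : (0 : ℝ) ≤ k0 := Nat.cast_nonneg _
  have hkpos : (0 : ℝ) < k := by rw [hkr]; linarith
  obtain ⟨B1, hB1, hB⟩ : ∃ B1 : ℕ, 1000 * k / θ ≤ B1 ∧ 0 < B1 :=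
    ⟨⌈1000 * k / θ⌉₊, Nat.le_ceil _, Nat.ceil_pos.2 (by positivity)⟩
  have hBr : (1 : ℝ) ≤ B1 := by exact_mod_cast hB
  set d : ℝ := θ / (100 * k ^ 2) with hd
  set β : ℝ := min (1 / B1) (ε1 / 2) with hβ
  set C : ℝ := (4 * k + 4) * (k0 + 7) + 4 * (k0 + 1) + 31 with hC
  refine ⟨k, 2 * B1 + 4, d, β, C, by positivity, ?_, by positivity, by positivity,
    ⌈1000 * (k : ℝ) / θ⌉₊ + 1, ?_⟩
  · rw [hd]
    have hk4 : (4 : ℝ) ≤ k := by rw [hkr]; linarith
    rw [mul_div_assoc', div_le_iff₀ (by positivity)]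
    nlinarith [mul_pos hθ hkpos]
  intro W X _ _ _ _ H _ own hn hdeg hst hsup
  obtain ⟨n, hnn⟩ : ∃ n, n = Fintype.card W := ⟨_, rfl⟩
  rw [← hnn] at hn hsup
  have hn1 : 1 ≤ n := by omega
  have hn1r : (1 : ℝ) ≤ n := by exact_mod_cast hn1
  have hnr : 1000 * (k : ℝ) / θ ≤ n := by
    have h2 := Nat.le_ceil (1000 * (k : ℝ) / θ)
    have h3 : ⌈1000 * (k : ℝ) / θ⌉₊ ≤ n := by omega
    have h4 : ((⌈1000 * (k : ℝ) / θ⌉₊ : ℕ) : ℝ) ≤ (n : ℝ) := Nat.cast_le.2 h3
    linarith
  -- the graph
  set sup : Finset W := univ.filter fun w => (leavesAt own w).Nonempty with hsupdef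
  have hsupm : ∀ w, w ∈ sup ↔ (leavesAt own w).Nonempty := by
    intro w
    rw [hsupdef, mem_filter]
    exact ⟨fun h => h.2, fun h => ⟨mem_univ w, h⟩⟩
  have hedc : ∀ w, (edgesAt H.edgeFinset w).card = H.degree w := by
    intro w
    rw [← SimpleGraph.card_incidenceFinset_eq_degree]
    congr 1
    ext e
    unfold edgesAt
    rw [mem_filter, SimpleGraph.mem_edgeFinset, SimpleGraph.mem_incidenceFinset,
      SimpleGraph.incidenceSet, Set.mem_sep_iff]
  have hdeg' : ∀ w, w ∉ sup → 2 ≤ H.degree w := by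
    intro w hw
    have h2 := hdeg w
    rw [hsupm, not_nonempty_iff_eq_empty] at hw
    rw [hw, card_empty, hedc] at h2
    omega
  obtain ⟨hub, DZ, F, pt, vp, hS, hhub, hDZ⟩ := hk0 W H sup hdeg'
  rw [← hnn] at hhub
  have hdiag : ∀ e ∈ H.edgeFinset, ¬ e.IsDiag := by
    intro e he
    rw [SimpleGraph.mem_edgeFinset] at he
    exact H.not_isDiag_of_mem_edgeSet he
  -- numbers
  obtain ⟨M0, hM0⟩ : ∃ M0 : ℕ, M0 = 2 * n / B1 + 1 := ⟨_, rfl⟩
  obtain ⟨s1, hs1, hs1'⟩ : ∃ s1 : ℕ, (k : ℝ) * d * n ≤ s1 ∧ (s1 : ℝ) ≤ θ / (100 * k) * n + 1 := by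
    refine ⟨⌈(k : ℝ) * d * n⌉₊, Nat.le_ceil _, ?_⟩
    have h2 := (Nat.ceil_lt_add_one (a := (k : ℝ) * d * n) (by positivity)).le
    have h3 : (k : ℝ) * d * n = θ / (100 * k) * n := by
      rw [hd]
      field_simp
    linarith
  obtain ⟨s2, hs2⟩ : ∃ s2 : ℕ, s2 = s1 + 3 * M0 + 1 := ⟨_, rfl⟩
  obtain ⟨num1, num2, num3⟩ := ExPrep_num hθ hk hB1 hB hM0 hs1' hs2 hnr
  have hM : 2 * n ≤ B1 * M0 := by
    rw [hM0]
    have := Nat.lt_mul_div_succ (2 * n) hB
    exact this.le
  set P : Finset ℕ := (univ.filter fun w => w ∉ hub ∧ 0 < H.degree w).image vp with hP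
  -- the number of leaves
  have hsupX : sup.card ≤ Fintype.card X := by
    have h2 : sup ⊆ univ.image own := by
      intro w hw
      obtain ⟨x, hx⟩ := (hsupm w).1 hw
      exact mem_image.2 ⟨x, mem_univ x, (mem_filter.1 hx).2⟩
    exact (card_le_card h2).trans (card_image_le.trans (card_univ).le)
  have hkk : (k0 : ℝ) ≤ 8 * k0 := by linarith
  -- common end
  have main : ∀ (Pi : Finset ℕ) (Snk : Finset (Sym2 W)) (s1' : ℕ), Sac H sup hub F pt vp Pi Snk →
      Pi.card ≤ 4 * s2 → s1' ≤ s1 →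
      ((s1' = s1 ∧ Snk.card = s2 ∧ 2 * s2 ≤ (fkS F pt Pi).card) ∨
        (s1' = 0 ∧ Snk = ∅ ∧ fkS F pt Pi = ∅)) →
      ∃ D : PrepD W X, D.Ok H.edgeFinset own k (2 * B1 + 4) d β C θ := by
    intro Pi Snk s1' hSac hPi hs1le hcase
    obtain ⟨hG, hirr, hse⟩ := gok_of_sac H own sup hub hsupm DZ F pt vp k0 hS Pi Snk hSac
    set Rg := rgS H hub vp Pi with hRg
    set FK := fkS F pt Pi with hFK
    set SE0 := seS DZ F Snk pt Pi with hSE0
    have hPir : (Pi.card : ℝ) ≤ 4 * s2 := by exact_mod_cast hPi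
    -- irregular vertices
    have hirr' : ((univ \ Rg).card : ℝ) ≤ θ * n := by
      have h2 : ((univ \ Rg).card : ℝ) ≤ hub.card + 2 * k0 * Pi.card := by exact_mod_cast hirr
      have h3 : (2 * k0 * Pi.card : ℝ) ≤ 8 * k0 * s2 := by
        calc (2 * k0 * Pi.card : ℝ) ≤ 2 * k0 * (4 * s2) := by gcongr
          _ = 8 * k0 * s2 := by ring
      have h4 : 0 ≤ θ * n := by positivity
      linarith
    obtain ⟨s0, hs0⟩ : ∃ s0, s0 = SE0.card + s1' := ⟨_, rfl⟩
    have hs0' : (s0 : ℝ) ≤ θ * n := by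
      have h2 : (SE0.card : ℝ) ≤ DZ.card + k0 * Pi.card := by exact_mod_cast hse
      have h3 : (k0 * Pi.card : ℝ) ≤ 4 * k0 * s2 := by
        calc (k0 * Pi.card : ℝ) ≤ k0 * (4 * s2) := by gcongr
          _ = 4 * k0 * s2 := by ring
      have h4 : (DZ.card : ℝ) ≤ 2 * hub.card := by exact_mod_cast hDZ
      have h5 : (s1' : ℝ) ≤ s1 := by exact_mod_cast hs1le
      have h6 : (s0 : ℝ) = SE0.card + s1' := by rw [hs0]; push_cast; ring
      have h7 : 0 ≤ θ * n := by positivity
      have h8 : (4 * k0 * s2 : ℝ) ≤ 8 * k0 * s2 := by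
        have : (0 : ℝ) ≤ k0 * s2 := by positivity
        nlinarith
      linarith
    have hs0a : s0 ≤ Fintype.card X := by
      have h2 : (s0 : ℝ) ≤ Fintype.card X := by
        have h3 : (sup.card : ℝ) ≤ Fintype.card X := by exact_mod_cast hsupX
        have h4 : θ * n ≤ ε1 * n := mul_le_mul_of_nonneg_right (by linarith) (by linarith)
        linarith
      exact_mod_cast h2
    -- leaves
    obtain ⟨kl, kl1, kl2, kl3, kl4, kl5, kl6, kl7⟩ := ExPrep_leaf H.edgeFinset own Rg
      (fun w hw => ⟨hG.star_Rg w hw, hst w hw⟩)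
    set NL := (univ.filter fun x => kl x ≠ none).card with hNL
    have hbL : β * n ≤ NL := by
      have h2 : sup.card ≤ (Rg.filter fun w => (leavesAt own w).Nonempty).card + (univ \ Rg).card := by
        refine le_trans (card_le_card ?_) (card_union_le _ _)
        intro w hw
        rw [mem_union, mem_filter, mem_sdiff]
        by_cases h : w ∈ Rg
        · exact Or.inl ⟨h, (hsupm w).1 hw⟩
        · exact Or.inr ⟨mem_univ w, h⟩
      have h3 : (sup.card : ℝ) ≤ NL + (univ \ Rg).card := by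
        exact_mod_cast h2.trans (Nat.add_le_add_right kl6 _)
      have h4 : β ≤ ε1 / 2 := min_le_right _ _
      have h5 : β * n ≤ ε1 / 2 * n := mul_le_mul_of_nonneg_right h4 (by linarith)
      have h6 : θ * n ≤ ε1 / 10 * n := mul_le_mul_of_nonneg_right hθ1 (by linarith)
      have h7 : 0 ≤ ε1 * n := by positivity
      linarith
    have hFKc : FK.card ≤ k0 * n := by
      rw [hnn]
      exact ExPrep_F_card hS Pi
    -- high window
    obtain ⟨NH, hNH1, hNH2, hNH3, hNH4⟩ : ∃ NH : ℕ, FK.card ≤ NH ∧ NH ≤ (k0 + 1) * n ∧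
        β * n ≤ NH ∧ (FK.Nonempty → NH = FK.card) := by
      rcases hcase with ⟨c1, c2, c3⟩ | ⟨c1, c2, c3⟩
      · refine ⟨FK.card, le_rfl, ?_, ?_, fun _ => rfl⟩
        · refine hFKc.trans (Nat.mul_le_mul_right n (by omega))
        · have h2 : β ≤ 1 / B1 := min_le_left _ _
          have h3 : β * n ≤ 1 / B1 * n := mul_le_mul_of_nonneg_right h2 (by linarith)
          have h4 : (1 : ℝ) / B1 * n ≤ M0 := by
            rw [div_mul_eq_mul_div, one_mul, div_le_iff₀ (by linarith)]
            have h5 : (n : ℝ) ≤ B1 * M0 := by exact_mod_cast (by omega : n ≤ B1 * M0)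
            linarith
          have h5 : (M0 : ℝ) ≤ FK.card := by exact_mod_cast (by omega : M0 ≤ FK.card)
          linarith
      · refine ⟨n, ?_, ?_, ?_, ?_⟩
        · rw [c3, card_empty]
          exact Nat.zero_le _
        · nlinarith
        · have h2 : β ≤ 1 / B1 := min_le_left _ _
          have h3 : (1 : ℝ) / B1 ≤ 1 := by
            rw [div_le_one (by linarith)]
            exact hBr
          have h4 : β * n ≤ 1 * n := mul_le_mul_of_nonneg_right (h2.trans h3) (by linarith)
          linarith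
        · intro h
          rw [c3] at h
          exact absurd h not_nonempty_empty
    obtain ⟨p, hp⟩ : ∃ p : ℕ, p = (4 * k + 4) * (NH + NL + 2) + 4 * NH + 2 * n + 6 * M0 + 7 :=
      ⟨_, rfl⟩
    have hpk : NL ≤ (4 * k + 4) * (NH + NL + 2) := by nlinarith
    haveI : NeZero p := ⟨by omega⟩
    obtain ⟨lam0, l1, l2, l3⟩ := kl7 p (by rw [← hnn]; omega)
    have hpC : (p : ℝ) ≤ C * n := by
      have h2 : (NH : ℝ) ≤ (k0 + 1) * n := by exact_mod_cast hNH2
      have h3 : (NL : ℝ) ≤ 4 * n := by rw [hnn]; exact_mod_cast kl5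
      have h4 : (p : ℝ) = (4 * k + 4) * (NH + NL + 2) + 4 * NH + 2 * n + 6 * M0 + 7 := by
        rw [hp]; push_cast; ring
      have h5 : (4 * k + 4 : ℝ) * (NH + NL + 2) ≤ (4 * k + 4) * ((k0 + 7) * n) := by
        gcongr
        linarith
      rw [h4, hC]
      nlinarith
    -- labels of edges
    have hlab : ∃ (g0 : Sym2 W → ℕ) (loH : ℕ),
        Set.InjOn g0 (H.edgeFinset \ (FK ∪ Snk) : Finset (Sym2 W)) ∧
        (∀ e ∈ SE0, Fintype.card X < g0 e ∧ g0 e ≤ Fintype.card X + s0) ∧
        (∀ e ∈ H.edgeFinset, e ∉ FK → e ∉ Snk → e ∉ SE0 → Fintype.card X + s0 < g0 e ∧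
          g0 e ≤ Fintype.card X + H.edgeFinset.card ∧
          (FK.Nonempty → g0 e < loH ∨ loH + NH ≤ g0 e)) ∧
        Fintype.card X + s0 < loH ∧
        (FK.Nonempty → loH + NH ≤ Fintype.card X + H.edgeFinset.card + 1) ∧
        (FK.Nonempty → ∀ y : ZMod p, (Rg.filter fun w => (∃ e ∈ edgesAt H.edgeFinset w, e ∉ FK) ∧
          ∑ x ∈ (leavesAt own w).filter (fun x => kl x = none), (lam0 x : ZMod p) +
            ∑ e ∈ (edgesAt H.edgeFinset w).filter (fun e => e ∉ FK), (g0 e : ZMod p) = y).card ≤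
            2 * B1 + 2) ∧
        ∀ t : ZMod p, 6 * (Rg.filter fun w => leavesAt own w = ∅ ∧
          (FK.filter fun e => w ∈ e).card = 1 ∧ ∃ l ∈ Ico loH (loH + NH),
          ∑ x ∈ (leavesAt own w).filter (fun x => kl x = none), (lam0 x : ZMod p) +
            ∑ e ∈ (edgesAt H.edgeFinset w).filter (fun e => e ∉ FK), (g0 e : ZMod p) +
              (l : ZMod p) = t).card ≤
          5 * (Rg.filter fun w => leavesAt own w = ∅ ∧
            (FK.filter fun e => w ∈ e).card = 1).card + 18 := by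
      rcases hcase with ⟨c1, c2, c3⟩ | ⟨c1, c2, c3⟩
      · have hne : FK.Nonempty := by
          rw [← card_pos]
          omega
        have hNHe := hNH4 hne
        obtain ⟨g0, loH, e1, e2, e3, e4, e5, e6, e7⟩ := edge_labels H.edgeFinset FK Snk SE0 hdiag Rg
          (Rg.filter fun w => leavesAt own w = ∅ ∧ (FK.filter fun e => w ∈ e).card = 1)
          hG.fkE hG.snkE hG.seE hG.fk_snk hG.fk_se hG.snk_se hG.snk_irr hG.se_irr (by
            intro w hw
            rw [mem_filter] at hw
            refine ⟨hw.1, ?_⟩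
            by_contra hc
            push Not at hc
            have h2 : edgesAt H.edgeFinset w ⊆ FK.filter fun e => w ∈ e := by
              intro e he
              exact mem_filter.2 ⟨hc e he, (mem_filter.1 he).2⟩
            have h3 := card_le_card h2
            have h4 := hdeg w
            rw [hw.2.1, card_empty] at h4
            have h5 := hw.2.2
            omega) p
          (fun w => ∑ x ∈ (leavesAt own w).filter (fun x => kl x = none), (lam0 x : ZMod p))
          (Fintype.card X) s0 s1 M0 B1 (by rw [hs0, c1]) (by rw [c2, hs2]) hB (by rw [← hnn]; exact hM)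
          (by rw [← hnn, ← hNHe, hp]; omega)
        rw [← hNHe] at e3 e5 e7
        refine ⟨g0, loH, e1, e2, fun e h2 h3 h4 h5 => ?_, e4, fun _ => e5, fun _ => e6, ?_⟩
        · obtain ⟨h6, h7, h8⟩ := e3 e h2 h3 h4 h5
          exact ⟨h6, h7, fun _ => h8⟩
        · intro t
          refine le_trans (Nat.mul_le_mul_left 6 (card_le_card ?_)) (e7 t)
          intro w hw
          rw [mem_filter] at hw
          rw [mem_filter, mem_filter]
          exact ⟨⟨hw.1, hw.2.1, hw.2.2.1⟩, hw.2.2.2⟩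
      · have hne : ¬ FK.Nonempty := by
          rw [c3]
          exact not_nonempty_empty
        obtain ⟨g0, e1, e2, e3⟩ := edge_labels0 H.edgeFinset SE0 hG.seE (Fintype.card X)
        have hs0e : s0 = SE0.card := by rw [hs0, c1]; omega
        refine ⟨g0, Fintype.card X + s0 + 1, ?_, ?_, ?_, by omega, fun h => absurd h hne,
          fun h => absurd h hne, ?_⟩
        · refine e1.mono ?_
          intro e he
          rw [mem_coe] at he ⊢
          exact (mem_sdiff.1 he).1
        · rw [hs0e]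
          exact e2
        · intro e h2 _ _ h3
          rw [hs0e]
          exact ⟨(e3 e h2 h3).1, (e3 e h2 h3).2, fun h => absurd h hne⟩
        · intro t
          refine le_trans (Nat.mul_le_mul_left 6 (card_le_card (t := ∅) ?_)) (by simp)
          intro w hw
          exfalso
          have h3 := (mem_filter.1 hw).2.2.1
          rw [c3, filter_empty, card_empty] at h3
          omega
    obtain ⟨g0, loH, e1, e2, e3, e4, e5, e6, e7⟩ := hlab
    have hs0E : s0 ≤ H.edgeFinset.card := by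
      rcases hcase with ⟨c1, c2, c3⟩ | ⟨c1, c2, c3⟩
      · have h2 : (SE0 ∪ Snk).card ≤ H.edgeFinset.card :=
          card_le_card (union_subset hG.seE hG.snkE)
        rw [card_union_of_disjoint hG.snk_se.symm] at h2
        omega
      · have h2 := card_le_card hG.seE
        omega
    refine ⟨⟨Rg, FK, Snk, SE0, kl, pt, vp, g0, lam0, p, s0, s1', loH, NH⟩, ?_⟩
    have hDNL : (⟨Rg, FK, Snk, SE0, kl, pt, vp, g0, lam0, p, s0, s1', loH, NH⟩ : PrepD W X).NL =
        NL := by
      rw [hNL]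
      rfl
    refine
      { p0 := NeZero.ne p
        star_Rg := hG.star_Rg
        fkE := hG.fkE
        snkE := hG.snkE
        seE := hG.seE
        fk_snk := hG.fk_snk
        fk_se := hG.fk_se
        snk_se := hG.snk_se
        fk_ne := hG.fk_ne
        snk_irr := hG.snk_irr
        se_irr := hG.se_irr
        vp_eq := hG.vp_eq
        part_le := fun i => by
          have := hG.part_le i
          change 3 * (FK.filter fun e => pt e = i).card + 4 ≤ k
          omega
        has_slot := hG.has_slot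
        slots_ne := hG.slots_ne
        count := fun i => by
          have := hG.count i
          change 1000 *
            (2 * (Rg.filter fun w => vp w = i ∧ leavesAt own w = ∅ ∧
                (FK.filter fun e => w ∈ e).card = 1).card +
              (Rg.filter fun w => vp w = i ∧ (leavesAt own w).Nonempty ∧
                (FK.filter fun e => w ∈ e).card = 1).card +
              2 * (Rg.filter fun w => vp w = i ∧ 2 ≤ (FK.filter fun e => w ∈ e).card).card) ≤
            1001 * (2 * (FK.filter fun e => pt e = i).card)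
          convert this
        cov := hG.cov
        hub_cov := hG.hub_cov
        g_inj := e1
        g_se := e2
        g_bg := e3
        s0_eq := hs0
        s0_a := hs0a
        s0_E := hs0E
        spare := fun h => by
          rcases hcase with ⟨c1, c2, c3⟩ | ⟨c1, c2, c3⟩
          · change (k : ℝ) * d * Fintype.card W ≤ (s1' : ℕ)
            rw [c1, ← hnn]
            exact hs1
          · exfalso
            change FK.Nonempty at h
            rw [c3] at h
            exact not_nonempty_empty h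
        loH1 := e4
        loH2 := e5
        NH_ge := hNH1
        kl_irr := kl1
        kl_one := fun w h2 h3 h4 => by
          exact kl2 w h2 h3 h4
        kl_s3 := kl3
        kl_s4 := fun w h2 h3 => by
          exact kl4 w h2 h3
        lam_inj := l1
        lam_mem := fun x hx => by
          unfold PrepD.loL
          rw [hDNL]
          exact l2 x hx
        mult := fun y => ?_
        rst := fun t => ?_
        bH := by
          change β * Fintype.card W ≤ (NH : ℕ)
          rw [← hnn]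
          exact hNH3
        bL := by
          rw [← hnn, hDNL]
          exact hbL
        wrap := by
          rw [hDNL]
          change (4 * k + 4) * (NH + NL + 2) ≤ p
          omega
        pC := by
          change (p : ℝ) ≤ C * Fintype.card W
          rw [← hnn]
          exact hpC
        irr := by
          rw [← hnn]
          exact hirr'
        s0_le := by
          rw [← hnn]
          exact hs0' }
    · -- mult
      change (Rg.filter fun w => (FK.filter fun e => w ∈ e).card = 1 ∧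
        ((∃ x ∈ leavesAt own w, kl x = none) ∨ ∃ e ∈ edgesAt H.edgeFinset w, e ∉ FK) ∧
        (∑ x ∈ (leavesAt own w).filter (fun x => kl x = none), (lam0 x : ZMod p) +
          ∑ e ∈ (edgesAt H.edgeFinset w).filter (fun e => e ∉ FK), (g0 e : ZMod p)) = y).card ≤ _
      by_cases hne : FK.Nonempty
      · have h2 := e6 hne y
        have h3 := l3 y
        refine le_trans (card_le_card (t := (Rg.filter fun w =>
          (∃ e ∈ edgesAt H.edgeFinset w, e ∉ FK) ∧
          ∑ x ∈ (leavesAt own w).filter (fun x => kl x = none), (lam0 x : ZMod p) +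
            ∑ e ∈ (edgesAt H.edgeFinset w).filter (fun e => e ∉ FK), (g0 e : ZMod p) = y) ∪
          (Rg.filter fun w => (∃ x ∈ leavesAt own w, kl x = none) ∧
            ∑ x ∈ (leavesAt own w).filter (fun x => kl x = none), (lam0 x : ZMod p) = y)) ?_)
          ((card_union_le _ _).trans (by omega))
        intro w hw
        rw [mem_filter] at hw
        rw [mem_union, mem_filter, mem_filter]
        by_cases h4 : ∃ e ∈ edgesAt H.edgeFinset w, e ∉ FK
        · exact Or.inl ⟨hw.1, h4, hw.2.2.2⟩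
        · right
          have h5 : (edgesAt H.edgeFinset w).filter (fun e => e ∉ FK) = ∅ := by
            rw [filter_eq_empty_iff]
            intro e he hc
            exact h4 ⟨e, he, hc⟩
          have h6 := hw.2.2.2
          rw [h5, sum_empty, add_zero] at h6
          exact ⟨hw.1, hw.2.2.1.resolve_right h4, h6⟩
      · rw [not_nonempty_iff_eq_empty] at hne
        rw [hne]
        simp
    · -- rst
      change 6 * (Rg.filter fun w => leavesAt own w = ∅ ∧
          (FK.filter fun e => w ∈ e).card = 1 ∧ ∃ l ∈ Ico loH (loH + NH),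
          ∑ x ∈ (leavesAt own w).filter (fun x => kl x = none), (lam0 x : ZMod p) +
            ∑ e ∈ (edgesAt H.edgeFinset w).filter (fun e => e ∉ FK), (g0 e : ZMod p) +
              (l : ZMod p) = t).card ≤
          5 * (Rg.filter fun w => leavesAt own w = ∅ ∧
            (FK.filter fun e => w ∈ e).card = 1).card + 18
      exact e7 t
  by_cases hA : 4 * s2 ≤ P.card
  · obtain ⟨Pi, Snk, hSac, hSnk, hPi⟩ := exists_sac H sup hub DZ F pt vp k0 hS hdeg' s2 (by
      have h2 : 2 * s2 ≤ P.card := by omega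
      convert h2)
    have h2 : P.card ≤ (fkS F pt Pi).card + Pi.card := by
      convert ExPrep_fk_card hS Pi
    exact main Pi Snk s1 hSac (by omega) le_rfl (Or.inl ⟨rfl, hSnk, by omega⟩)
  · push Not at hA
    obtain ⟨hSac, hFK⟩ := sac_all H sup hub DZ F pt vp k0 hS hdeg'
    exact main P ∅ 0 hSac (by omega) (Nat.zero_le _) (Or.inr ⟨rfl, rfl, hFK⟩)

end Pool.Agent.AML

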