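import Pool.Agent.AMF.Defs
import Pool.Agent.AMH.Law

/-!
# Case L: the interface between construction and completion (inner form)

`H` graph on `W` (edge set `E`), `X` leaves, `own x` the neighbour of the leaf `x`. `a = |X|`, `m = |E|`,
`n = |W|`. Stars = centres = vertices without `H`-edges.
* `Rg`: the regular vertices (all stars are regular), the other vertices are irregular;
* `FK`: the kept slots (edges of `H` labelled by the parts theorem); `Snk`: the sinks (labelled at the very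
  end); `SE0`: the safe edges; the other edges of `H` are the background edges;
* `kl x`: the kind of the leaf slot `x` (`none`: no slot);
* `g0`: labels of safe and background edges, `lam0`: labels of the leaves with `kl x = none`;
* safe labels: `(a, a + s0]`, `s1` of them stay free; high window `[loH, loH + NH)`; low window
  `[loL, loL + NL)` with `NL` = number of leaf slots, `loL = 2 (a - NL) / 3 + 1`.
-/

set_option autoImplicit false
set_option linter.unusedSectionVars false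
set_option linter.unusedVariables false

namespace Pool.Agent.AML

open Finset Pool.Agent.AMF
open Pool.Agent.AMH (Kn)

/-- the data -/
structure PrepD (W X : Type) where
  /-- regular vertices -/
  Rg : Finset W
  /-- kept slots -/
  FK : Finset (Sym2 W)
  /-- sinks -/
  Snk : Finset (Sym2 W)
  /-- safe edges -/
  SE0 : Finset (Sym2 W)
  /-- kinds of the leaf slots -/
  kl : X → Option Kn
  /-- part of a slot -/
  pt : Sym2 W → ℕ
  /-- part of a vertex -/
  vp : W → ℕ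
  /-- labels of safe and background edges -/
  g0 : Sym2 W → ℕ
  /-- labels of the other leaves -/
  lam0 : X → ℕ
  /-- modulus -/
  p : ℕ
  /-- number of safe labels -/
  s0 : ℕ
  /-- number of free safe labels -/
  s1 : ℕ
  /-- smallest high label -/
  loH : ℕ
  /-- number of high labels -/
  NH : ℕ

section

variable {W X : Type} [Fintype W] [DecidableEq W] [Fintype X] [DecidableEq X]

/-- number of leaf slots -/
def PrepD.NL (D : PrepD W X) : ℕ := (univ.filter fun x => D.kl x ≠ none).card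

/-- smallest low label -/
def PrepD.loL (D : PrepD W X) : ℕ := 2 * (Fintype.card X - D.NL) / 3 + 1

/-- the kept slots at `w` -/
def PrepD.sl (D : PrepD W X) (w : W) : Finset (Sym2 W) := D.FK.filter fun e => w ∈ e

/-- the offset of a regular vertex -/
def PrepD.c (D : PrepD W X) (own : X → W) (E : Finset (Sym2 W)) (w : W) : ZMod D.p :=
  ∑ x ∈ (leavesAt own w).filter (fun x => D.kl x = none), (D.lam0 x : ZMod D.p) +
    ∑ e ∈ (edgesAt E w).filter (fun e => e ∉ D.FK), (D.g0 e : ZMod D.p)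

open Classical in
/-- Admissible data. `E` = edge set of `H`, `a = Fintype.card X`, `n = Fintype.card W`. -/
structure PrepD.Ok (D : PrepD W X) (E : Finset (Sym2 W)) (own : X → W) (k B : ℕ) (d β C θ : ℝ) :
    Prop where
  p0 : D.p ≠ 0
  -- the graph
  star_Rg : ∀ w, edgesAt E w = ∅ → w ∈ D.Rg
  fkE : D.FK ⊆ E
  snkE : D.Snk ⊆ E
  seE : D.SE0 ⊆ E
  fk_snk : Disjoint D.FK D.Snk
  fk_se : Disjoint D.FK D.SE0
  snk_se : Disjoint D.Snk D.SE0
  fk_ne : ∀ e ∈ D.FK, ∃ w ∈ e, w ∈ D.Rg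
  snk_irr : ∀ e ∈ D.Snk, ∀ w ∈ e, w ∉ D.Rg
  se_irr : ∀ e ∈ D.SE0, ∀ w ∈ e, w ∉ D.Rg
  vp_eq : ∀ e ∈ D.FK, ∀ w ∈ e, w ∈ D.Rg → D.pt e = D.vp w
  part_le : ∀ i, 3 * (D.FK.filter fun e => D.pt e = i).card + 4 ≤ k
  has_slot : ∀ w ∈ D.Rg, (edgesAt E w).Nonempty → (D.sl w).Nonempty
  slots_ne : ∀ w ∈ D.Rg, ∀ w' ∈ D.Rg, w ≠ w' → (D.sl w).Nonempty → D.sl w = D.sl w' →
    (leavesAt own w).Nonempty ∧ (leavesAt own w').Nonempty
  count : ∀ i, 1000 *
      (2 * (D.Rg.filter fun w => D.vp w = i ∧ leavesAt own w = ∅ ∧ (D.sl w).card = 1).card +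
        (D.Rg.filter fun w => D.vp w = i ∧ (leavesAt own w).Nonempty ∧ (D.sl w).card = 1).card +
        2 * (D.Rg.filter fun w => D.vp w = i ∧ 2 ≤ (D.sl w).card).card) ≤
      1001 * (2 * (D.FK.filter fun e => D.pt e = i).card)
  -- every irregular vertex is covered by safe edges
  cov : ∀ w, w ∉ D.Rg → leavesAt own w = ∅ → ∃ e ∈ D.SE0, w ∈ e ∧
    ((∃ e' ∈ D.SE0, e' ≠ e ∧ ∃ v, v ∈ e ∧ v ∈ e') ∨ ∃ v ∈ e, v ∉ D.Rg ∧ (leavesAt own v).Nonempty)
  hub_cov : ∀ e ∈ D.FK, ∀ y ∈ e, y ∉ D.Rg → ∃ e' ∈ D.SE0, y ∈ e'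
  -- the labels of edges of `H`
  g_inj : Set.InjOn D.g0 (E \ (D.FK ∪ D.Snk) : Finset (Sym2 W))
  g_se : ∀ e ∈ D.SE0, Fintype.card X < D.g0 e ∧ D.g0 e ≤ Fintype.card X + D.s0
  g_bg : ∀ e ∈ E, e ∉ D.FK → e ∉ D.Snk → e ∉ D.SE0 →
    Fintype.card X + D.s0 < D.g0 e ∧ D.g0 e ≤ Fintype.card X + E.card ∧
      (D.FK.Nonempty → D.g0 e < D.loH ∨ D.loH + D.NH ≤ D.g0 e)
  s0_eq : D.s0 = D.SE0.card + D.s1
  s0_a : D.s0 ≤ Fintype.card X
  s0_E : D.s0 ≤ E.card
  spare : D.FK.Nonempty → (k : ℝ) * d * Fintype.card W ≤ D.s1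
  loH1 : Fintype.card X + D.s0 < D.loH
  loH2 : D.FK.Nonempty → D.loH + D.NH ≤ Fintype.card X + E.card + 1
  NH_ge : D.FK.card ≤ D.NH
  -- the leaf slots
  kl_irr : ∀ x, own x ∉ D.Rg → D.kl x = none
  kl_one : ∀ w ∈ D.Rg, (edgesAt E w).Nonempty → (leavesAt own w).Nonempty →
    ∃ x, (leavesAt own w).filter (fun x => D.kl x ≠ none) = {x} ∧ D.kl x = some 1
  kl_s3 : ∀ w, edgesAt E w = ∅ → (leavesAt own w).card = 3 → ∃ x y z,
    leavesAt own w = {x, y, z} ∧ D.kl x = some 2 ∧ D.kl y = some 3 ∧ D.kl z = some 4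
  kl_s4 : ∀ w, edgesAt E w = ∅ → 4 ≤ (leavesAt own w).card → ∃ x y z u,
    (leavesAt own w).filter (fun x => D.kl x ≠ none) = {x, y, z, u} ∧
      ((leavesAt own w).filter (fun x => D.kl x ≠ none)).card = 4 ∧
      D.kl x = some 1 ∧ D.kl y = some 1 ∧ D.kl z = some 1 ∧ D.kl u = some 5
  -- the labels of the other leaves
  lam_inj : Set.InjOn D.lam0 {x | D.kl x = none}
  lam_mem : ∀ x, D.kl x = none → 1 ≤ D.lam0 x ∧ D.lam0 x ≤ Fintype.card X ∧
    (D.lam0 x < D.loL ∨ D.loL + D.NL ≤ D.lam0 x)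
  -- the offsets
  mult : ∀ y : ZMod D.p, (D.Rg.filter fun w => (D.sl w).card = 1 ∧
    ((∃ x ∈ leavesAt own w, D.kl x = none) ∨ ∃ e ∈ edgesAt E w, e ∉ D.FK) ∧
      D.c own E w = y).card ≤ B
  rst : ∀ t : ZMod D.p, 6 * (D.Rg.filter fun w => leavesAt own w = ∅ ∧ (D.sl w).card = 1 ∧
      ∃ l ∈ Ico D.loH (D.loH + D.NH), D.c own E w + (l : ZMod D.p) = t).card ≤
    5 * (D.Rg.filter fun w => leavesAt own w = ∅ ∧ (D.sl w).card = 1).card + 18
  -- sizes
  bH : β * Fintype.card W ≤ D.NH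
  bL : β * Fintype.card W ≤ D.NL
  wrap : (4 * k + 4) * (D.NH + D.NL + 2) ≤ D.p
  pC : (D.p : ℝ) ≤ C * Fintype.card W
  irr : ((univ \ D.Rg).card : ℝ) ≤ θ * Fintype.card W
  s0_le : (D.s0 : ℝ) ≤ θ * Fintype.card W

end

end Pool.Agent.AML
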