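import Pool.Agent.AML.SkL1

/-!
# Skeleton with all edges of small components as slots
-/

set_option autoImplicit false
set_option linter.unusedSectionVars false
set_option linter.unusedVariables false

namespace Pool.Agent.AML

open Finset Pool.Agent.MP6be45b.TreePart Pool.Agent.AMX

section Gen

variable {W : Type*} [Fintype W] [DecidableEq W] {H : SimpleGraph W} {p : W → W}
  {h : W → ℕ} {Z : Finset W} {prt : W → Finset W} {K k0 D : ℕ}

theorem SkCtx3.edge_cases (C : SkCtx3 H p h Z prt K k0 D) {w w' : W} (hw : w ∉ Z)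
    (he : s(w, w') ∈ slF p Z prt) :
    (w' ∉ Z ∧ w' ∈ prt w ∧ w ≠ w' ∧ (p w = w' ∨ p w' = w)) ∨
    (w' ∈ Z ∧ HasHub p Z w ∧ w' = hn p Z w) := by
  rcases mem_slF.1 he with ⟨v, h1, h2, h3, h4⟩ | ⟨v, h1, h2, h4⟩
  · left
    obtain ⟨h5, h6⟩ := C.eq v (p v) h1 h3
    rcases Sym2.eq_iff.1 h4 with ⟨rfl, rfl⟩ | ⟨rfl, rfl⟩
    · exact ⟨h5, h3, h2.symm, Or.inl rfl⟩
    · refine ⟨h1, ?_, h2, Or.inr rfl⟩
      rw [h6]
      exact C.mem _ h1
  · right
    rcases Sym2.eq_iff.1 h4 with ⟨rfl, rfl⟩ | ⟨rfl, rfl⟩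
    · exact ⟨(hn_spec h1 h2).1, h2, rfl⟩
    · exact absurd (hn_spec h1 h2).1 hw

theorem SkCtx3.mk1 (C : SkCtx3 H p h Z prt K k0 D) {w w' : W} (hw : w ∉ Z) (h' : w' ∈ prt w)
    (hne : w ≠ w') (hadj : p w = w' ∨ p w' = w) : s(w, w') ∈ slF p Z prt := by
  obtain ⟨h5, h6⟩ := C.eq w w' hw h'
  rw [mem_slF]
  left
  rcases hadj with rfl | hadj
  · exact ⟨w, hw, hne.symm, h', rfl⟩
  · refine ⟨w', h5, by rw [hadj]; exact hne, ?_, by rw [hadj, Sym2.eq_swap]⟩
    rw [hadj, h6]
    exact C.mem w hw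

/-- two roots in the same part are equal -/
theorem SkCtx3.root_eq (C : SkCtx3 H p h Z prt K k0 D) {t t' : W} (ht : p t = t) (htZ : t ∉ Z)
    (ht' : p t' = t') (hmem : t' ∈ prt t) : t' = t := by
  obtain ⟨u, hu, htop, -⟩ := C.top t htZ
  have h1 : t = u := by
    by_contra hc
    exact (htop t (C.mem t htZ) hc).2 ht
  have h2 : t' = u := by
    by_contra hc
    exact (htop t' hmem hc).2 ht'
  rw [h1, h2]

/-- the part of a small root is a component -/
theorem SkCtx3.sm_comp (C : SkCtx3 H p h Z prt K k0 D) {t : W} (ht : IsSm p Z prt K t) {w : W}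
    (hw : H.Reachable t w) : w ∈ prt t := by
  obtain ⟨h1, h2, h3, h4⟩ := ht
  obtain ⟨u, hu, hpu, hcomp⟩ := C.comp h2 h3 (fun x hx hc => h4 x hx (Or.inl hc))
    (fun z hz hc => h4 (p z) hc (Or.inr ⟨z, hz, rfl⟩))
  have h5 : u = t := C.root_eq h1 h2 hpu hu
  subst h5
  exact hcomp w hw

/-- everything in a part below a root is reachable -/
theorem SkCtx3.reach (C : SkCtx3 H p h Z prt K k0 D) {t : W} (ht : p t = t) (htZ : t ∉ Z) {w : W}
    (hw : w ∈ prt t) : H.Reachable t w := by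
  obtain ⟨u, hu, htop, -⟩ := C.top t htZ
  have h1 : t = u := by
    by_contra hc
    exact (htop t (C.mem t htZ) hc).2 ht
  subst h1
  induction hn : h w using Nat.strong_induction_on generalizing w with
  | _ n ih =>
    by_cases hwt : w = t
    · rw [hwt]
    · obtain ⟨h2, h3⟩ := htop w hw hwt
      have h4 := C.rooted.lt w h3
      exact (ih (h (p w)) (by omega) h2 rfl).trans (C.rooted.adj w h3).symm.reachable

/-- a small subset of a part closed under slots is a component -/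
theorem SkCtx3.tight (C : SkCtx3 H p h Z prt K k0 D) {v : W} (hv : v ∉ Z) {S : Finset W}
    (hS : S ⊆ prt v) (hne : S.Nonempty) (hcl : ∀ x ∈ S, ∀ y, s(x, y) ∈ slF p Z prt → y ∈ S)
    (hcard : S.card < K) : S = prt v ∧ ∃ t, prt t = prt v ∧ IsSm p Z prt K t := by
  have hSZ : ∀ x ∈ S, x ∉ Z := fun x hx => (C.eq v x hv (hS hx)).1
  have hno : ∀ x ∈ S, ¬ HasHub p Z x := by
    intro x hx hh
    have h1 := hcl x hx _ (mk2 (hSZ x hx) hh)
    exact hSZ _ h1 (hn_spec (hSZ x hx) hh).1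
  have hw : S = prt v := by
    apply C.whole hv hS hne
    intro x hx y hy hxy
    by_cases hxy' : x = y
    · rwa [← hxy']
    · apply hcl x hx
      apply C.mk1 (hSZ x hx) _ hxy' hxy
      rw [(C.eq v x hv (hS hx)).2]
      exact hy
  refine ⟨hw, ?_⟩
  obtain ⟨t, ht, hpt, -⟩ := C.comp hv (by rw [← hw]; exact hcard)
    (fun x hx hc => hno x (by rw [hw]; exact hx) (Or.inl hc))
    (fun z hz hc => hno (p z) (by rw [hw]; exact hc) (Or.inr ⟨z, hz, rfl⟩))
  obtain ⟨h1, h2⟩ := C.eq v t hv ht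
  refine ⟨t, h2, hpt, h1, ?_, ?_⟩
  · rw [h2, ← hw]
    exact hcard
  · intro x hx
    rw [h2, ← hw] at hx
    exact hno x hx

/-- all edges of the small components without hubs -/
noncomputable def smE (H : SimpleGraph W) (p : W → W) (Z : Finset W) (prt : W → Finset W) (K : ℕ) :
    Finset (Sym2 W) := by
  classical
  exact univ.filter fun e => e ∈ H.edgeSet ∧ ∃ t, IsSm p Z prt K t ∧ ∀ a ∈ e, a ∈ prt t

theorem mem_smE {e : Sym2 W} : e ∈ smE H p Z prt K ↔
    e ∈ H.edgeSet ∧ ∃ t, IsSm p Z prt K t ∧ ∀ a ∈ e, a ∈ prt t := by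
  classical
  unfold smE
  rw [mem_filter]
  exact ⟨fun h => h.2, fun h => ⟨mem_univ _, h⟩⟩

/-- the slots -/
noncomputable def lF (H : SimpleGraph W) (p : W → W) (Z : Finset W) (prt : W → Finset W) (K : ℕ) :
    Finset (Sym2 W) := slF p Z prt ∪ smE H p Z prt K

theorem mem_lF {e : Sym2 W} : e ∈ lF H p Z prt K ↔ e ∈ slF p Z prt ∨ e ∈ smE H p Z prt K :=
  mem_union

/-- in a small component every edge is a slot -/
theorem SkCtx3.all_slots (C : SkCtx3 H p h Z prt K k0 D) {t : W} (ht : IsSm p Z prt K t) {w y : W}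
    (hw : w ∈ prt t) (hwy : H.Adj w y) : s(w, y) ∈ lF H p Z prt K := by
  have hy : y ∈ prt t := C.sm_comp ht ((C.reach ht.1 ht.2.1 hw).trans hwy.reachable)
  refine mem_lF.2 (Or.inr (mem_smE.2 ⟨hwy, t, ht, ?_⟩))
  intro a ha
  rcases Sym2.mem_iff.1 ha with rfl | rfl
  · exact hw
  · exact hy

theorem SkCtx3.l_edge (C : SkCtx3 H p h Z prt K k0 D) {e : Sym2 W} (he : e ∈ lF H p Z prt K) :
    e ∈ H.edgeSet := by
  rcases mem_lF.1 he with he | he
  · obtain ⟨x, hx, rfl⟩ := slF_tree he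
    exact C.rooted.adj x hx
  · exact (mem_smE.1 he).1

theorem SkCtx3.l_nonhub (C : SkCtx3 H p h Z prt K k0 D) {e : Sym2 W} (he : e ∈ lF H p Z prt K) :
    ∃ w ∈ e, w ∉ Z := by
  rcases mem_lF.1 he with he | he
  · rcases mem_slF.1 he with ⟨v, h1, h2, h3, rfl⟩ | ⟨v, h1, h2, rfl⟩
    · exact ⟨v, Sym2.mem_mk_left _ _, h1⟩
    · exact ⟨v, Sym2.mem_mk_left _ _, h1⟩
  · obtain ⟨-, t, ht, h2⟩ := mem_smE.1 he
    obtain ⟨a, ha⟩ : ∃ a, a ∈ e := by
      induction e using Sym2.ind with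
      | _ a b => exact ⟨a, Sym2.mem_mk_left _ _⟩
    exact ⟨a, ha, (C.eq t a ht.2.1 (h2 a ha)).1⟩

theorem SkCtx3.l_same (C : SkCtx3 H p h Z prt K k0 D) {e : Sym2 W} (he : e ∈ lF H p Z prt K)
    {a b : W} (ha : a ∈ e) (hb : b ∈ e) (haZ : a ∉ Z) (hbZ : b ∉ Z) : prt a = prt b := by
  rcases mem_lF.1 he with he | he
  · by_cases hne : a = b
    · rw [hne]
    · have h4 : e = s(a, b) := (Sym2.mem_and_mem_iff hne).1 ⟨ha, hb⟩
      rw [h4] at he
      rcases C.edge_cases haZ he with h5 | h5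
      · exact (C.eq a b haZ h5.2.1).2.symm
      · exact absurd h5.1 hbZ
  · obtain ⟨-, t, ht, h2⟩ := mem_smE.1 he
    rw [(C.eq t a ht.2.1 (h2 a ha)).2, (C.eq t b ht.2.1 (h2 b hb)).2]

theorem SkCtx3.l_vp_eq (C : SkCtx3 H p h Z prt K k0 D) {e : Sym2 W} (he : e ∈ lF H p Z prt K)
    {w : W} (hw : w ∈ e) (hwZ : w ∉ Z) : ptOf prt Z e = vpOf prt w := by
  have hx : ∃ w, w ∈ e ∧ w ∉ Z := ⟨w, hw, hwZ⟩
  have h1 : ptOf prt Z e = vpOf prt hx.choose := dif_pos hx
  rw [h1]
  obtain ⟨h2, h3⟩ := hx.choose_spec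
  show (Fintype.equivFin (Finset W) (prt _)).val = (Fintype.equivFin (Finset W) (prt _)).val
  rw [C.l_same he h2 hw h3 hwZ]

theorem SkCtx3.l_part_le (C : SkCtx3 H p h Z prt K k0 D) (i : ℕ) :
    ((lF H p Z prt K).filter fun e => ptOf prt Z e = i).card ≤ 2 * k0 + K * K := by
  rcases ((lF H p Z prt K).filter fun e => ptOf prt Z e = i).eq_empty_or_nonempty with he | ⟨e, he⟩
  · rw [he, card_empty]
    exact Nat.zero_le _
  obtain ⟨he1, he2⟩ := mem_filter.1 he
  obtain ⟨w, hw2, hw1⟩ := C.l_nonhub he1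
  have hw3 := C.l_vp_eq he1 hw2 hw1
  have hin : ∀ e' ∈ lF H p Z prt K, ptOf prt Z e' = i → ∀ v ∈ e', v ∉ Z → v ∈ prt w := by
    intro e' h1 h2 v h4 h3
    have h6 := C.l_vp_eq h1 h4 h3
    have h7 : prt v = prt w := vpOf_inj (by rw [← h6, h2, ← hw3, he2])
    exact h7 ▸ C.mem v h3
  let Q : Finset W := if (prt w).card < K then prt w else ∅
  have hQ : Q.card ≤ K := by
    show (if (prt w).card < K then prt w else ∅).card ≤ K
    split_ifs with hc
    · exact hc.le
    · simp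
  have hsub : ((lF H p Z prt K).filter fun e => ptOf prt Z e = i) ⊆
      ((prt w).image fun v => s(v, p v)) ∪ ((prt w).image fun v => s(v, hn p Z v)) ∪
        ((Q ×ˢ Q).image fun u => s(u.1, u.2)) := by
    intro e' he'
    obtain ⟨h1, h2⟩ := mem_filter.1 he'
    have h3 := hin e' h1 h2
    rcases mem_lF.1 h1 with h4 | h4
    · apply mem_union_left
      rw [mem_union, mem_image, mem_image]
      rcases mem_slF.1 h4 with ⟨v, h5, h6, h7, rfl⟩ | ⟨v, h5, h6, rfl⟩
      · exact Or.inl ⟨v, h3 v (Sym2.mem_mk_left _ _) h5, rfl⟩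
      · exact Or.inr ⟨v, h3 v (Sym2.mem_mk_left _ _) h5, rfl⟩
    · apply mem_union_right
      obtain ⟨-, t, ht, h5⟩ := mem_smE.1 h4
      induction e' using Sym2.ind with
      | _ a b =>
        have ha := h5 a (Sym2.mem_mk_left _ _)
        have hb := h5 b (Sym2.mem_mk_right _ _)
        obtain ⟨haZ, hap⟩ := C.eq t a ht.2.1 ha
        obtain ⟨hbZ, hbp⟩ := C.eq t b ht.2.1 hb
        have ha' := h3 a (Sym2.mem_mk_left _ _) haZ
        have hb' := h3 b (Sym2.mem_mk_right _ _) hbZ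
        have h6 : prt w = prt t := by rw [← hap, (C.eq w a hw1 ha').2]
        have h7 : Q = prt w := by
          show (if (prt w).card < K then prt w else ∅) = prt w
          rw [if_pos (by rw [h6]; exact ht.2.2.1)]
        rw [mem_image]
        refine ⟨(a, b), ?_, rfl⟩
        rw [mem_product, h7]
        exact ⟨ha', hb'⟩
  calc _ ≤ _ := card_le_card hsub
    _ ≤ (((prt w).image fun v => s(v, p v)) ∪ ((prt w).image fun v => s(v, hn p Z v))).card +
        ((Q ×ˢ Q).image fun u => s(u.1, u.2)).card := card_union_le _ _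
    _ ≤ ((prt w).image fun v => s(v, p v)).card + ((prt w).image fun v => s(v, hn p Z v)).card +
        ((Q ×ˢ Q).image fun u => s(u.1, u.2)).card := by gcongr; exact card_union_le _ _
    _ ≤ (prt w).card + (prt w).card + Q.card * Q.card := by
        gcongr
        · exact card_image_le
        · exact card_image_le
        · exact card_image_le.trans (card_product _ _).le
    _ ≤ 2 * k0 + K * K := by
        have := C.card_le w hw1
        have := Nat.mul_le_mul hQ hQ
        omega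

theorem SkCtx3.l_has_slot (C : SkCtx3 H p h Z prt K k0 D) {w : W} (hw : w ∉ Z)
    (hd : ∃ y, H.Adj w y) : (slAt (lF H p Z prt K) w).Nonempty := by
  by_contra hne
  rw [not_nonempty_iff_eq_empty] at hne
  have hno : ∀ y, s(w, y) ∉ lF H p Z prt K := by
    intro y hy
    have : s(w, y) ∈ slAt (lF H p Z prt K) w := mem_slAt.2 ⟨hy, Sym2.mem_mk_left _ _⟩
    rw [hne] at this
    exact absurd this (notMem_empty _)
  obtain ⟨h1, t, h2, h3⟩ := C.tight hw (S := {w}) (singleton_subset_iff.2 (C.mem w hw))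
    (singleton_nonempty _)
    (by
      intro x hx y hy
      rw [mem_singleton] at hx
      subst hx
      exact absurd (mem_lF.2 (Or.inl hy)) (hno y)) (by rw [card_singleton]; have := C.hK; omega)
  obtain ⟨y, hy⟩ := hd
  exact hno y (C.all_slots h3 (by rw [h2]; exact C.mem w hw) hy)

theorem SkCtx3.l_slots_ne (C : SkCtx3 H p h Z prt K k0 D) {w w' : W} (hw : w ∉ Z) (hw' : w' ∉ Z)
    (hne : w ≠ w') (hno : (slAt (lF H p Z prt K) w).Nonempty)
    (heq : slAt (lF H p Z prt K) w = slAt (lF H p Z prt K) w') :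
    (∀ y, H.Adj w y → y = w') ∧ (∀ y, H.Adj w' y → y = w) := by
  have hall : ∀ f ∈ slAt (lF H p Z prt K) w, f = s(w, w') := fun f hf =>
    two_eq hne hf (heq ▸ hf)
  have hall' : ∀ f ∈ slAt (lF H p Z prt K) w', f = s(w, w') := fun f hf => hall f (heq ▸ hf)
  obtain ⟨e, he⟩ := hno
  have he' := hall e he
  have heF := (mem_slAt.1 he).1
  have hmem : w' ∈ prt w := by
    have h1 := C.l_same heF (a := w) (b := w') (by rw [he']; exact Sym2.mem_mk_left _ _)
      (by rw [he']; exact Sym2.mem_mk_right _ _) hw hw'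
    rw [h1]
    exact C.mem w' hw'
  obtain ⟨h1, t, h2, h3⟩ := C.tight hw (S := {w, w'}) (by
      intro x hx
      rw [mem_insert, mem_singleton] at hx
      rcases hx with rfl | rfl
      · exact C.mem _ hw
      · exact hmem) ⟨w, by simp⟩
    (by
      intro x hx y hy
      rw [mem_insert, mem_singleton] at hx ⊢
      rcases hx with rfl | rfl
      · have h2 := hall _ (mem_slAt.2 ⟨mem_lF.2 (Or.inl hy), Sym2.mem_mk_left _ _⟩)
        rcases Sym2.eq_iff.1 h2 with ⟨-, h3⟩ | ⟨h3, h4⟩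
        · exact Or.inr h3
        · exact Or.inl h4
      · have h2 := hall' _ (mem_slAt.2 ⟨mem_lF.2 (Or.inl hy), Sym2.mem_mk_left _ _⟩)
        rcases Sym2.eq_iff.1 h2 with ⟨h3, h4⟩ | ⟨h3, h4⟩
        · exact Or.inr h4
        · exact Or.inl h4) (by rw [card_pair hne]; have := C.hK; omega)
  constructor
  · intro y hy
    have h4 := C.all_slots h3 (by rw [h2]; exact C.mem w hw) hy
    have h5 := hall _ (mem_slAt.2 ⟨h4, Sym2.mem_mk_left _ _⟩)
    rcases Sym2.eq_iff.1 h5 with ⟨-, h6⟩ | ⟨h6, -⟩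
    · exact h6
    · exact absurd h6 hne
  · intro y hy
    have h4 := C.all_slots h3 (by rw [h2]; exact hmem) hy
    have h5 := hall' _ (mem_slAt.2 ⟨h4, Sym2.mem_mk_left _ _⟩)
    rcases Sym2.eq_iff.1 h5 with ⟨h6, -⟩ | ⟨-, h6⟩
    · exact absurd h6.symm hne
    · exact h6

/-- **Count.** In every part the number of slots is almost the number of vertices, and in the small
components without hubs twice the number of slots is at least the sum of the numbers of slots at the
vertices. -/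
theorem SkCtx3.l_count (C : SkCtx3 H p h Z prt K k0 D) {w : W} (hw : w ∉ Z) :
    ((prt w).card ≤ ((lF H p Z prt K).filter fun e => ptOf prt Z e = vpOf prt w).card + 1 ∧
      K ≤ (prt w).card) ∨
    (prt w).card ≤ ((lF H p Z prt K).filter fun e => ptOf prt Z e = vpOf prt w).card ∨
    (∃ t, prt t = prt w ∧ IsSm p Z prt K t) ∧ ∑ v ∈ prt w, (slAt (lF H p Z prt K) v).card ≤
      2 * ((lF H p Z prt K).filter fun e => ptOf prt Z e = vpOf prt w).card := by
  classical
  set F := lF H p Z prt K with hF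
  set Fw := F.filter fun e => ptOf prt Z e = vpOf prt w with hFw
  obtain ⟨t, ht, htop, hor⟩ := C.top w hw
  have hprt : ∀ v ∈ prt w, v ∉ Z ∧ prt v = prt w := fun v hv => C.eq w v hw hv
  have hvp : ∀ v ∈ prt w, vpOf prt v = vpOf prt w := by
    intro v hv
    show (Fintype.equivFin (Finset W) (prt _)).val = (Fintype.equivFin (Finset W) (prt _)).val
    rw [(hprt v hv).2]
  -- tree edges
  let Tr : Finset (Sym2 W) := ((prt w).erase t).image fun v => s(v, p v)
  have hTrc : Tr.card + 1 = (prt w).card := by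
    have h1 : Tr.card = ((prt w).erase t).card := by
      apply card_image_of_injOn
      intro v hv v' hv' he
      obtain ⟨h1, h2⟩ := mem_erase.1 (mem_coe.1 hv)
      obtain ⟨h3, h4⟩ := mem_erase.1 (mem_coe.1 hv')
      exact tree_inj C.rooted (htop v h2 h1).2 (htop v' h4 h3).2 he
    rw [h1, card_erase_of_mem ht]
    have := card_pos.2 ⟨t, ht⟩
    omega
  have hTr : Tr ⊆ Fw := by
    intro e he
    obtain ⟨v, hv, rfl⟩ := mem_image.1 he
    obtain ⟨h1, h2⟩ := mem_erase.1 hv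
    obtain ⟨h3, h4⟩ := htop v h2 h1
    have h5 : s(v, p v) ∈ F := by
      apply mem_lF.2
      left
      apply C.mk1 (hprt v h2).1 _ h4.symm (Or.inl rfl)
      rw [(hprt v h2).2]
      exact h3
    refine mem_filter.2 ⟨h5, ?_⟩
    rw [C.l_vp_eq h5 (Sym2.mem_mk_left _ _) (hprt v h2).1, hvp v h2]
  have hTrle := card_le_card hTr
  by_cases hbig : K ≤ (prt w).card
  · left
    exact ⟨by omega, hbig⟩
  right
  by_cases hh : ∃ x ∈ prt w, HasHub p Z x
  · left
    obtain ⟨x, hx, hxh⟩ := hh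
    have hxZ := (hprt x hx).1
    have h1 : s(x, hn p Z x) ∈ F := mem_lF.2 (Or.inl (mk2 hxZ hxh))
    have h2 : s(x, hn p Z x) ∈ Fw := by
      refine mem_filter.2 ⟨h1, ?_⟩
      rw [C.l_vp_eq h1 (Sym2.mem_mk_left _ _) hxZ, hvp x hx]
    have h3 : s(x, hn p Z x) ∉ Tr := by
      intro hc
      obtain ⟨v, hv, hve⟩ := mem_image.1 hc
      obtain ⟨h4, h5⟩ := mem_erase.1 hv
      have h6 := (htop v h5 h4).1
      have h7 : hn p Z x ∈ s(v, p v) := by
        rw [show s(v, p v) = s(x, hn p Z x) from hve]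
        exact Sym2.mem_mk_right _ _
      have h8 := (hn_spec hxZ hxh).1
      rcases Sym2.mem_iff.1 h7 with h9 | h9
      · rw [h9] at h8
        exact (hprt v h5).1 h8
      · rw [h9] at h8
        exact (hprt _ h6).1 h8
    have h4 : (insert s(x, hn p Z x) Tr).card ≤ Fw.card :=
      card_le_card (insert_subset h2 hTr)
    rw [card_insert_of_notMem h3] at h4
    omega
  · right
    push Not at hh
    have hp : p t = t := by
      rcases hor with hor | ⟨h1 | h1, h2⟩
      · exact absurd hor hbig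
      · exact h1
      · exact absurd (Or.inl h1) (hh t ht)
    refine ⟨⟨t, (hprt t ht).2, hp, (hprt t ht).1, ?_, ?_⟩, ?_⟩
    · rw [(hprt t ht).2]
      omega
    · rw [(hprt t ht).2]
      exact hh
    -- double count
    calc ∑ v ∈ prt w, (slAt F v).card = ∑ v ∈ prt w, ∑ e ∈ Fw, (if v ∈ e then 1 else 0) := by
          apply Finset.sum_congr rfl
          intro v hv
          rw [← Finset.card_filter]
          congr 1
          ext e
          rw [mem_slAt, mem_filter, hFw, mem_filter]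
          constructor
          · rintro ⟨h1, h2⟩
            refine ⟨⟨h1, ?_⟩, h2⟩
            rw [C.l_vp_eq h1 h2 (hprt v hv).1, hvp v hv]
          · rintro ⟨⟨h1, -⟩, h2⟩
            exact ⟨h1, h2⟩
      _ = ∑ e ∈ Fw, ∑ v ∈ prt w, (if v ∈ e then 1 else 0) := Finset.sum_comm
      _ ≤ ∑ e ∈ Fw, 2 := by
          apply Finset.sum_le_sum
          intro e _
          induction e using Sym2.ind with
          | _ a b =>
            rw [← Finset.card_filter]
            refine (card_le_card ?_).trans (Finset.card_le_two (a := a) (b := b))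
            intro x hx
            rw [mem_insert, mem_singleton]
            exact Sym2.mem_iff.1 (mem_filter.1 hx).2
      _ = 2 * Fw.card := by rw [Finset.sum_const, smul_eq_mul, mul_comm]

end Gen

/-- A skeleton for graphs with many supports. -/
structure SkelL {W : Type} [Fintype W] [DecidableEq W] (H : SimpleGraph W) [DecidableRel H.Adj]
    (sup hub : Finset W) (DZ F : Finset (Sym2 W)) (pt : Sym2 W → ℕ) (vp : W → ℕ) (k : ℕ) :
    Prop where
  dz_edge : ∀ e ∈ DZ, e ∈ H.edgeSet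
  dz_hub : ∀ e ∈ DZ, ∀ w ∈ e, w ∈ hub
  dz_adj : ∀ z ∈ hub, ∃ e ∈ DZ, z ∈ e ∧ ∃ e' ∈ DZ, e' ≠ e ∧ ∃ v, v ∈ e ∧ v ∈ e'
  edge : ∀ e ∈ F, e ∈ H.edgeSet
  nonhub : ∀ e ∈ F, ∃ w ∈ e, w ∉ hub
  vp_eq : ∀ e ∈ F, ∀ w ∈ e, w ∉ hub → pt e = vp w
  part_le : ∀ i, (F.filter fun e => pt e = i).card ≤ k
  has_slot : ∀ w, w ∉ hub → 0 < H.degree w → (slotsAt F w).Nonempty
  slots_ne : ∀ w w', w ∉ hub → w' ∉ hub → w ≠ w' → (slotsAt F w).Nonempty →
    slotsAt F w = slotsAt F w' → w ∈ sup ∧ w' ∈ sup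
  count : ∀ i, 1000 * (2 * (univ.filter fun w => w ∉ hub ∧ vp w = i ∧ w ∉ sup ∧
      (slotsAt F w).card = 1).card + (univ.filter fun w => w ∉ hub ∧ vp w = i ∧ w ∈ sup ∧
      (slotsAt F w).card = 1).card + 2 * (univ.filter fun w => w ∉ hub ∧ vp w = i ∧
      2 ≤ (slotsAt F w).card).card) ≤ 1001 * (2 * (F.filter fun e => pt e = i).card)

/-- **Skeleton for graphs with many supports.** -/
theorem exists_skelL (ε : ℝ) (hε : 0 < ε) : ∃ k : ℕ, ∀ (W : Type) [Fintype W] [DecidableEq W]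
    (H : SimpleGraph W) [DecidableRel H.Adj] (sup : Finset W),
    (∀ w, w ∉ sup → 2 ≤ H.degree w) →
    ∃ (hub : Finset W) (DZ F : Finset (Sym2 W)) (pt : Sym2 W → ℕ) (vp : W → ℕ),
      SkelL H sup hub DZ F pt vp k ∧ (hub.card : ℝ) ≤ ε * Fintype.card W ∧
        DZ.card ≤ 2 * hub.card := by
  classical
  set K := ⌈3 / ε⌉₊ + 1001 with hK
  have hKr : 3 / ε ≤ (K : ℝ) := by
    rw [hK]
    push_cast
    have := Nat.le_ceil (3 / ε)
    linarith
  refine ⟨2 * ((K + 1) * (K - 1) + 1) + K * K, ?_⟩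
  intro W _ _ H _ sup hdeg
  set n := Fintype.card W with hndef
  obtain ⟨p, h, hR, hs, -⟩ := exists_rooted_matching H (fun v => v) (fun v => rfl)
    (fun v hv => absurd rfl hv)
  -- hubs
  let Z0 : Finset W := univ.filter fun v => K < (chl p v).card
  have hZ0c : (K + 1) * Z0.card ≤ n := by
    refine le_trans ?_ (sum_chl_le p Z0)
    rw [mul_comm, ← smul_eq_mul, ← Finset.sum_const]
    exact Finset.sum_le_sum fun v hv => (mem_filter.1 hv).2
  have hch : ∀ z ∈ Z0, ∃ a ∈ chl p z, ∃ b ∈ chl p z, a ≠ b := by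
    intro z hz
    have h1 : K < (chl p z).card := (mem_filter.1 hz).2
    exact Finset.one_lt_card.1 (by omega)
  let c1 : W → W := fun z => if hz : z ∈ Z0 then (hch z hz).choose else z
  have hc1 : ∀ z ∈ Z0, c1 z ∈ chl p z ∧ ∃ b ∈ chl p z, c1 z ≠ b := by
    intro z hz
    have h1 : c1 z = (hch z hz).choose := dif_pos hz
    rw [h1]
    exact (hch z hz).choose_spec
  let c2 : W → W := fun z => if hz : z ∈ Z0 then (hc1 z hz).2.choose else z
  have hc2 : ∀ z ∈ Z0, c2 z ∈ chl p z ∧ c1 z ≠ c2 z := by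
    intro z hz
    have h1 : c2 z = (hc1 z hz).2.choose := dif_pos hz
    rw [h1]
    exact (hc1 z hz).2.choose_spec
  have hpar : ∀ z x, x ∈ chl p z → p x = z ∧ x ≠ z := fun z x hx => (mem_filter.1 hx).2
  set Z : Finset W := Z0 ∪ Z0.image c1 ∪ Z0.image c2 with hZdef
  have hZ0Z : Z0 ⊆ Z := subset_union_left.trans subset_union_left
  have hZc : Z.card ≤ 3 * Z0.card := by
    calc Z.card ≤ (Z0 ∪ Z0.image c1).card + (Z0.image c2).card := card_union_le _ _
      _ ≤ Z0.card + (Z0.image c1).card + (Z0.image c2).card := by gcongr; exact card_union_le _ _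
      _ ≤ Z0.card + Z0.card + Z0.card :=
          Nat.add_le_add (Nat.add_le_add le_rfl card_image_le) card_image_le
      _ = 3 * Z0.card := by ring
  have hZ : ∀ v, v ∉ Z → (chl p v).card ≤ K := by
    intro v hv
    by_contra hc
    exact hv (hZ0Z (mem_filter.2 ⟨mem_univ _, by omega⟩))
  obtain ⟨prt, C⟩ := exists_ctx3 hR hs (K := K) (by omega) Z hZ
  set F := lF H p Z prt K with hF
  let DZ : Finset (Sym2 W) := (Z0.image fun z => s(c1 z, z)) ∪ (Z0.image fun z => s(c2 z, z))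
  have hne12 : ∀ z ∈ Z0, s(c1 z, z) ≠ s(c2 z, z) := by
    intro z hz hc
    rcases Sym2.eq_iff.1 hc with ⟨h1, -⟩ | ⟨h1, h2⟩
    · exact (hc2 z hz).2 h1
    · exact (hpar z _ (hc1 z hz).1).2 h1
  have hm1 : ∀ z ∈ Z0, s(c1 z, z) ∈ DZ := fun z hz =>
    mem_union_left _ (mem_image.2 ⟨z, hz, rfl⟩)
  have hm2 : ∀ z ∈ Z0, s(c2 z, z) ∈ DZ := fun z hz =>
    mem_union_right _ (mem_image.2 ⟨z, hz, rfl⟩)
  have hedge : ∀ z x, x ∈ chl p z → s(x, z) ∈ H.edgeSet := by
    intro z x hx
    obtain ⟨h1, h2⟩ := hpar z x hx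
    have h3 := hR.adj x (by rw [h1]; exact h2.symm)
    rw [h1] at h3
    exact h3
  refine ⟨Z, DZ, F, ptOf prt Z, vpOf prt, ⟨?_, ?_, ?_, ?_, ?_, ?_, ?_, ?_, ?_, ?_⟩, ?_, ?_⟩
  · -- dz_edge
    intro e he
    rcases mem_union.1 he with he | he
    · obtain ⟨z, hz, rfl⟩ := mem_image.1 he
      exact hedge z _ (hc1 z hz).1
    · obtain ⟨z, hz, rfl⟩ := mem_image.1 he
      exact hedge z _ (hc2 z hz).1
  · -- dz_hub
    intro e he w hw
    rcases mem_union.1 he with he | he
    · obtain ⟨z, hz, rfl⟩ := mem_image.1 he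
      rcases Sym2.mem_iff.1 hw with rfl | rfl
      · exact mem_union_left _ (mem_union_right _ (mem_image.2 ⟨z, hz, rfl⟩))
      · exact hZ0Z hz
    · obtain ⟨z, hz, rfl⟩ := mem_image.1 he
      rcases Sym2.mem_iff.1 hw with rfl | rfl
      · exact mem_union_right _ (mem_image.2 ⟨z, hz, rfl⟩)
      · exact hZ0Z hz
  · -- dz_adj
    intro z hz
    rcases mem_union.1 hz with hz | hz
    · rcases mem_union.1 hz with hz | hz
      · exact ⟨_, hm1 z hz, Sym2.mem_mk_right _ _, _, hm2 z hz, (hne12 z hz).symm, z,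
          Sym2.mem_mk_right _ _, Sym2.mem_mk_right _ _⟩
      · obtain ⟨u, hu, rfl⟩ := mem_image.1 hz
        exact ⟨_, hm1 u hu, Sym2.mem_mk_left _ _, _, hm2 u hu, (hne12 u hu).symm, u,
          Sym2.mem_mk_right _ _, Sym2.mem_mk_right _ _⟩
    · obtain ⟨u, hu, rfl⟩ := mem_image.1 hz
      exact ⟨_, hm2 u hu, Sym2.mem_mk_left _ _, _, hm1 u hu, hne12 u hu, u,
        Sym2.mem_mk_right _ _, Sym2.mem_mk_right _ _⟩
  · exact fun e he => C.l_edge he
  · exact fun e he => C.l_nonhub he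
  · exact fun e he w hw hwZ => C.l_vp_eq he hw hwZ
  · exact fun i => C.l_part_le i
  · intro w hw hd
    rw [← SimpleGraph.card_neighborFinset_eq_degree] at hd
    obtain ⟨y, hy⟩ := card_pos.1 hd
    exact C.l_has_slot hw ⟨y, (SimpleGraph.mem_neighborFinset _ _ _).1 hy⟩
  · intro w w' hw hw' hne hno heq
    obtain ⟨h1, h2⟩ := C.l_slots_ne hw hw' hne hno heq
    have key : ∀ v x, (∀ y, H.Adj v y → y = x) → v ∈ sup := by
      intro v x hx
      by_contra hc
      have h3 := hdeg v hc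
      rw [← SimpleGraph.card_neighborFinset_eq_degree] at h3
      obtain ⟨a, ha, b, hb, hab⟩ := Finset.one_lt_card.1 (lt_of_lt_of_le one_lt_two h3)
      rw [SimpleGraph.mem_neighborFinset] at ha hb
      exact hab ((hx a ha).trans (hx b hb).symm)
    exact ⟨key w w' h1, key w' w h2⟩
  · -- count
    intro i
    set A1 := univ.filter fun w => w ∉ Z ∧ vpOf prt w = i ∧ w ∉ sup ∧ (slotsAt F w).card = 1
      with hA1
    set A2 := univ.filter fun w => w ∉ Z ∧ vpOf prt w = i ∧ w ∈ sup ∧ (slotsAt F w).card = 1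
      with hA2
    set A3 := univ.filter fun w => w ∉ Z ∧ vpOf prt w = i ∧ 2 ≤ (slotsAt F w).card with hA3
    by_cases hex : ∃ w, w ∉ Z ∧ vpOf prt w = i
    swap
    · push Not at hex
      have e1 : A1 = ∅ := by
        rw [hA1, filter_eq_empty_iff]
        intro w _ hc
        exact hex w hc.1 hc.2.1
      have e2 : A2 = ∅ := by
        rw [hA2, filter_eq_empty_iff]
        intro w _ hc
        exact hex w hc.1 hc.2.1
      have e3 : A3 = ∅ := by
        rw [hA3, filter_eq_empty_iff]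
        intro w _ hc
        exact hex w hc.1 hc.2.1
      rw [e1, e2, e3]
      simp
    obtain ⟨w, hwZ, hwi⟩ := hex
    have hin : ∀ v, v ∉ Z → vpOf prt v = i → v ∈ prt w := by
      intro v h1 h2
      have h3 : prt v = prt w := vpOf_inj (h2.trans hwi.symm)
      exact h3 ▸ C.mem v h1
    have hs1 : A1 ⊆ prt w := fun v hv =>
      hin v (mem_filter.1 hv).2.1 (mem_filter.1 hv).2.2.1
    have hs2 : A2 ⊆ prt w := fun v hv =>
      hin v (mem_filter.1 hv).2.1 (mem_filter.1 hv).2.2.1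
    have hs3 : A3 ⊆ prt w := fun v hv =>
      hin v (mem_filter.1 hv).2.1 (mem_filter.1 hv).2.2.1
    have d12 : Disjoint A1 A2 := by
      rw [Finset.disjoint_left]
      intro v h1 h2
      exact (mem_filter.1 h1).2.2.2.1 (mem_filter.1 h2).2.2.2.1
    have d13 : Disjoint (A1 ∪ A2) A3 := by
      rw [Finset.disjoint_left]
      intro v h1 h2
      have h3 := (mem_filter.1 h2).2.2.2
      rcases mem_union.1 h1 with h1 | h1
      · have := (mem_filter.1 h1).2.2.2.2
        omega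
      · have := (mem_filter.1 h1).2.2.2.2
        omega
    have hsum : A1.card + A2.card + A3.card ≤ (prt w).card := by
      rw [← card_union_of_disjoint d12, ← card_union_of_disjoint d13]
      exact card_le_card (union_subset (union_subset hs1 hs2) hs3)
    have hcnt := C.l_count (H := H) hwZ
    rw [← hF, hwi] at hcnt
    set q := (F.filter fun e => ptOf prt Z e = i).card with hq
    rcases hcnt with ⟨h1, h2⟩ | h1 | ⟨⟨t, ht1, ht2⟩, h1⟩
    · omega
    · omega
    · -- small component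
      have hall : ∀ v ∈ prt w, ∀ y, H.Adj v y → s(v, y) ∈ F := by
        intro v hv y hy
        exact C.all_slots ht2 (by rw [ht1]; exact hv) hy
      have hA1e : A1 = ∅ := by
        rw [hA1, filter_eq_empty_iff]
        rintro v - ⟨h3, h4, h5, h6⟩
        have hv := hin v h3 h4
        have h7 := hdeg v h5
        rw [← SimpleGraph.card_neighborFinset_eq_degree] at h7
        obtain ⟨a, ha, b, hb, hab⟩ := Finset.one_lt_card.1 (lt_of_lt_of_le one_lt_two h7)
        rw [SimpleGraph.mem_neighborFinset] at ha hb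
        have h8 : s(v, a) ∈ slotsAt F v := mem_filter.2 ⟨hall v hv a ha, Sym2.mem_mk_left _ _⟩
        have h9 : s(v, b) ∈ slotsAt F v := mem_filter.2 ⟨hall v hv b hb, Sym2.mem_mk_left _ _⟩
        have h10 := Finset.card_le_one.1 h6.le _ h8 _ h9
        rcases Sym2.eq_iff.1 h10 with ⟨-, h11⟩ | ⟨h11, h12⟩
        · exact hab h11
        · exact hab (h12.trans h11)
      have hs : A2.card + 2 * A3.card ≤ ∑ v ∈ prt w, (slAt F v).card := by
        have e1 : A2.card = ∑ v ∈ A2, (slAt F v).card := by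
          rw [card_eq_sum_ones]
          apply Finset.sum_congr rfl
          intro v hv
          exact (mem_filter.1 hv).2.2.2.2.symm
        have e2 : 2 * A3.card ≤ ∑ v ∈ A3, (slAt F v).card := by
          rw [mul_comm, ← smul_eq_mul, ← Finset.sum_const]
          exact Finset.sum_le_sum fun v hv => (mem_filter.1 hv).2.2.2
        have e3 : Disjoint A2 A3 := by
          rw [Finset.disjoint_left] at d13 ⊢
          exact fun v h2 h3 => d13 (mem_union_right _ h2) h3
        calc A2.card + 2 * A3.card ≤ ∑ v ∈ A2, (slAt F v).card + ∑ v ∈ A3, (slAt F v).card := by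
              omega
          _ = ∑ v ∈ A2 ∪ A3, (slAt F v).card := (Finset.sum_union e3).symm
          _ ≤ _ := Finset.sum_le_sum_of_subset (union_subset hs2 hs3)
      rw [hA1e, card_empty]
      omega
  · -- number of hubs
    have h1 : ((K : ℝ) + 1) * Z0.card ≤ n := by exact_mod_cast hZ0c
    have h2 : (Z.card : ℝ) ≤ 3 * Z0.card := by exact_mod_cast hZc
    have h3 : (3 / ε) * Z0.card ≤ n := by
      have : (0 : ℝ) ≤ Z0.card := Nat.cast_nonneg _
      calc (3 / ε) * Z0.card ≤ ((K : ℝ) + 1) * Z0.card := by gcongr; linarith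
        _ ≤ n := h1
    rw [div_mul_eq_mul_div, div_le_iff₀ hε] at h3
    linarith
  · calc DZ.card ≤ (Z0.image fun z => s(c1 z, z)).card + (Z0.image fun z => s(c2 z, z)).card :=
          card_union_le _ _
      _ ≤ Z0.card + Z0.card := Nat.add_le_add card_image_le card_image_le
      _ ≤ 2 * Z.card := by
          have := card_le_card hZ0Z
          omega

end Pool.Agent.AML
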